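import Pool.Agent.H34.Sub.Iter

set_option linter.unusedSectionVars false

namespace PoolH34Sub

open Finset

theorem geom_tail (y : ℝ) (hy : 0 < y) (N : ℕ) :
    ∑ i ∈ range N, (if y < 2 ^ i then (1 / 2 : ℝ) ^ i else 0) ≤ 2 / y := by
  have key : ∀ N : ℕ, ∑ i ∈ range N, (if y < 2 ^ i then (1 / 2 : ℝ) ^ i else 0) ≤
      max 0 (2 / y - 2 * (1 / 2 : ℝ) ^ N) := by
    intro N
    induction N with
    | zero => simp
    | succ N ih =>
      rw [Finset.sum_range_succ]
      by_cases h : y < 2 ^ N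
      · rw [if_pos h]
        have h1 : (1 / 2 : ℝ) ^ N ≤ 1 / y := by
          rw [one_div_pow]
          exact one_div_le_one_div_of_le hy h.le
        have h2 : max 0 (2 / y - 2 * (1 / 2 : ℝ) ^ N) = 2 / y - 2 * (1 / 2 : ℝ) ^ N := by
          apply max_eq_right
          have : 2 / y = 2 * (1 / y) := by ring
          rw [this]; linarith
        rw [h2] at ih
        refine le_trans ?_ (le_max_right _ _)
        rw [pow_succ]
        linarith
      · rw [if_neg h, add_zero]
        refine le_trans ih ?_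
        apply max_le_max le_rfl
        rw [pow_succ]
        have : (0 : ℝ) ≤ (1 / 2 : ℝ) ^ N := by positivity
        linarith
  refine le_trans (key N) ?_
  apply max_le (by positivity)
  have : (0 : ℝ) ≤ (1 / 2 : ℝ) ^ N := by positivity
  linarith

/-- Selection of a degree class. -/
theorem class_sel {ι : Type*} [DecidableEq ι] (s : Finset ι) (a : ι → ℕ) (l : ℕ)
    (hs : s.card ≤ l) (g : ℝ) (hg : 0 < g) (hge : g ^ 2 * l = ((∑ x ∈ s, a x : ℕ) : ℝ))
    (hl : 1 ≤ l) :
    ∃ i : ℕ, g ≤ 3 * 2 ^ i ∧ ((∑ x ∈ s, a x : ℕ) : ℝ) * g ≤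
      16 * 2 ^ i * ((∑ x ∈ s.filter (fun x => a x ≠ 0 ∧ Nat.log 4 (a x) = i), a x : ℕ) : ℝ) := by
  classical
  by_contra hcon
  push Not at hcon
  set e : ℝ := ((∑ x ∈ s, a x : ℕ) : ℝ) with he
  have hlR : (1 : ℝ) ≤ l := by exact_mod_cast hl
  have hepos : 0 < e := by rw [← hge]; positivity
  set s1 := s.filter (fun x => g ^ 2 / 2 ≤ (a x : ℝ)) with hs1
  set s2 := s.filter (fun x => ¬ g ^ 2 / 2 ≤ (a x : ℝ)) with hs2
  have hsplit : e = (∑ x ∈ s1, (a x : ℝ)) + ∑ x ∈ s2, (a x : ℝ) := by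
    rw [he, Nat.cast_sum, hs1, hs2, Finset.sum_filter_add_sum_filter_not]
  have h2 : ∑ x ∈ s2, (a x : ℝ) ≤ e / 2 := by
    calc ∑ x ∈ s2, (a x : ℝ) ≤ ∑ _x ∈ s2, g ^ 2 / 2 := by
          apply Finset.sum_le_sum
          intro x hx
          have := (Finset.mem_filter.mp hx).2
          push Not at this
          exact this.le
      _ = s2.card * (g ^ 2 / 2) := by rw [Finset.sum_const, nsmul_eq_mul]
      _ ≤ l * (g ^ 2 / 2) := by
          apply mul_le_mul_of_nonneg_right _ (by positivity)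
          have : s2.card ≤ l := le_trans (Finset.card_filter_le _ _) hs
          exact_mod_cast this
      _ = e / 2 := by rw [← hge]; ring
  set N := s1.sup (fun x => Nat.log 4 (a x)) + 1 with hN
  set ee : ℕ → ℝ := fun i =>
    ((∑ x ∈ s.filter (fun x => a x ≠ 0 ∧ Nat.log 4 (a x) = i), a x : ℕ) : ℝ) with hee
  have hax : ∀ x ∈ s1, a x ≠ 0 ∧ g / 3 < 2 ^ (Nat.log 4 (a x)) := by
    intro x hx
    have h := (Finset.mem_filter.mp hx).2
    have h0 : a x ≠ 0 := by
      intro h0
      rw [h0] at h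
      have : 0 < g ^ 2 / 2 := by positivity
      simp at h
      linarith
    refine ⟨h0, ?_⟩
    have h1 : a x < 4 ^ (Nat.log 4 (a x) + 1) := Nat.lt_pow_succ_log_self (by norm_num) _
    have h3 : (a x : ℝ) < 4 ^ (Nat.log 4 (a x) + 1) := by exact_mod_cast h1
    have h4 : g ^ 2 < 9 * (2 ^ (Nat.log 4 (a x))) ^ 2 := by
      have e1 : (4 : ℝ) ^ (Nat.log 4 (a x) + 1) = 4 * (2 ^ (Nat.log 4 (a x))) ^ 2 := by
        rw [pow_succ, ← pow_mul, mul_comm (Nat.log 4 (a x)) 2, pow_mul]; norm_num; ring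
      rw [e1] at h3
      have : (0 : ℝ) < (2 ^ (Nat.log 4 (a x))) ^ 2 := by positivity
      linarith
    by_contra hc
    push Not at hc
    have h5 : (0 : ℝ) < 2 ^ (Nat.log 4 (a x)) := by positivity
    nlinarith
  have h1 : ∑ x ∈ s1, (a x : ℝ) ≤ ∑ i ∈ range N, (if g / 3 < 2 ^ i then ee i else 0) := by
    rw [← Finset.sum_fiberwise_of_maps_to (g := fun x => Nat.log 4 (a x)) (t := range N)]
    · apply Finset.sum_le_sum
      intro i _
      by_cases hi : g / 3 < 2 ^ i
      · rw [if_pos hi, hee]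
        simp only
        rw [Nat.cast_sum]
        apply Finset.sum_le_sum_of_subset_of_nonneg
        · intro x hx
          obtain ⟨hx1, hx2⟩ := Finset.mem_filter.mp hx
          exact Finset.mem_filter.mpr ⟨(Finset.mem_filter.mp hx1).1, (hax x hx1).1, hx2⟩
        · intro _ _ _; positivity
      · rw [if_neg hi]
        apply le_of_eq
        apply Finset.sum_eq_zero
        intro x hx
        obtain ⟨hx1, hx2⟩ := Finset.mem_filter.mp hx
        have := (hax x hx1).2
        rw [hx2] at this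
        exact absurd this hi
    · intro x hx
      rw [Finset.mem_range, hN]
      exact Nat.lt_succ_of_le (Finset.le_sup (f := fun x => Nat.log 4 (a x)) hx)
  have h3 : ∑ i ∈ range N, (if g / 3 < 2 ^ i then ee i else 0) ≤
      (e * g / 16) * ∑ i ∈ range N, (if g / 3 < 2 ^ i then (1 / 2 : ℝ) ^ i else 0) := by
    rw [Finset.mul_sum]
    apply Finset.sum_le_sum
    intro i _
    by_cases hi : g / 3 < 2 ^ i
    · rw [if_pos hi, if_pos hi]
      have h4 := hcon i (by linarith)
      have h5 : (0 : ℝ) < 2 ^ i := by positivity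
      have h6 : (1 / 2 : ℝ) ^ i = 1 / 2 ^ i := by rw [one_div_pow]
      rw [h6, mul_one_div, le_div_iff₀ h5, hee]
      simp only
      linarith
    · rw [if_neg hi, if_neg hi]; simp
  have h4 := geom_tail (g / 3) (by positivity) N
  have h5 : (e * g / 16) * ∑ i ∈ range N, (if g / 3 < 2 ^ i then (1 / 2 : ℝ) ^ i else 0)
      ≤ 3 * e / 8 := by
    calc _ ≤ (e * g / 16) * (2 / (g / 3)) := mul_le_mul_of_nonneg_left h4 (by positivity)
      _ = 3 * e / 8 := by field_simp; ring
  linarith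

variable {A B : Type*} [DecidableEq A] [DecidableEq B]

theorem iterate {r : ℕ} {L : Finset A} (R : Finset B) (E : A → B → Prop) [DecidableRel E]
    (conf : B → B → Prop) [DecidableRel conf] (hno : NoSub (r + 2) L R E conf)
    (crefl : ∀ a, conf a a) (csymm : ∀ a b, conf a b → conf b a)
    (h3 : ∀ u ∈ L, ∀ w', ((Nb R E u).filter (fun w => conf w w')).card ≤ 2)
    (h4 : ∀ u ∈ L, ∀ w ∈ Nb R E u, ∀ w' ∈ Nb R E u, conf w w' → w = w')
    (d Dm : ℕ) (hd0 : 0 < d) (hd : ∀ u ∈ L, d ≤ (Nb R E u).card)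
    (hDm : ∀ w ∈ R, (L.filter (fun u => E u w)).card ≤ Dm)
    (hR : 0 < R.card) (t M : ℕ) (ht : t = r + 2) (hM : M = 2 * t ^ 2 + 1) (φ : ℝ)
    (hφ : φ = (d : ℝ) ^ 2 / (8 * t * M * R.card))
    (ha0 : 8 * (t : ℝ) * R.card ≤ L.card * d)
    (ha : 8 * (t : ℝ) * R.card ≤ L.card * (φ / 2) ^ r * d)
    (hb : 4 * (t : ℝ) ^ 3 * M * Dm ≤ L.card * (φ / 2) ^ r * φ) : False := by
  classical
  subst ht
  subst hM
  set t := r + 2 with ht
  set M := 2 * t ^ 2 + 1 with hM
  have htR : (0 : ℝ) < t := by rw [ht]; positivity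
  have hMR : (0 : ℝ) < M := by rw [hM]; positivity
  have hRR : (0 : ℝ) < R.card := by exact_mod_cast hR
  have hdR : (0 : ℝ) < d := by exact_mod_cast hd0
  have hφ0 : 0 < φ := by rw [hφ]; positivity
  have hL0 : 0 < L.card := by
    by_contra h
    have h' : L.card = 0 := by omega
    rw [h'] at ha0
    have : (0 : ℝ) < 8 * t * R.card := by positivity
    simp at ha0
    linarith
  have hLR : (0 : ℝ) < L.card := by exact_mod_cast hL0
  have hφ1 : φ ≤ 1 := by
    obtain ⟨u, _, hu⟩ := light_step R E conf (by omega : 1 ≤ t) hno csymm h3 d hd L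
      (Finset.Subset.refl L) hL0 (by exact_mod_cast ha0)
    have h1 : L.card * d ^ 2 ≤ 8 * t * M * R.card * L.card :=
      le_trans hu (Nat.mul_le_mul_left _ (Finset.card_filter_le _ _))
    have h2 : (L.card : ℝ) * d ^ 2 ≤ 8 * t * M * R.card * L.card := by exact_mod_cast h1
    rw [hφ, div_le_one (by positivity)]
    have h5 : (d : ℝ) ^ 2 * L.card ≤ (8 * t * M * R.card) * L.card := by linarith
    exact le_of_mul_le_mul_right h5 hLR
  have hφ2 : φ / 2 ≤ 1 := by linarith
  have key : ∀ k : ℕ, k ≤ r + 1 → ∃ (f : Fin k → A) (S : Finset A),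
      St R E conf L M k f S ∧ (L.card : ℝ) * (φ / 2) ^ k ≤ S.card := by
    intro k
    induction k with
    | zero =>
      intro _
      refine ⟨Fin.elim0, L, ⟨fun i => i.elim0, Finset.Subset.refl L, fun i => i.elim0,
        fun v _ i => i.elim0, fun i => i.elim0, fun v _ i => i.elim0⟩, by simp⟩
    | succ k ih =>
      intro hk
      obtain ⟨f, S, hst, hS⟩ := ih (by omega)
      have hkr : k ≤ r := by omega
      have hpow : (φ / 2) ^ r ≤ (φ / 2) ^ k := pow_le_pow_of_le_one (by positivity) hφ2 hkr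
      have hSr : (L.card : ℝ) * (φ / 2) ^ r ≤ S.card :=
        le_trans (mul_le_mul_of_nonneg_left hpow hLR.le) hS
      have hSpos : (0 : ℝ) < S.card := lt_of_lt_of_le (by positivity) hSr
      have hS8 : 8 * (t : ℝ) * R.card ≤ S.card * d :=
        le_trans ha (mul_le_mul_of_nonneg_right hSr hdR.le)
      obtain ⟨f', S', hst', hS'⟩ := step R E conf (by omega : 1 ≤ t) hno crefl csymm h3 h4 d Dm
        hd hDm (by omega : k + 1 ≤ t) hst (by exact_mod_cast hSpos) (by exact_mod_cast hS8)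
      refine ⟨f', S', hst', ?_⟩
      have h1 : (S.card : ℝ) * d ^ 2 ≤ 8 * t * M * R.card * (S'.card + 2 * t ^ 3 * M * Dm) := by
        exact_mod_cast hS'
      have h2 : φ * S.card ≤ S'.card + 2 * t ^ 3 * M * Dm := by
        rw [hφ, div_mul_eq_mul_div, div_le_iff₀ (by positivity)]
        linarith
      have h5 : 4 * (t : ℝ) ^ 3 * M * Dm ≤ φ * S.card := by
        refine le_trans hb ?_
        rw [mul_comm]
        exact mul_le_mul_of_nonneg_left hSr hφ0.le
      have h6 : φ * S.card / 2 ≤ S'.card := by linarith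
      calc (L.card : ℝ) * (φ / 2) ^ (k + 1) = (φ / 2) * (L.card * (φ / 2) ^ k) := by ring
        _ ≤ (φ / 2) * S.card := mul_le_mul_of_nonneg_left hS (by positivity)
        _ = φ * S.card / 2 := by ring
        _ ≤ S'.card := h6
  obtain ⟨f, S, hst, hS⟩ := key (r + 1) le_rfl
  have hSpos : (0 : ℝ) < S.card := lt_of_lt_of_le (by positivity) hS
  have hSpos' : 0 < S.card := by exact_mod_cast hSpos
  obtain ⟨u, hu⟩ := Finset.card_pos.mp hSpos'
  have hext := extend R E conf crefl csymm h4 hst u hu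
  set f' : Fin (r + 1 + 1) → A := Fin.cons u f with hf'
  have hne : ∀ q : {q : Fin (r + 2) × Fin (r + 2) // q.1 < q.2},
      (CNe R E (f' q.1.1) (f' q.1.2)).Nonempty := by
    intro q
    exact Finset.card_pos.mp (hext.pair _ _ (ne_of_lt q.2)).2.1
  refine hno f' (fun q => (hne q).choose) hext.mem ?_ ?_ ?_
  · intro i j hij
    by_contra h
    exact (hext.pair i j h).1 hij
  · intro q
    exact (mem_CNe R E).mp (hne q).choose_spec
  · intro q q' hqq
    apply hext.sep q.1.1 q.1.2 q'.1.1 q'.1.2 q.2 q'.2 _ _ (hne q).choose_spec _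
      (hne q').choose_spec
    by_contra h
    push Not at h
    exact hqq (Subtype.ext (Prod.ext h.1 h.2))

end PoolH34Sub
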