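import Pool.Agent.H34.Sub.Drc

set_option linter.unusedSectionVars false

namespace PoolH34Sub

open Finset

variable {V α : Type*} [DecidableEq V] [DecidableEq α]

/-- Number of edges of the pair graph between `L` and `R`. -/
def eN (c : Sym2 V → α) (L R : Finset (V × V)) : ℕ :=
  ((L ×ˢ R).filter (fun q => PE c q.1 q.2)).card

/-- neighbourhood in `L` of `r` -/
def NL (c : Sym2 V → α) (L : Finset (V × V)) (r : V × V) : Finset (V × V) :=
  L.filter (fun p => PE c p r)

theorem eN_eq_sum (c : Sym2 V → α) (L R : Finset (V × V)) :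
    eN c L R = ∑ r ∈ R, (NL c L r).card := by
  unfold eN NL
  rw [Finset.card_filter, Finset.sum_product_right]
  apply Finset.sum_congr rfl
  intro r _
  rw [Finset.card_filter]

/-- conflicting pairs inside a neighbourhood -/
theorem conf_count {c : Sym2 V → α} (hc : IsProperColouring c) (L : Finset (V × V))
    (r : V × V) :
    ((NL c L r ×ˢ NL c L r).filter (fun q => Conf q.1 q.2)).card ≤ 4 * (NL c L r).card := by
  classical
  set A := NL c L r with hA
  have hinj1 : ∀ q ∈ A, ∀ q' ∈ A, q.1 = q'.1 → q = q' := by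
    intro q hq q' hq' h
    exact PE_inj1 hc (Finset.mem_filter.mp hq).2 (Finset.mem_filter.mp hq').2 h
  have hinj2 : ∀ q ∈ A, ∀ q' ∈ A, q.2 = q'.2 → q = q' := by
    intro q hq q' hq' h
    exact PE_inj2 hc (Finset.mem_filter.mp hq).2 (Finset.mem_filter.mp hq').2 h
  have hone1 : ∀ v, (A.filter (fun q => v = q.1)).card ≤ 1 := by
    intro v
    rw [Finset.card_le_one]
    intro q hq q' hq'
    have h1 := Finset.mem_filter.mp hq
    have h2 := Finset.mem_filter.mp hq'
    exact hinj1 q h1.1 q' h2.1 (h1.2.symm.trans h2.2)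
  have hone2 : ∀ v, (A.filter (fun q => v = q.2)).card ≤ 1 := by
    intro v
    rw [Finset.card_le_one]
    intro q hq q' hq'
    have h1 := Finset.mem_filter.mp hq
    have h2 := Finset.mem_filter.mp hq'
    exact hinj2 q h1.1 q' h2.1 (h1.2.symm.trans h2.2)
  have h1 : ((A ×ˢ A).filter (fun q => Conf q.1 q.2)).card
      = ∑ p ∈ A, (A.filter (fun q => Conf p q)).card := by
    rw [Finset.card_filter, Finset.sum_product]
    apply Finset.sum_congr rfl
    intro p _
    rw [Finset.card_filter]
  rw [h1]
  calc ∑ p ∈ A, (A.filter (fun q => Conf p q)).card ≤ ∑ p ∈ A, 4 := by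
        apply Finset.sum_le_sum
        intro p _
        have hsub : A.filter (fun q => Conf p q) ⊆
            (A.filter (fun q => p.1 = q.1) ∪ A.filter (fun q => p.1 = q.2)) ∪
            (A.filter (fun q => p.2 = q.1) ∪ A.filter (fun q => p.2 = q.2)) := by
          intro q hq
          have hq := Finset.mem_filter.mp hq
          simp only [Finset.mem_union, Finset.mem_filter]
          rcases hq.2 with h | h | h | h
          · exact Or.inl (Or.inl ⟨hq.1, h⟩)
          · exact Or.inl (Or.inr ⟨hq.1, h⟩)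
          · exact Or.inr (Or.inl ⟨hq.1, h⟩)
          · exact Or.inr (Or.inr ⟨hq.1, h⟩)
        have a := Finset.card_le_card hsub
        have b1 := Finset.card_union_le
          (A.filter (fun q => p.1 = q.1) ∪ A.filter (fun q => p.1 = q.2))
          (A.filter (fun q => p.2 = q.1) ∪ A.filter (fun q => p.2 = q.2))
        have b2 := Finset.card_union_le (A.filter (fun q => p.1 = q.1))
          (A.filter (fun q => p.1 = q.2))
        have b3 := Finset.card_union_le (A.filter (fun q => p.2 = q.1))
          (A.filter (fun q => p.2 = q.2))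
        have c1 := hone1 p.1
        have c2 := hone2 p.1
        have c3 := hone1 p.2
        have c4 := hone2 p.2
        omega
    _ = 4 * A.card := by rw [Finset.sum_const, smul_eq_mul, mul_comm]

/-- The sum over `r ∈ R` of the number of bad pairs in the neighbourhood of `r`. -/
theorem sum_bad {c : Sym2 V → α} (hc : IsProperColouring c) (L R : Finset (V × V)) (M : ℕ) :
    ∑ r ∈ R, ((NL c L r ×ˢ NL c L r).filter (fun q => Bad c R M q.1 q.2)).card
      ≤ 4 * eN c L R + M * L.card ^ 2 := by
  classical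
  have hsplit : ∀ r ∈ R, ((NL c L r ×ˢ NL c L r).filter (fun q => Bad c R M q.1 q.2)).card
      ≤ 4 * (NL c L r).card
        + ((NL c L r ×ˢ NL c L r).filter (fun q => (CN c R q.1 q.2).card < M)).card := by
    intro r _
    have hsub : (NL c L r ×ˢ NL c L r).filter (fun q => Bad c R M q.1 q.2) ⊆
        (NL c L r ×ˢ NL c L r).filter (fun q => Conf q.1 q.2) ∪
        (NL c L r ×ˢ NL c L r).filter (fun q => (CN c R q.1 q.2).card < M) := by
      intro q hq
      have hq := Finset.mem_filter.mp hq
      rw [Finset.mem_union, Finset.mem_filter, Finset.mem_filter]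
      rcases hq.2 with h | h
      · exact Or.inl ⟨hq.1, h⟩
      · exact Or.inr ⟨hq.1, h⟩
    calc _ ≤ _ := Finset.card_le_card hsub
      _ ≤ _ := Finset.card_union_le _ _
      _ ≤ _ := Nat.add_le_add_right (conf_count hc L r) _
  have hsecond : ∑ r ∈ R, ((NL c L r ×ˢ NL c L r).filter
      (fun q => (CN c R q.1 q.2).card < M)).card ≤ M * L.card ^ 2 := by
    have e1 : ∀ r ∈ R, ((NL c L r ×ˢ NL c L r).filter
        (fun q => (CN c R q.1 q.2).card < M)).card
        = ∑ q ∈ (L ×ˢ L).filter (fun q => (CN c R q.1 q.2).card < M),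
          if (PE c q.1 r ∧ PE c q.2 r) then 1 else 0 := by
      intro r _
      rw [← Finset.card_filter]
      congr 1
      ext q
      simp only [NL, Finset.mem_filter, Finset.mem_product]
      tauto
    rw [Finset.sum_congr rfl e1, Finset.sum_comm]
    calc ∑ q ∈ (L ×ˢ L).filter (fun q => (CN c R q.1 q.2).card < M),
          ∑ r ∈ R, (if (PE c q.1 r ∧ PE c q.2 r) then 1 else 0)
        ≤ ∑ q ∈ (L ×ˢ L).filter (fun q => (CN c R q.1 q.2).card < M), M := by
          apply Finset.sum_le_sum
          intro q hq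
          rw [← Finset.card_filter]
          exact le_of_lt (Finset.mem_filter.mp hq).2
      _ = ((L ×ˢ L).filter (fun q => (CN c R q.1 q.2).card < M)).card * M := by
          rw [Finset.sum_const, smul_eq_mul]
      _ ≤ (L ×ˢ L).card * M := Nat.mul_le_mul_right _ (Finset.card_filter_le _ _)
      _ = M * L.card ^ 2 := by rw [Finset.card_product]; ring
  calc _ ≤ ∑ r ∈ R, (4 * (NL c L r).card
        + ((NL c L r ×ˢ NL c L r).filter (fun q => (CN c R q.1 q.2).card < M)).card) :=
        Finset.sum_le_sum hsplit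
    _ = 4 * eN c L R + ∑ r ∈ R, ((NL c L r ×ˢ NL c L r).filter
        (fun q => (CN c R q.1 q.2).card < M)).card := by
        rw [Finset.sum_add_distrib, eN_eq_sum, Finset.mul_sum]
    _ ≤ _ := Nat.add_le_add_left hsecond _

/-- The basic inequality: without two disjoint colour isomorphic copies, the pair graph is sparse
between `L` and `R`. -/
theorem edge_bound {t : ℕ} {c : Sym2 V → α} (hc : IsProperColouring c)
    (L R : Finset (V × V)) (hL : ∀ p ∈ L, p.1 ≠ p.2) (hR : ∀ r ∈ R, r.1 ≠ r.2)
    (hno : ¬ HasTwoIsomorphicCopies c (subdivK t)) :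
    eN c L R ^ 2 ≤ R.card * (4 * t * (4 * eN c L R + (4 * t ^ 2 + 4 * t + 1) * L.card ^ 2)) := by
  classical
  set M := 4 * t ^ 2 + 4 * t + 1 with hM
  have hall : ∀ r ∈ R, (NL c L r).card ^ 2 ≤
      4 * t * ((NL c L r ×ˢ NL c L r).filter (fun q => Bad c R M q.1 q.2)).card := by
    intro r hr
    by_contra hcon
    push Not at hcon
    obtain ⟨f, hf1, hf2⟩ := pick_good (NL c L r) (Bad c R M) (fun a b h => Bad_symm h) t hcon
    exact hno (copies_of_good hc R hR f (fun i => hL _ (Finset.mem_filter.mp (hf1 i)).1) hf2)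
  calc eN c L R ^ 2 = (∑ r ∈ R, (NL c L r).card) ^ 2 := by rw [eN_eq_sum]
    _ ≤ R.card * ∑ r ∈ R, (NL c L r).card ^ 2 := sq_sum_le_card_mul_sum_sq
    _ ≤ R.card * ∑ r ∈ R, 4 * t *
        ((NL c L r ×ˢ NL c L r).filter (fun q => Bad c R M q.1 q.2)).card :=
        Nat.mul_le_mul_left _ (Finset.sum_le_sum hall)
    _ = R.card * (4 * t * ∑ r ∈ R,
        ((NL c L r ×ˢ NL c L r).filter (fun q => Bad c R M q.1 q.2)).card) := by
        rw [← Finset.mul_sum]
    _ ≤ _ := Nat.mul_le_mul_left _ (Nat.mul_le_mul_left _ (sum_bad hc L R M))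

end PoolH34Sub
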