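import Mathlib

/-!
The definitions used in the statement of `MP_e1b89b_co.AdditiveColourings`.
-/

namespace PoolH34Sub

open Finset

/-- The vertex set of the 1-subdivision of `K_t`: `t` branch vertices and one new vertex for each
of the `t(t-1)/2` edges `{i, j}`, written as the pair `(i, j)` with `i < j`. -/
abbrev SubdivVertex (t : ℕ) := Fin t ⊕ {q : Fin t × Fin t // q.1 < q.2}

/-- Adjacency in the 1-subdivision of `K_t`: the branch vertex `i` is joined to the new vertex of
the edge `{j, k}` exactly when `i ∈ {j, k}`. -/
def SubdivAdj {t : ℕ} : SubdivVertex t → SubdivVertex t → Prop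
  | .inl i, .inr q => i = q.1.1 ∨ i = q.1.2
  | .inr q, .inl i => i = q.1.1 ∨ i = q.1.2
  | _, _ => False

/-- `H_t`, the 1-subdivision of the complete graph `K_t`. -/
def subdivK (t : ℕ) : SimpleGraph (SubdivVertex t) where
  Adj := SubdivAdj
  symm := ⟨by
    rintro (i | q) (j | q') h <;> first | exact h | exact h.elim⟩
  loopless := ⟨by
    rintro (i | q) h <;> simp [SubdivAdj] at h⟩

/-- A colouring `c` of the edges `xy` (`x ≠ y`) of the complete graph on `V` is proper if different
edges at a common vertex get different colours. -/
def IsProperColouring {V α : Type*} (c : Sym2 V → α) : Prop :=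
  ∀ x y z, x ≠ y → x ≠ z → c s(x, y) = c s(x, z) → y = z

/-- The colouring `c` of the complete graph on `V` contains two vertex-disjoint copies of `H`
which are colour isomorphic: two injective maps `u, w` of the vertices of `H` with disjoint
ranges such that for each edge `ab` of `H` the edges `u(a)u(b)` and `w(a)w(b)` have the same
colour. -/
def HasTwoIsomorphicCopies {V α W : Type*} (c : Sym2 V → α) (H : SimpleGraph W) : Prop :=
  ∃ u w : W → V, Function.Injective u ∧ Function.Injective w ∧ (∀ a b, u a ≠ w b) ∧
    ∀ a b, H.Adj a b → c s(u a, u b) = c s(w a, w b)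

/-- The set of colours used by `c` on the edges `xy`, `x ≠ y`, of the complete graph on `V`. -/
def coloursUsed {V α : Type*} [Fintype V] [DecidableEq V] [DecidableEq α] (c : Sym2 V → α) :
    Finset α :=
  (univ : Finset V).offDiag.image (fun e => c s(e.1, e.2))

end PoolH34Sub
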