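import Pool.Agent.H34.Sub.Greedy
import Pool.Agent.H34.Sub.Defs

set_option linter.unusedSectionVars false
set_option linter.style.haveILetI false

namespace PoolH34Sub

open Finset

variable {V α : Type*} [DecidableEq V] [DecidableEq α]

/-- Adjacency of two ordered pairs in the pair graph. -/
def PE (c : Sym2 V → α) (p r : V × V) : Prop :=
  p.1 ≠ r.1 ∧ p.2 ≠ r.2 ∧ c s(p.1, r.1) = c s(p.2, r.2)

instance (c : Sym2 V → α) : DecidableRel (PE c) := fun _ _ => by unfold PE; infer_instance

theorem PE_symm {c : Sym2 V → α} {p r : V × V} (h : PE c p r) : PE c r p := by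
  refine ⟨h.1.symm, h.2.1.symm, ?_⟩
  rw [Sym2.eq_swap, h.2.2, Sym2.eq_swap]

theorem PE_inj1 {c : Sym2 V → α} (hc : IsProperColouring c) {p p' r : V × V}
    (h : PE c p r) (h' : PE c p' r) (e : p.1 = p'.1) : p = p' := by
  apply Prod.ext e
  have h1 : c s(r.2, p.2) = c s(r.2, p'.2) := by
    rw [Sym2.eq_swap, ← h.2.2, e, h'.2.2, Sym2.eq_swap]
  exact hc _ _ _ h.2.1.symm h'.2.1.symm h1

theorem PE_inj2 {c : Sym2 V → α} (hc : IsProperColouring c) {p p' r : V × V}
    (h : PE c p r) (h' : PE c p' r) (e : p.2 = p'.2) : p = p' := by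
  refine Prod.ext ?_ e
  have h1 : c s(r.1, p.1) = c s(r.1, p'.1) := by
    rw [Sym2.eq_swap, h.2.2, e, ← h'.2.2, Sym2.eq_swap]
  exact hc _ _ _ h.1.symm h'.1.symm h1

/-- Two ordered pairs share a coordinate. -/
def Conf (p q : V × V) : Prop := p.1 = q.1 ∨ p.1 = q.2 ∨ p.2 = q.1 ∨ p.2 = q.2

instance : DecidableRel (Conf (V := V)) := fun _ _ => by unfold Conf; infer_instance

theorem Conf_symm {p q : V × V} (h : Conf p q) : Conf q p := by
  unfold Conf at *
  rcases h with h | h | h | h
  · exact Or.inl h.symm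
  · exact Or.inr (Or.inr (Or.inl h.symm))
  · exact Or.inr (Or.inl h.symm)
  · exact Or.inr (Or.inr (Or.inr h.symm))

/-- common neighbours in `R` -/
def CN (c : Sym2 V → α) (R : Finset (V × V)) (p q : V × V) : Finset (V × V) :=
  R.filter (fun r => PE c p r ∧ PE c q r)

def Bad (c : Sym2 V → α) (R : Finset (V × V)) (M : ℕ) (p q : V × V) : Prop :=
  Conf p q ∨ (CN c R p q).card < M

instance (c : Sym2 V → α) (R : Finset (V × V)) (M : ℕ) : DecidableRel (Bad c R M) :=
  fun _ _ => by unfold Bad; infer_instance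

theorem Bad_symm {c : Sym2 V → α} {R : Finset (V × V)} {M : ℕ} {p q : V × V}
    (h : Bad c R M p q) : Bad c R M q p := by
  rcases h with h | h
  · exact Or.inl (Conf_symm h)
  · right
    have : CN c R q p = CN c R p q := by
      unfold CN
      apply Finset.filter_congr
      intro r _
      exact and_comm
    rw [this]; exact h

/-- From `t` pairwise good pairs one builds two colour isomorphic disjoint copies. -/
theorem copies_of_good {t : ℕ} {c : Sym2 V → α} (hc : IsProperColouring c)
    (R : Finset (V × V)) (hR : ∀ r ∈ R, r.1 ≠ r.2) (f : Fin t → V × V)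
    (hf : ∀ i, (f i).1 ≠ (f i).2)
    (hgood : ∀ i j, i ≠ j → ¬ Bad c R (4 * t ^ 2 + 4 * t + 1) (f i) (f j)) :
    HasTwoIsomorphicCopies c (subdivK t) := by
  classical
  set F0 : Finset V := univ.image (fun i => (f i).1) ∪ univ.image (fun i => (f i).2) with hF0
  have hF0c : F0.card ≤ 2 * t := by
    have a1 := Finset.card_union_le (univ.image (fun i => (f i).1))
      (univ.image (fun i => (f i).2))
    have a3 : (univ.image (fun i => (f i).1)).card ≤ (univ : Finset (Fin t)).card :=
      Finset.card_image_le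
    have a4 : (univ.image (fun i => (f i).2)).card ≤ (univ : Finset (Fin t)).card :=
      Finset.card_image_le
    rw [Finset.card_univ, Fintype.card_fin] at a3 a4
    rw [← hF0] at a1
    omega
  set I := {q : Fin t × Fin t // q.1 < q.2} with hI
  have hIc : (univ : Finset I).card ≤ t ^ 2 := by
    rw [Finset.card_univ]
    calc Fintype.card I ≤ Fintype.card (Fin t × Fin t) :=
          Fintype.card_subtype_le _
      _ = t ^ 2 := by rw [Fintype.card_prod, Fintype.card_fin]; ring
  let N : I → Finset (V × V) := fun q => CN c R (f q.1.1) (f q.1.2)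
  have hN1 : ∀ i, ∀ r ∈ N i, ∀ r' ∈ N i, r.1 = r'.1 → r = r' := by
    intro i r hr r' hr' h
    have hr := (Finset.mem_filter.mp hr).2.1
    have hr' := (Finset.mem_filter.mp hr').2.1
    exact PE_inj1 hc (PE_symm hr) (PE_symm hr') h
  have hN2 : ∀ i, ∀ r ∈ N i, ∀ r' ∈ N i, r.2 = r'.2 → r = r' := by
    intro i r hr r' hr' h
    have hr := (Finset.mem_filter.mp hr).2.1
    have hr' := (Finset.mem_filter.mp hr').2.1
    exact PE_inj2 hc (PE_symm hr) (PE_symm hr') h
  have hcard : ∀ i ∈ (univ : Finset I), 2 * (F0.card + 2 * (univ : Finset I).card)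
      < (N i).card := by
    intro q _
    have hq : q.1.1 ≠ q.1.2 := ne_of_lt q.2
    have h := hgood _ _ hq
    unfold Bad at h
    push Not at h
    have h2 := h.2
    have : (N q).card = (CN c R (f q.1.1) (f q.1.2)).card := rfl
    rw [this]
    omega
  rcases Nat.eq_zero_or_pos t with ht | ht
  · -- no vertices at all
    subst ht
    refine ⟨fun a => ?_, fun a => ?_, ?_, ?_, ?_, ?_⟩
    · rcases a with i | q
      · exact i.elim0
      · exact q.1.1.elim0
    · rcases a with i | q
      · exact i.elim0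
      · exact q.1.1.elim0
    · rintro (i | q)
      · exact i.elim0
      · exact q.1.1.elim0
    · rintro (i | q)
      · exact i.elim0
      · exact q.1.1.elim0
    · rintro (i | q)
      · exact i.elim0
      · exact q.1.1.elim0
    · rintro (i | q)
      · exact i.elim0
      · exact q.1.1.elim0
  haveI : Nonempty V := ⟨(f ⟨0, ht⟩).1⟩
  obtain ⟨g, hg1, hg2⟩ := pick_sub N F0 hN1 hN2 univ hcard
  have hmem : ∀ q : I, g q ∈ R ∧ PE c (f q.1.1) (g q) ∧ PE c (f q.1.2) (g q) := by
    intro q
    have := Finset.mem_filter.mp (hg1 q (mem_univ _)).1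
    exact ⟨this.1, this.2⟩
  have hF1 : ∀ q : I, ∀ i, (g q).1 ≠ (f i).1 ∧ (g q).1 ≠ (f i).2 ∧
      (g q).2 ≠ (f i).1 ∧ (g q).2 ≠ (f i).2 := by
    intro q i
    have h := (hg1 q (mem_univ _)).2
    have m1 : (f i).1 ∈ F0 := Finset.mem_union_left _ (Finset.mem_image_of_mem _ (mem_univ i))
    have m2 : (f i).2 ∈ F0 := Finset.mem_union_right _ (Finset.mem_image_of_mem _ (mem_univ i))
    refine ⟨fun e => h.1 (e ▸ m1), fun e => h.1 (e ▸ m2), fun e => h.2 (e ▸ m1),
      fun e => h.2 (e ▸ m2)⟩
  have hconf : ∀ i j, i ≠ j → (f i).1 ≠ (f j).1 ∧ (f i).1 ≠ (f j).2 ∧ (f i).2 ≠ (f j).1 ∧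
      (f i).2 ≠ (f j).2 := by
    intro i j hij
    have h := hgood i j hij
    unfold Bad Conf at h
    push Not at h
    exact ⟨h.1.1, h.1.2.1, h.1.2.2.1, h.1.2.2.2⟩
  refine ⟨Sum.elim (fun i => (f i).1) (fun q => (g q).1),
    Sum.elim (fun i => (f i).2) (fun q => (g q).2), ?_, ?_, ?_, ?_⟩
  · rintro (i | q) (j | q') h
    · simp only [Sum.elim_inl] at h
      by_contra hne
      exact (hconf i j (fun e => hne (by rw [e]))).1 h
    · simp only [Sum.elim_inl, Sum.elim_inr] at h
      exact absurd h.symm (hF1 q' i).1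
    · simp only [Sum.elim_inl, Sum.elim_inr] at h
      exact absurd h (hF1 q j).1
    · simp only [Sum.elim_inr] at h
      by_contra hne
      exact (hg2 q (mem_univ _) q' (mem_univ _) (fun e => hne (by rw [e]))).1 h
  · rintro (i | q) (j | q') h
    · simp only [Sum.elim_inl] at h
      by_contra hne
      exact (hconf i j (fun e => hne (by rw [e]))).2.2.2 h
    · simp only [Sum.elim_inl, Sum.elim_inr] at h
      exact absurd h.symm (hF1 q' i).2.2.2
    · simp only [Sum.elim_inl, Sum.elim_inr] at h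
      exact absurd h (hF1 q j).2.2.2
    · simp only [Sum.elim_inr] at h
      by_contra hne
      exact (hg2 q (mem_univ _) q' (mem_univ _) (fun e => hne (by rw [e]))).2.2.2 h
  · rintro (i | q) (j | q') h
    · simp only [Sum.elim_inl] at h
      by_cases hij : i = j
      · subst hij; exact hf i h
      · exact (hconf i j hij).2.1 h
    · simp only [Sum.elim_inl, Sum.elim_inr] at h
      exact (hF1 q' i).2.2.1 h.symm
    · simp only [Sum.elim_inl, Sum.elim_inr] at h
      exact (hF1 q j).2.1 h
    · simp only [Sum.elim_inr] at h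
      by_cases hqq : q = q'
      · subst hqq; exact hR _ (hmem q).1 h
      · exact (hg2 q (mem_univ _) q' (mem_univ _) hqq).2.1 h
  · rintro (i | q) (j | q') h
    · exact absurd h (by simp [subdivK, SubdivAdj])
    · simp only [Sum.elim_inl, Sum.elim_inr]
      have h' : i = q'.1.1 ∨ i = q'.1.2 := h
      rcases h' with h' | h'
      · rw [h']; exact (hmem q').2.1.2.2
      · rw [h']; exact (hmem q').2.2.2.2
    · simp only [Sum.elim_inl, Sum.elim_inr]
      have h' : j = q.1.1 ∨ j = q.1.2 := h
      rcases h' with h' | h'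
      · rw [h']; exact (PE_symm (hmem q).2.1).2.2
      · rw [h']; exact (PE_symm (hmem q).2.2).2.2
    · exact absurd h (by simp [subdivK, SubdivAdj])

end PoolH34Sub
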