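import Pool.Agent.H34.Sub.Hex2

set_option linter.unusedSectionVars false

namespace PoolH34Sub

open Finset

/-- The pairs `((x, x'), (y, y'))` of ordered edges (`x ≠ x'`, `y ≠ y'`) of the same colour. -/
def monoPairs {V α : Type*} [Fintype V] [DecidableEq V] [DecidableEq α] (c : Sym2 V → α) :
    Finset ((V × V) × (V × V)) :=
  ((univ : Finset V).offDiag ×ˢ (univ : Finset V).offDiag).filter
    (fun q => c s(q.1.1, q.1.2) = c s(q.2.1, q.2.2))

/-- The pairs `((x, x'), (y, y'))` of ordered edges of the same colour with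
`p x + p x' = p y + p y'`. -/
def addPairs {V α G : Type*} [Fintype V] [DecidableEq V] [DecidableEq α] [AddCommGroup G]
    [DecidableEq G] (c : Sym2 V → α) (p : V → G) : Finset ((V × V) × (V × V)) :=
  (monoPairs c).filter (fun q => p q.1.1 + p q.1.2 = p q.2.1 + p q.2.2)

section Group

variable {V α : Type*} [Fintype V] [DecidableEq V] [DecidableEq α]
variable {G : Type*} [AddCommGroup G] [DecidableEq G]

theorem addPairs_le {c : Sym2 V → α} (hc : IsProperColouring c) (p : V → G) :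
    (addPairs c p).card ≤ (univ : Finset V).offDiag.card +
      ∑ δ ∈ (univ : Finset V).offDiag.image (fun e => p e.2 - p e.1),
        eN c (LD p δ) (RD p δ) := by
  classical
  set D := (univ : Finset V).offDiag with hD
  have hmem : ∀ e : V × V, e ∈ D ↔ e.1 ≠ e.2 := by
    intro e; rw [hD, Finset.mem_offDiag]; simp
  set X := (D ×ˢ D).filter (fun q => PE c q.1 q.2 ∧
    p q.1.1 + p q.2.1 = p q.1.2 + p q.2.2) with hX
  have hsub : addPairs c p ⊆ D.image (fun e => (e, e)) ∪
      X.image (fun q => ((q.1.1, q.2.1), (q.1.2, q.2.2))) := by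
    intro q hq
    unfold addPairs monoPairs at hq
    rw [Finset.mem_filter, Finset.mem_filter, Finset.mem_product, ← hD, hmem, hmem] at hq
    obtain ⟨⟨⟨h1, h2⟩, h3⟩, h4⟩ := hq
    rw [Finset.mem_union]
    by_cases ha : q.1.1 = q.2.1
    · left
      rw [Finset.mem_image]
      refine ⟨q.1, (hmem _).mpr h1, ?_⟩
      have : q.1.2 = q.2.2 := by
        apply hc q.1.1 _ _ h1 (by rw [ha]; exact h2)
        rw [h3, ha]
      exact Prod.ext rfl (Prod.ext ha this)
    · by_cases hb : q.1.2 = q.2.2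
      · left
        rw [Finset.mem_image]
        refine ⟨q.1, (hmem _).mpr h1, ?_⟩
        have : q.1.1 = q.2.1 := by
          apply hc q.1.2 _ _ h1.symm (by rw [hb]; exact h2.symm)
          rw [Sym2.eq_swap, h3, hb, Sym2.eq_swap]
        exact Prod.ext rfl (Prod.ext this hb)
      · right
        rw [Finset.mem_image]
        refine ⟨((q.1.1, q.2.1), (q.1.2, q.2.2)), ?_, ?_⟩
        · rw [hX, Finset.mem_filter, Finset.mem_product, hmem, hmem]
          exact ⟨⟨ha, hb⟩, ⟨h1, h2, h3⟩, h4⟩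
        · rfl
  have hXc : X.card ≤ ∑ δ ∈ D.image (fun e => p e.2 - p e.1), eN c (LD p δ) (RD p δ) := by
    rw [Finset.card_eq_sum_card_fiberwise (f := fun q => p q.1.2 - p q.1.1)
      (t := D.image (fun e => p e.2 - p e.1))]
    · apply Finset.sum_le_sum
      intro δ _
      unfold eN
      apply Finset.card_le_card
      intro q hq
      rw [Finset.mem_filter, hX, Finset.mem_filter, Finset.mem_product] at hq
      obtain ⟨⟨⟨h1, h2⟩, h3, h5⟩, h4⟩ := hq
      rw [Finset.mem_filter, Finset.mem_product]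
      refine ⟨⟨?_, ?_⟩, h3⟩
      · unfold LD; rw [Finset.mem_filter]; exact ⟨h1, h4⟩
      · unfold RD; rw [Finset.mem_filter]
        refine ⟨h2, ?_⟩
        rw [← h4]
        have : p q.2.1 = p q.1.2 + p q.2.2 - p q.1.1 := by rw [← h5]; abel
        rw [this]; abel
    · intro q hq
      have hq := Finset.mem_filter.mp (Finset.mem_coe.mp hq)
      have h1 := (Finset.mem_product.mp hq.1).1
      exact Finset.mem_coe.mpr (Finset.mem_image_of_mem _ h1)
  calc _ ≤ _ := Finset.card_le_card hsub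
    _ ≤ _ := Finset.card_union_le _ _
    _ ≤ _ := Nat.add_le_add Finset.card_image_le (le_trans Finset.card_image_le hXc)

/-- The main theorem in integer form. -/
theorem mainq {t : ℕ} (ht : 1 ≤ t) {c : Sym2 V → α} (hc : IsProperColouring c) (p : V → G) (m : ℕ)
    (hm : ∀ g, ((univ : Finset V).filter (fun x => p x = g)).card ≤ m)
    (q : ℕ) (hp : (monoPairs c).card ≤ q * (addPairs c p).card)
    (hno : ¬ HasTwoIsomorphicCopies c (subdivK t)) (hV : 2 ≤ Fintype.card V) :
    Fintype.card V ^ 3 ≤ (132 * t * (2 * t + 1) ^ 2 * q) ^ 2 * m * (coloursUsed c).card ^ 2 := by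
  classical
  set n := Fintype.card V with hn
  set C := (coloursUsed c).card with hC
  set D := (univ : Finset V).offDiag with hD
  have hDc : D.card = n * n - n := by rw [hD, Finset.offDiag_card, Finset.card_univ]
  have hm1 : 1 ≤ m := by
    have : Nonempty V := by
      rw [← Fintype.card_pos_iff]; omega
    obtain ⟨v⟩ := this
    refine le_trans ?_ (hm (p v))
    rw [Nat.one_le_iff_ne_zero, ← Nat.pos_iff_ne_zero, Finset.card_pos]
    exact ⟨v, by simp⟩
  set M := 4 * t ^ 2 + 4 * t + 1 with hM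
  set κ : ℝ := 32 * t * M * Real.sqrt (n * m) with hκ
  have hnm1 : (1 : ℝ) ≤ n * m := by
    have : 1 ≤ n * m := Nat.one_le_iff_ne_zero.mpr (by positivity)
    exact_mod_cast this
  have hs1 : 1 ≤ Real.sqrt (n * m) := by
    rw [← Real.sqrt_one]; exact Real.sqrt_le_sqrt hnm1
  have hssq : Real.sqrt (n * m) ^ 2 = n * m := Real.sq_sqrt (by positivity)
  have htR : (1 : ℝ) ≤ t := by exact_mod_cast ht
  have hMR : (1 : ℝ) ≤ M := by
    have : 1 ≤ M := by omega
    exact_mod_cast this
  have hedge : ∀ δ, (eN c (LD p δ) (RD p δ) : ℝ) ≤ κ * (LD p δ).card := by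
    intro δ
    have h := edge_bound hc (LD p δ) (RD p δ)
      (fun q hq => by
        have := (Finset.mem_filter.mp hq).1
        rw [Finset.mem_offDiag] at this; exact this.2.2)
      (fun q hq => by
        have := (Finset.mem_filter.mp hq).1
        rw [Finset.mem_offDiag] at this; exact this.2.2) hno
    rw [RD_card, ← hM] at h
    have hl := LD_card_le p m hm δ
    set l := (LD p δ).card with hl'
    set e := eN c (LD p δ) (RD p δ) with he
    have hR : (e : ℝ) ^ 2 ≤ l * (4 * t * (4 * e + M * l ^ 2)) := by exact_mod_cast h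
    have hlR : (l : ℝ) ≤ n * m := by exact_mod_cast hl
    by_contra hcon
    push Not at hcon
    have hl0 : (0 : ℝ) ≤ l := by positivity
    have he0 : (0 : ℝ) < e := lt_of_le_of_lt (by positivity) hcon
    have hκ32 : 32 * (t : ℝ) ≤ κ := by
      rw [hκ]
      have h1 : (1 : ℝ) ≤ M * Real.sqrt (n * m) := by nlinarith
      nlinarith
    -- 16 t l e ≤ e^2 / 2
    have g1 : 16 * t * l * e ≤ (e : ℝ) ^ 2 / 2 := by
      have : 32 * t * (l : ℝ) ≤ e := by
        calc 32 * t * (l : ℝ) ≤ κ * l := mul_le_mul_of_nonneg_right hκ32 hl0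
          _ ≤ e := hcon.le
      nlinarith
    -- 4 t M l^3 < e^2/2
    have g2 : 4 * t * M * (l : ℝ) ^ 3 < (e : ℝ) ^ 2 / 2 := by
      have hb : (κ * l) ^ 2 < (e : ℝ) ^ 2 := by
        apply pow_lt_pow_left₀ hcon (by positivity) (by norm_num)
      have hk2 : κ ^ 2 = (32 * t * M) ^ 2 * (n * m) := by
        rw [hκ, mul_pow, hssq]
      have hc1 : 8 * t * M * (l : ℝ) ^ 3 ≤ (κ * l) ^ 2 := by
        rw [mul_pow, hk2]
        have h1 : 8 * (t : ℝ) * M ≤ (32 * t * M) ^ 2 := by
          have : (1 : ℝ) ≤ t * M := by nlinarith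
          nlinarith
        have h2 : (l : ℝ) * (l : ℝ) ^ 2 ≤ ((n : ℝ) * m) * (l : ℝ) ^ 2 :=
          mul_le_mul_of_nonneg_right hlR (by positivity)
        have h3 : (8 * (t : ℝ) * M) * ((l : ℝ) * (l : ℝ) ^ 2)
            ≤ (32 * (t : ℝ) * M) ^ 2 * (((n : ℝ) * m) * (l : ℝ) ^ 2) :=
          mul_le_mul h1 h2 (by positivity) (by positivity)
        calc 8 * (t : ℝ) * M * (l : ℝ) ^ 3 = (8 * (t : ℝ) * M) * ((l : ℝ) * (l : ℝ) ^ 2) := by ring
          _ ≤ _ := h3
          _ = (32 * (t : ℝ) * M) ^ 2 * ((n : ℝ) * m) * (l : ℝ) ^ 2 := by ring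
      linarith
    nlinarith
  have hTp : ((addPairs c p).card : ℝ) ≤ D.card + κ * D.card := by
    have h1 := addPairs_le hc p
    rw [← hD] at h1
    have h2 : ((addPairs c p).card : ℝ) ≤ D.card + ∑ δ ∈ D.image (fun e => p e.2 - p e.1),
        (eN c (LD p δ) (RD p δ) : ℝ) := by exact_mod_cast h1
    refine le_trans h2 ?_
    have h3 : ∑ δ ∈ D.image (fun e => p e.2 - p e.1), (eN c (LD p δ) (RD p δ) : ℝ)
        ≤ κ * D.card := by
      calc ∑ δ ∈ D.image (fun e => p e.2 - p e.1), (eN c (LD p δ) (RD p δ) : ℝ)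
          ≤ ∑ δ ∈ D.image (fun e => p e.2 - p e.1), κ * (LD p δ).card :=
            Finset.sum_le_sum (fun δ _ => hedge δ)
        _ = κ * D.card := by
            rw [← Finset.mul_sum]
            congr 1
            have := sum_LD p
            rw [← hD] at this
            exact_mod_cast this
    linarith
  have hmono := mono_count c
  rw [← hD] at hmono
  set T := ((D ×ˢ D).filter (fun q => c s(q.1.1, q.1.2) = c s(q.2.1, q.2.2))).card with hT
  have hTq : (T : ℝ) ≤ q * (addPairs c p).card := by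
    have : T ≤ q * (addPairs c p).card := hp
    exact_mod_cast this
  have hq0 : (0 : ℝ) ≤ q := by positivity
  have hT2 : (T : ℝ) ≤ q * (D.card + κ * D.card) :=
    le_trans hTq (mul_le_mul_of_nonneg_left hTp hq0)
  have hmonoR : (D.card : ℝ) ^ 2 ≤ C * T := by exact_mod_cast hmono
  have hDR : (D.card : ℝ) = n * (n - 1) := by
    rw [hDc, Nat.cast_sub (by nlinarith)]
    push_cast
    ring
  have hn2 : (2 : ℝ) ≤ n := by exact_mod_cast hV
  have hDpos : (0 : ℝ) < D.card := by rw [hDR]; nlinarith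
  have hC0 : (0 : ℝ) ≤ C := by positivity
  have h3 : (D.card : ℝ) ≤ (C * q) * (1 + κ) := by
    have : (D.card : ℝ) ^ 2 ≤ C * (q * (D.card + κ * D.card)) :=
      le_trans hmonoR (mul_le_mul_of_nonneg_left hT2 hC0)
    have h4 : (D.card : ℝ) * D.card ≤ ((C * q) * (1 + κ)) * D.card := by
      have e1 : ((C : ℝ) * q) * (1 + κ) * D.card = C * (q * (D.card + κ * D.card)) := by ring
      rw [e1, ← sq]; exact this
    exact le_of_mul_le_mul_right h4 hDpos
  have hCq0 : (0 : ℝ) ≤ C * q := mul_nonneg hC0 hq0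
  have h5 : 1 + κ ≤ 33 * t * M * Real.sqrt (n * m) := by
    have h1 : (1 : ℝ) ≤ t * M := by nlinarith
    have h2 : (1 : ℝ) ≤ t * M * Real.sqrt (n * m) := by nlinarith
    rw [hκ]; nlinarith
  have h6 : (n : ℝ) ^ 2 ≤ 66 * t * M * (C * q) * Real.sqrt (n * m) := by
    have h7 : (n : ℝ) ^ 2 / 2 ≤ D.card := by rw [hDR]; nlinarith
    have h8 : (C * q) * (1 + κ) ≤ (C * q) * (33 * t * M * Real.sqrt (n * m)) :=
      mul_le_mul_of_nonneg_left h5 hCq0
    nlinarith
  have h9 : (n : ℝ) ^ 4 ≤ (66 * t * M * (C * q)) ^ 2 * (n * m) := by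
    have h10 : ((n : ℝ) ^ 2) ^ 2 ≤ (66 * t * M * (C * q) * Real.sqrt (n * m)) ^ 2 :=
      pow_le_pow_left₀ (by positivity) h6 2
    rw [mul_pow, hssq] at h10
    calc (n : ℝ) ^ 4 = ((n : ℝ) ^ 2) ^ 2 := by ring
      _ ≤ _ := h10
  have h11 : (n : ℝ) ^ 3 ≤ (66 * t * M * (C * q)) ^ 2 * m := by
    have hnpos : (0 : ℝ) < n := by linarith
    have : (n : ℝ) ^ 3 * n ≤ ((66 * t * M * (C * q)) ^ 2 * m) * n := by
      have e1 : (n : ℝ) ^ 3 * n = (n : ℝ) ^ 4 := by ring
      have e2 : ((66 * t * M * (C * q)) ^ 2 * m) * (n : ℝ)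
          = (66 * t * M * (C * q)) ^ 2 * (n * m) := by ring
      rw [e1, e2]; exact h9
    exact le_of_mul_le_mul_right this hnpos
  have h12 : (n : ℝ) ^ 3 ≤ (132 * t * (2 * t + 1) ^ 2 * q) ^ 2 * m * C ^ 2 := by
    refine le_trans h11 ?_
    have hMe : (M : ℝ) = (2 * t + 1) ^ 2 := by rw [hM]; push_cast; ring
    rw [hMe]
    have e1 : (132 * (t : ℝ) * (2 * t + 1) ^ 2 * q) ^ 2 * m * (C : ℝ) ^ 2
        = 4 * ((66 * (t : ℝ) * (2 * t + 1) ^ 2 * (C * q)) ^ 2 * m) := by ring
    rw [e1]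
    have : (0 : ℝ) ≤ (66 * (t : ℝ) * (2 * t + 1) ^ 2 * (C * q)) ^ 2 * m := by positivity
    linarith
  exact_mod_cast h12

/-- The main theorem for the hexagon. -/
theorem main3q {c : Sym2 V → α} (hc : IsProperColouring c) (p : V → G) (m : ℕ)
    (hm : ∀ g, ((univ : Finset V).filter (fun x => p x = g)).card ≤ m)
    (q : ℕ) (hp : (monoPairs c).card ≤ q * (addPairs c p).card)
    (hno : ¬ HasTwoIsomorphicCopies c (subdivK 3)) (hV : 2 ≤ Fintype.card V) :
    Fintype.card V ^ 5 ≤ (4104 * q) ^ 3 * m * (coloursUsed c).card ^ 3 := by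
  classical
  set n := Fintype.card V with hn
  set C := (coloursUsed c).card with hC
  set D := (univ : Finset V).offDiag with hD
  have hDc : D.card = n * n - n := by rw [hD, Finset.offDiag_card, Finset.card_univ]
  have hm1 : 1 ≤ m := by
    have : Nonempty V := by
      rw [← Fintype.card_pos_iff]; omega
    obtain ⟨v⟩ := this
    refine le_trans ?_ (hm (p v))
    rw [Nat.one_le_iff_ne_zero, ← Nat.pos_iff_ne_zero, Finset.card_pos]
    exact ⟨v, by simp⟩
  have hnm1' : 1 ≤ n * m := Nat.one_le_iff_ne_zero.mpr (by positivity)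
  have hnm1 : (1 : ℝ) ≤ n * m := by exact_mod_cast hnm1'
  -- cube roots
  have hroot : ∀ l : ℕ, 1 ≤ l → ∃ q : ℝ, 0 < q ∧ q ^ 3 = 8 * l := by
    intro l hl
    have hl' : (0 : ℝ) < 8 * l := by
      have : (1 : ℝ) ≤ l := by exact_mod_cast hl
      linarith
    refine ⟨(8 * (l : ℝ)) ^ ((1 : ℝ) / 3), Real.rpow_pos_of_pos hl' _, ?_⟩
    rw [← Real.rpow_natCast, ← Real.rpow_mul hl'.le]
    norm_num
  obtain ⟨P, hP0, hP3⟩ := hroot (n * m) hnm1'
  have hP2 : 2 ≤ P := by
    by_contra hcc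
    push Not at hcc
    have : P ^ 3 < 2 ^ 3 := pow_lt_pow_left₀ hcc hP0.le (by norm_num)
    rw [hP3] at this
    push_cast at this
    linarith
  have hedge : ∀ δ, (eN c (LD p δ) (RD p δ) : ℝ) ≤ 1025 * P * (LD p δ).card := by
    intro δ
    rcases Nat.eq_zero_or_pos (LD p δ).card with h0 | h0
    · have h1 : LD p δ = ∅ := Finset.card_eq_zero.mp h0
      have : eN c (LD p δ) (RD p δ) = 0 := by
        unfold eN
        rw [h1]
        simp
      rw [this, h0]; simp
    · obtain ⟨r, hr0, hr3⟩ := hroot (LD p δ).card h0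
      have h := edge_bound3 hc (LD p δ) (RD p δ)
        (fun q hq => by
          have := (Finset.mem_filter.mp hq).1
          rw [Finset.mem_offDiag] at this; exact this.2.2)
        (fun q hq => by
          have := (Finset.mem_filter.mp hq).1
          rw [Finset.mem_offDiag] at this; exact this.2.2) hno (LD p δ).card h0 le_rfl
        (le_of_eq (RD_card p δ)) r hr0 hr3
      have hqP : r ≤ P := by
        by_contra hcc
        push Not at hcc
        have h1 : P ^ 3 < r ^ 3 := pow_lt_pow_left₀ hcc hP0.le (by norm_num)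
        rw [hP3, hr3] at h1
        have h2 : ((LD p δ).card : ℝ) ≤ ((n * m : ℕ) : ℝ) := by
          exact_mod_cast LD_card_le p m hm δ
        linarith
      have hc0 : (0 : ℝ) ≤ (LD p δ).card := by positivity
      nlinarith
  have hTp : ((addPairs c p).card : ℝ) ≤ D.card + 1025 * P * D.card := by
    have h1 := addPairs_le hc p
    rw [← hD] at h1
    have h2 : ((addPairs c p).card : ℝ) ≤ D.card + ∑ δ ∈ D.image (fun e => p e.2 - p e.1),
        (eN c (LD p δ) (RD p δ) : ℝ) := by exact_mod_cast h1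
    refine le_trans h2 ?_
    have h3 : ∑ δ ∈ D.image (fun e => p e.2 - p e.1), (eN c (LD p δ) (RD p δ) : ℝ)
        ≤ 1025 * P * D.card := by
      calc ∑ δ ∈ D.image (fun e => p e.2 - p e.1), (eN c (LD p δ) (RD p δ) : ℝ)
          ≤ ∑ δ ∈ D.image (fun e => p e.2 - p e.1), 1025 * P * (LD p δ).card :=
            Finset.sum_le_sum (fun δ _ => hedge δ)
        _ = 1025 * P * D.card := by
            rw [← Finset.mul_sum]
            congr 1
            have := sum_LD p
            rw [← hD] at this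
            exact_mod_cast this
    linarith
  have hmono := mono_count c
  rw [← hD] at hmono
  set T := ((D ×ˢ D).filter (fun q => c s(q.1.1, q.1.2) = c s(q.2.1, q.2.2))).card with hT
  have hTq : (T : ℝ) ≤ q * (addPairs c p).card := by
    have : T ≤ q * (addPairs c p).card := hp
    exact_mod_cast this
  have hq0 : (0 : ℝ) ≤ q := by positivity
  have hT2 : (T : ℝ) ≤ q * (D.card + 1025 * P * D.card) :=
    le_trans hTq (mul_le_mul_of_nonneg_left hTp hq0)
  have hmonoR : (D.card : ℝ) ^ 2 ≤ C * T := by exact_mod_cast hmono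
  have hDR : (D.card : ℝ) = n * (n - 1) := by
    rw [hDc, Nat.cast_sub (by nlinarith)]
    push_cast
    ring
  have hn2 : (2 : ℝ) ≤ n := by exact_mod_cast hV
  have hDpos : (0 : ℝ) < D.card := by rw [hDR]; nlinarith
  have hC0 : (0 : ℝ) ≤ C := by positivity
  have h3 : (D.card : ℝ) ≤ (C * q) * (1 + 1025 * P) := by
    have : (D.card : ℝ) ^ 2 ≤ C * (q * (D.card + 1025 * P * D.card)) :=
      le_trans hmonoR (mul_le_mul_of_nonneg_left hT2 hC0)
    have h4 : (D.card : ℝ) * D.card ≤ ((C * q) * (1 + 1025 * P)) * D.card := by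
      have e1 : ((C : ℝ) * q) * (1 + 1025 * P) * D.card
          = C * (q * (D.card + 1025 * P * D.card)) := by ring
      rw [e1, ← sq]; exact this
    exact le_of_mul_le_mul_right h4 hDpos
  have hCq0 : (0 : ℝ) ≤ C * q := mul_nonneg hC0 hq0
  have h6 : (n : ℝ) ^ 2 ≤ 2052 * (C * q) * P := by
    have h7 : (n : ℝ) ^ 2 / 2 ≤ D.card := by rw [hDR]; nlinarith
    have h8 : (C * q) * (1 + 1025 * P) ≤ (C * q) * (1026 * P) :=
      mul_le_mul_of_nonneg_left (by linarith) hCq0
    nlinarith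
  have h9 : (n : ℝ) ^ 6 ≤ (2052 * (C * q)) ^ 3 * (8 * (n * m)) := by
    have h10 : ((n : ℝ) ^ 2) ^ 3 ≤ (2052 * (C * q) * P) ^ 3 :=
      pow_le_pow_left₀ (by positivity) h6 3
    rw [mul_pow, hP3] at h10
    push_cast at h10
    calc (n : ℝ) ^ 6 = ((n : ℝ) ^ 2) ^ 3 := by ring
      _ ≤ _ := h10
  have h11 : (n : ℝ) ^ 5 ≤ (4104 * q) ^ 3 * m * C ^ 3 := by
    have hnpos : (0 : ℝ) < n := by linarith
    have h12 : (2052 * ((C : ℝ) * q)) ^ 3 * (8 * ((n : ℝ) * m))
        = ((4104 * (q : ℝ)) ^ 3 * (m : ℝ) * (C : ℝ) ^ 3) * n := by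
      ring
    have h13 : (n : ℝ) ^ 5 * n = (n : ℝ) ^ 6 := by ring
    have : (n : ℝ) ^ 5 * n ≤ ((4104 * (q : ℝ)) ^ 3 * (m : ℝ) * (C : ℝ) ^ 3) * n := by
      rw [h13, ← h12]; exact h9
    exact le_of_mul_le_mul_right this hnpos
  exact_mod_cast h11

end Group

end PoolH34Sub
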