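import Pool.Agent.H34.Sub.Janzer
import Pool.Agent.H34.Sub.Robust

set_option linter.unusedSectionVars false

namespace PoolH34Sub

open Finset

section

variable {V α : Type*} [DecidableEq V] [DecidableEq α]

/-- Two pairs agree in a coordinate. -/
def SameCoord (w w' : V × V) : Prop := w.1 = w'.1 ∨ w.2 = w'.2

instance : DecidableRel (SameCoord (V := V)) := fun _ _ => by unfold SameCoord; infer_instance

/-- A system in the pair graph with coordinates in four parts gives two copies of `H_t`. -/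
theorem copies_of_sub {t : ℕ} {c : Sym2 V → α} (hc : IsProperColouring c) (κ : V → Fin 4)
    (U : Fin t → V × V) (W : {q : Fin t × Fin t // q.1 < q.2} → V × V)
    (kU : ∀ i, κ (U i).1 = 0 ∧ κ (U i).2 = 1) (kW : ∀ q, κ (W q).1 = 2 ∧ κ (W q).2 = 3)
    (hU : Function.Injective U) (hinc : ∀ q, PE c (U q.1.1) (W q) ∧ PE c (U q.1.2) (W q))
    (hW : ∀ q q', q ≠ q' → ¬ SameCoord (W q) (W q')) :
    HasTwoIsomorphicCopies c (subdivK t) := by
  classical
  have hUd : ∀ i j, i ≠ j → (U i).1 ≠ (U j).1 ∧ (U i).2 ≠ (U j).2 := by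
    intro i j hij
    rcases lt_or_gt_of_ne hij with h | h
    · have := hinc ⟨(i, j), h⟩
      exact PE_dist hc this.1 this.2 (fun e => hij (hU e))
    · have := hinc ⟨(j, i), h⟩
      exact PE_dist hc this.2 this.1 (fun e => hij (hU e))
  refine ⟨Sum.elim (fun i => (U i).1) (fun q => (W q).1),
    Sum.elim (fun i => (U i).2) (fun q => (W q).2), ?_, ?_, ?_, ?_⟩
  · rintro (i | q) (j | q') h
    · simp only [Sum.elim_inl] at h
      by_contra hne
      exact (hUd i j (fun e => hne (by rw [e]))).1 h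
    · simp only [Sum.elim_inl, Sum.elim_inr] at h
      have := congrArg κ h
      rw [(kU i).1, (kW q').1] at this
      exact absurd this (by decide)
    · simp only [Sum.elim_inl, Sum.elim_inr] at h
      have := congrArg κ h
      rw [(kU j).1, (kW q).1] at this
      exact absurd this (by decide)
    · simp only [Sum.elim_inr] at h
      by_contra hne
      exact hW q q' (fun e => hne (by rw [e])) (Or.inl h)
  · rintro (i | q) (j | q') h
    · simp only [Sum.elim_inl] at h
      by_contra hne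
      exact (hUd i j (fun e => hne (by rw [e]))).2 h
    · simp only [Sum.elim_inl, Sum.elim_inr] at h
      have := congrArg κ h
      rw [(kU i).2, (kW q').2] at this
      exact absurd this (by decide)
    · simp only [Sum.elim_inl, Sum.elim_inr] at h
      have := congrArg κ h
      rw [(kU j).2, (kW q).2] at this
      exact absurd this (by decide)
    · simp only [Sum.elim_inr] at h
      by_contra hne
      exact hW q q' (fun e => hne (by rw [e])) (Or.inr h)
  · rintro (i | q) (j | q') h <;> simp only [Sum.elim_inl, Sum.elim_inr] at h <;>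
      have := congrArg κ h
    · rw [(kU i).1, (kU j).2] at this; exact absurd this (by decide)
    · rw [(kU i).1, (kW q').2] at this; exact absurd this (by decide)
    · rw [(kW q).1, (kU j).2] at this; exact absurd this (by decide)
    · rw [(kW q).1, (kW q').2] at this; exact absurd this (by decide)
  · rintro (i | q) (j | q') h
    · exact absurd h (by simp [subdivK, SubdivAdj])
    · simp only [Sum.elim_inl, Sum.elim_inr]
      have h' : i = q'.1.1 ∨ i = q'.1.2 := h
      rcases h' with h' | h'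
      · rw [h']; exact (hinc q').1.2.2
      · rw [h']; exact (hinc q').2.2.2
    · simp only [Sum.elim_inl, Sum.elim_inr]
      have h' : j = q.1.1 ∨ j = q.1.2 := h
      rcases h' with h' | h'
      · rw [h']; exact (PE_symm (hinc q).1).2.2
      · rw [h']; exact (PE_symm (hinc q).2).2.2
    · exact absurd h (by simp [subdivK, SubdivAdj])

end

section

variable {V α : Type*} [Fintype V] [DecidableEq V] [DecidableEq α]

/-- Reduction of the pair graph to coordinates in four parts. -/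
theorem four_reduction {c : Sym2 V → α} (hc : IsProperColouring c)
    (L R : Finset (V × V)) (hL : ∀ q ∈ L, q.1 ≠ q.2) (hR : ∀ r ∈ R, r.1 ≠ r.2) :
    ∃ κ : V → Fin 4, eN c L R ≤ 2 * L.card + 256 *
      ((L.filter (fun u => κ u.1 = 0 ∧ κ u.2 = 1) ×ˢ
        R.filter (fun w => κ w.1 = 2 ∧ κ w.2 = 3)).filter (fun q => PE c q.1 q.2)).card := by
  classical
  set Q := (L ×ˢ R).filter (fun q => PE c q.1 q.2) with hQ
  set Q0 := Q.filter (fun q => q.1.1 ≠ q.2.2 ∧ q.1.2 ≠ q.2.1) with hQ0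
  have hdeg : Q.card ≤ Q0.card + 2 * L.card := by
    have hsub : Q ⊆ (Q0 ∪ Q.filter (fun q => q.1.1 = q.2.2)) ∪
        Q.filter (fun q => q.1.2 = q.2.1) := by
      intro q hq
      simp only [Finset.mem_union, hQ0, Finset.mem_filter]
      by_cases h1 : q.1.1 = q.2.2
      · exact Or.inl (Or.inr ⟨hq, h1⟩)
      · by_cases h2 : q.1.2 = q.2.1
        · exact Or.inr ⟨hq, h2⟩
        · exact Or.inl (Or.inl ⟨hq, h1, h2⟩)
    have b1 : (Q.filter (fun q => q.1.1 = q.2.2)).card ≤ L.card := by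
      apply Finset.card_le_card_of_injOn (fun q => q.1)
      · intro q hq
        have := (Finset.mem_filter.mp (Finset.mem_coe.mp hq)).1
        exact Finset.mem_coe.mpr (Finset.mem_product.mp (Finset.mem_filter.mp this).1).1
      · intro q hq q' hq' h
        obtain ⟨h1, h2⟩ := Finset.mem_filter.mp (Finset.mem_coe.mp hq)
        obtain ⟨h3, h4⟩ := Finset.mem_filter.mp (Finset.mem_coe.mp hq')
        have h5 := (Finset.mem_filter.mp h1).2
        have h6 := (Finset.mem_filter.mp h3).2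
        have h : q.1 = q'.1 := h
        rw [← h] at h6 h4
        have := PE_inj2 hc (PE_symm h5) (PE_symm h6) (h2.symm.trans h4)
        exact Prod.ext h this
    have b2 : (Q.filter (fun q => q.1.2 = q.2.1)).card ≤ L.card := by
      apply Finset.card_le_card_of_injOn (fun q => q.1)
      · intro q hq
        have := (Finset.mem_filter.mp (Finset.mem_coe.mp hq)).1
        exact Finset.mem_coe.mpr (Finset.mem_product.mp (Finset.mem_filter.mp this).1).1
      · intro q hq q' hq' h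
        obtain ⟨h1, h2⟩ := Finset.mem_filter.mp (Finset.mem_coe.mp hq)
        obtain ⟨h3, h4⟩ := Finset.mem_filter.mp (Finset.mem_coe.mp hq')
        have h5 := (Finset.mem_filter.mp h1).2
        have h6 := (Finset.mem_filter.mp h3).2
        have h : q.1 = q'.1 := h
        rw [← h] at h6 h4
        have := PE_inj1 hc (PE_symm h5) (PE_symm h6) (h2.symm.trans h4)
        exact Prod.ext h this
    have a1 := Finset.card_le_card hsub
    have a2 := Finset.card_union_le (Q0 ∪ Q.filter (fun q => q.1.1 = q.2.2))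
      (Q.filter (fun q => q.1.2 = q.2.1))
    have a3 := Finset.card_union_le Q0 (Q.filter (fun q => q.1.1 = q.2.2))
    omega
  obtain ⟨κ, hκ⟩ := four_parts Q0 (by
    intro q hq
    obtain ⟨h1, h2, h3⟩ := Finset.mem_filter.mp hq
    obtain ⟨h4, h5⟩ := Finset.mem_filter.mp h1
    rw [Finset.mem_product] at h4
    exact ⟨hL _ h4.1, h5.1, h2, h3, h5.2.1, hR _ h4.2⟩)
  refine ⟨κ, ?_⟩
  have hsub2 : Q0.filter (fun q => κ q.1.1 = 0 ∧ κ q.1.2 = 1 ∧ κ q.2.1 = 2 ∧ κ q.2.2 = 3) ⊆
      (L.filter (fun u => κ u.1 = 0 ∧ κ u.2 = 1) ×ˢ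
        R.filter (fun w => κ w.1 = 2 ∧ κ w.2 = 3)).filter (fun q => PE c q.1 q.2) := by
    intro q hq
    obtain ⟨h1, k1, k2, k3, k4⟩ := Finset.mem_filter.mp hq
    obtain ⟨h2, _⟩ := Finset.mem_filter.mp h1
    obtain ⟨h4, h5⟩ := Finset.mem_filter.mp h2
    rw [Finset.mem_product] at h4
    rw [Finset.mem_filter, Finset.mem_product]
    exact ⟨⟨Finset.mem_filter.mpr ⟨h4.1, k1, k2⟩, Finset.mem_filter.mpr ⟨h4.2, k3, k4⟩⟩, h5⟩
  have h2 := le_trans hκ (Nat.mul_le_mul_left 256 (Finset.card_le_card hsub2))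
  have h3 : eN c L R = Q.card := rfl
  rw [h3]
  omega

/-- The constant of the edge bound. -/
noncomputable def KE (r : ℕ) : ℝ := 512 ^ (2 * r + 1) * KJ r

theorem KJ_one_le (r : ℕ) : 1 ≤ KJ r := by
  unfold KJ CJ
  have hr0 : (0 : ℝ) ≤ (r : ℝ) := Nat.cast_nonneg r
  have a1 : (1 : ℝ) ≤ ((r : ℝ) + 2) ^ 4 := one_le_pow₀ (by linarith)
  have a2 : (1 : ℝ) ≤ (2 * ((r : ℝ) + 2) ^ 2 + 1) ^ 2 :=
    one_le_pow₀ (by nlinarith [sq_nonneg ((r : ℝ) + 2)])
  have a3 : (1 : ℝ) ≤ 1536 ^ r := one_le_pow₀ (by norm_num)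
  have a5 : (1 : ℝ) ≤ 131072 * ((r : ℝ) + 2) ^ 4 := by linarith
  have a6 := one_le_mul_of_one_le_of_one_le a5 a2
  have a7 := one_le_mul_of_one_le_of_one_le a6 a3
  have a8 : (1 : ℝ) ≤ (16 * ((r : ℝ) + 2) * (2 * ((r : ℝ) + 2) ^ 2 + 1) * 3888) ^ r := by
    apply one_le_pow₀
    have b1 : (1 : ℝ) ≤ 16 * ((r : ℝ) + 2) := by linarith
    have b2 : (1 : ℝ) ≤ 2 * ((r : ℝ) + 2) ^ 2 + 1 := by nlinarith [sq_nonneg ((r : ℝ) + 2)]
    have b3 := one_le_mul_of_one_le_of_one_le b1 b2
    linarith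
  exact one_le_mul_of_one_le_of_one_le a7 a8

theorem edge_boundJ {c : Sym2 V → α} (hc : IsProperColouring c) (q : ℕ)
    (L R : Finset (V × V)) (hL : ∀ q ∈ L, q.1 ≠ q.2) (hR : ∀ r ∈ R, r.1 ≠ r.2)
    (hno : ¬ HasTwoIsomorphicCopies c (subdivK (q + 1 + 2))) (l : ℕ) (hl : 1 ≤ l)
    (hLc : L.card ≤ l) (hRc : R.card ≤ l) :
    ((eN c L R : ℝ) / l) ^ (2 * (q + 1) + 1) ≤ KE (q + 1) * (l : ℝ) ^ (q + 1) := by
  classical
  obtain ⟨κ, hκ⟩ := four_reduction hc L R hL hR
  set L' := L.filter (fun u => κ u.1 = 0 ∧ κ u.2 = 1) with hL'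
  set R' := R.filter (fun w => κ w.1 = 2 ∧ κ w.2 = 3) with hR'
  have hlR : (1 : ℝ) ≤ l := by exact_mod_cast hl
  have hlp : (0 : ℝ) < l := by linarith
  have hnosub : NoSub (q + 1 + 2) L' R' (PE c) SameCoord := by
    intro U W hU hinj hinc hW
    refine hno (copies_of_sub hc κ U W (fun i => (Finset.mem_filter.mp (hU i)).2)
      (fun x => (Finset.mem_filter.mp (hinc x).1).2) hinj (fun x => (hinc x).2) hW)
  have hone : ∀ u ∈ L', ∀ w ∈ Nb R' (PE c) u, ∀ w' ∈ Nb R' (PE c) u, SameCoord w w' → w = w' := by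
    intro u _ w hw w' hw' hsc
    have h1 := (Finset.mem_filter.mp hw).2
    have h2 := (Finset.mem_filter.mp hw').2
    rcases hsc with h | h
    · exact PE_inj1 hc (PE_symm h1) (PE_symm h2) h
    · exact PE_inj2 hc (PE_symm h1) (PE_symm h2) h
  have htwo : ∀ u ∈ L', ∀ w', ((Nb R' (PE c) u).filter (fun w => SameCoord w w')).card ≤ 2 := by
    intro u _ w'
    have hsub : (Nb R' (PE c) u).filter (fun w => SameCoord w w') ⊆
        (Nb R' (PE c) u).filter (fun w => w.1 = w'.1) ∪
        (Nb R' (PE c) u).filter (fun w => w.2 = w'.2) := by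
      intro w hw
      obtain ⟨h1, h2⟩ := Finset.mem_filter.mp hw
      rw [Finset.mem_union, Finset.mem_filter, Finset.mem_filter]
      rcases h2 with h | h
      · exact Or.inl ⟨h1, h⟩
      · exact Or.inr ⟨h1, h⟩
    have c1 : ((Nb R' (PE c) u).filter (fun w => w.1 = w'.1)).card ≤ 1 := by
      rw [Finset.card_le_one]
      intro x hx y hy
      obtain ⟨hx1, hx2⟩ := Finset.mem_filter.mp hx
      obtain ⟨hy1, hy2⟩ := Finset.mem_filter.mp hy
      exact PE_inj1 hc (PE_symm (Finset.mem_filter.mp hx1).2)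
        (PE_symm (Finset.mem_filter.mp hy1).2) (hx2.trans hy2.symm)
    have c2 : ((Nb R' (PE c) u).filter (fun w => w.2 = w'.2)).card ≤ 1 := by
      rw [Finset.card_le_one]
      intro x hx y hy
      obtain ⟨hx1, hx2⟩ := Finset.mem_filter.mp hx
      obtain ⟨hy1, hy2⟩ := Finset.mem_filter.mp hy
      exact PE_inj2 hc (PE_symm (Finset.mem_filter.mp hx1).2)
        (PE_symm (Finset.mem_filter.mp hy1).2) (hx2.trans hy2.symm)
    have := Finset.card_le_card hsub
    have h3 := Finset.card_union_le ((Nb R' (PE c) u).filter (fun w => w.1 = w'.1))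
      ((Nb R' (PE c) u).filter (fun w => w.2 = w'.2))
    omega
  have hJ := pairJ q L' R' (PE c) SameCoord hnosub (fun a => Or.inl rfl)
    (fun a b h => by
      rcases h with h | h
      · exact Or.inl h.symm
      · exact Or.inr h.symm) htwo hone l hl
    (le_trans (Finset.card_filter_le _ _) hLc) (le_trans (Finset.card_filter_le _ _) hRc)
  generalize he0 : ((L' ×ˢ R').filter (fun x => PE c x.1 x.2)).card = e0 at hJ hκ
  generalize he : eN c L R = e at hκ ⊢
  have hKJ1 := KJ_one_le (q + 1)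
  have h1 : (e : ℝ) / l ≤ 2 + 256 * ((e0 : ℝ) / l) := by
    have h2 : (e : ℝ) ≤ 2 * l + 256 * e0 := by
      have : e ≤ 2 * l + 256 * e0 := by omega
      exact_mod_cast this
    rw [div_le_iff₀ hlp]
    have : (2 + 256 * ((e0 : ℝ) / l)) * l = 2 * l + 256 * e0 := by field_simp
    rw [this]; exact h2
  have hlr : (1 : ℝ) ≤ (l : ℝ) ^ (q + 1) := one_le_pow₀ hlR
  have h512 : (1 : ℝ) ≤ KJ (q + 1) * (l : ℝ) ^ (q + 1) :=
    one_le_mul_of_one_le_of_one_le hKJ1 hlr
  unfold KE
  by_cases hsmall : (e : ℝ) / l ≤ 4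
  · calc ((e : ℝ) / l) ^ (2 * (q + 1) + 1) ≤ 512 ^ (2 * (q + 1) + 1) :=
          pow_le_pow_left₀ (by positivity) (by linarith) _
      _ = 512 ^ (2 * (q + 1) + 1) * 1 := by ring
      _ ≤ 512 ^ (2 * (q + 1) + 1) * (KJ (q + 1) * (l : ℝ) ^ (q + 1)) :=
          mul_le_mul_of_nonneg_left h512 (by positivity)
      _ = _ := by ring
  · push Not at hsmall
    have h2 : (e : ℝ) / l ≤ 512 * ((e0 : ℝ) / l) := by linarith
    calc ((e : ℝ) / l) ^ (2 * (q + 1) + 1) ≤ (512 * ((e0 : ℝ) / l)) ^ (2 * (q + 1) + 1) :=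
          pow_le_pow_left₀ (by positivity) h2 _
      _ = 512 ^ (2 * (q + 1) + 1) * ((e0 : ℝ) / l) ^ (2 * (q + 1) + 1) := by rw [mul_pow]
      _ ≤ 512 ^ (2 * (q + 1) + 1) * (KJ (q + 1) * (l : ℝ) ^ (q + 1)) :=
          mul_le_mul_of_nonneg_left hJ (by positivity)
      _ = _ := by ring

variable {G : Type*} [AddCommGroup G] [DecidableEq G]

/-- The main theorem, real form. -/
theorem mainJ {c : Sym2 V → α} (hc : IsProperColouring c) (s : ℕ) (p : V → G) (m : ℕ)
    (hm : ∀ g, ((univ : Finset V).filter (fun x => p x = g)).card ≤ m)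
    (q : ℕ) (hp : (monoPairs c).card ≤ q * (addPairs c p).card)
    (hno : ¬ HasTwoIsomorphicCopies c (subdivK (s + 1 + 2))) (hV : 2 ≤ Fintype.card V) :
    (Fintype.card V : ℝ) ^ (3 * (s + 1) + 2) ≤ (4 ^ (2 * (s + 1) + 1) * KE (s + 1)) *
      (m : ℝ) ^ (s + 1) * ((q : ℝ) * (coloursUsed c).card) ^ (2 * (s + 1) + 1) := by
  classical
  generalize hr : s + 1 = r at *
  set n := Fintype.card V with hn
  set C := (coloursUsed c).card with hC
  set D := (univ : Finset V).offDiag with hD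
  have hDc : D.card = n * n - n := by rw [hD, Finset.offDiag_card, Finset.card_univ]
  have hm1 : 1 ≤ m := by
    have : Nonempty V := by
      rw [← Fintype.card_pos_iff]; omega
    obtain ⟨v⟩ := this
    refine le_trans ?_ (hm (p v))
    rw [Nat.one_le_iff_ne_zero, ← Nat.pos_iff_ne_zero, Finset.card_pos]
    exact ⟨v, by simp⟩
  have hnm1' : 1 ≤ n * m := Nat.one_le_iff_ne_zero.mpr (by positivity)
  have hnm1 : (1 : ℝ) ≤ n * m := by exact_mod_cast hnm1'
  have hKE1 : 1 ≤ KE r := by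
    unfold KE
    exact one_le_mul_of_one_le_of_one_le (one_le_pow₀ (by norm_num)) (KJ_one_le r)
  have hQ1 : (1 : ℝ) ≤ KE r * ((n : ℝ) * m) ^ r :=
    one_le_mul_of_one_le_of_one_le hKE1 (one_le_pow₀ hnm1)
  obtain ⟨P, hP0, hPr⟩ : ∃ P : ℝ, 0 < P ∧ P ^ (2 * r + 1) = KE r * ((n : ℝ) * m) ^ r := by
    have hpos : (0 : ℝ) < KE r * ((n : ℝ) * m) ^ r := by linarith
    refine ⟨(KE r * ((n : ℝ) * m) ^ r) ^ ((1 : ℝ) / (2 * r + 1 : ℕ)),
      Real.rpow_pos_of_pos hpos _, ?_⟩
    rw [← Real.rpow_natCast, ← Real.rpow_mul hpos.le, one_div, inv_mul_cancel₀, Real.rpow_one]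
    have : (0 : ℝ) < ((2 * r + 1 : ℕ) : ℝ) := by exact_mod_cast Nat.succ_pos _
    exact this.ne'
  have hP1 : 1 ≤ P := by
    by_contra hcc
    push Not at hcc
    have : P ^ (2 * r + 1) < 1 := pow_lt_one₀ hP0.le hcc (by omega)
    rw [hPr] at this
    linarith
  have hedge : ∀ δ, (eN c (LD p δ) (RD p δ) : ℝ) ≤ P * (LD p δ).card := by
    intro δ
    rcases Nat.eq_zero_or_pos (LD p δ).card with h0 | h0
    · have h1 : LD p δ = ∅ := Finset.card_eq_zero.mp h0
      have : eN c (LD p δ) (RD p δ) = 0 := by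
        unfold eN
        rw [h1]
        simp
      rw [this, h0]; simp
    · have h := edge_boundJ hc s (LD p δ) (RD p δ)
        (fun q hq => by
          have := (Finset.mem_filter.mp hq).1
          rw [Finset.mem_offDiag] at this; exact this.2.2)
        (fun q hq => by
          have := (Finset.mem_filter.mp hq).1
          rw [Finset.mem_offDiag] at this; exact this.2.2) (by rw [hr]; exact hno)
        (LD p δ).card h0 le_rfl (le_of_eq (RD_card p δ))
      rw [hr] at h
      have hl0 : (0 : ℝ) < (LD p δ).card := by exact_mod_cast h0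
      have h2 : ((LD p δ).card : ℝ) ≤ (n : ℝ) * m := by
        exact_mod_cast LD_card_le p m hm δ
      have h3 : ((eN c (LD p δ) (RD p δ) : ℝ) / (LD p δ).card) ^ (2 * r + 1)
          ≤ P ^ (2 * r + 1) := by
        rw [hPr]
        refine le_trans h ?_
        apply mul_le_mul_of_nonneg_left _ (by linarith)
        exact pow_le_pow_left₀ hl0.le h2 r
      have h4 := le_of_pow_le_pow_left₀ (by omega) hP0.le h3
      rw [div_le_iff₀ hl0] at h4
      exact h4
  have hTp : ((addPairs c p).card : ℝ) ≤ D.card + P * D.card := by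
    have h1 := addPairs_le hc p
    rw [← hD] at h1
    have h2 : ((addPairs c p).card : ℝ) ≤ D.card + ∑ δ ∈ D.image (fun e => p e.2 - p e.1),
        (eN c (LD p δ) (RD p δ) : ℝ) := by exact_mod_cast h1
    refine le_trans h2 ?_
    have h3 : ∑ δ ∈ D.image (fun e => p e.2 - p e.1), (eN c (LD p δ) (RD p δ) : ℝ)
        ≤ P * D.card := by
      calc ∑ δ ∈ D.image (fun e => p e.2 - p e.1), (eN c (LD p δ) (RD p δ) : ℝ)
          ≤ ∑ δ ∈ D.image (fun e => p e.2 - p e.1), P * (LD p δ).card :=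
            Finset.sum_le_sum (fun δ _ => hedge δ)
        _ = P * D.card := by
            rw [← Finset.mul_sum]
            congr 1
            have := sum_LD p
            rw [← hD] at this
            exact_mod_cast this
    linarith
  have hmono := mono_count c
  rw [← hD] at hmono
  set T := ((D ×ˢ D).filter (fun q => c s(q.1.1, q.1.2) = c s(q.2.1, q.2.2))).card with hT
  have hTq : (T : ℝ) ≤ q * (addPairs c p).card := by
    have : T ≤ q * (addPairs c p).card := hp
    exact_mod_cast this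
  have hq0 : (0 : ℝ) ≤ q := by positivity
  have hT2 : (T : ℝ) ≤ q * (D.card + P * D.card) :=
    le_trans hTq (mul_le_mul_of_nonneg_left hTp hq0)
  have hmonoR : (D.card : ℝ) ^ 2 ≤ C * T := by exact_mod_cast hmono
  have hDR : (D.card : ℝ) = n * (n - 1) := by
    rw [hDc, Nat.cast_sub (by nlinarith)]
    push_cast
    ring
  have hn2 : (2 : ℝ) ≤ n := by exact_mod_cast hV
  have hDpos : (0 : ℝ) < D.card := by rw [hDR]; nlinarith
  have hC0 : (0 : ℝ) ≤ C := by positivity
  have h3 : (D.card : ℝ) ≤ (q * C) * (1 + P) := by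
    have : (D.card : ℝ) ^ 2 ≤ C * (q * (D.card + P * D.card)) :=
      le_trans hmonoR (mul_le_mul_of_nonneg_left hT2 hC0)
    have h4 : (D.card : ℝ) * D.card ≤ ((q * C) * (1 + P)) * D.card := by
      have e1 : ((q : ℝ) * C) * (1 + P) * D.card
          = C * (q * (D.card + P * D.card)) := by ring
      rw [e1, ← sq]; exact this
    exact le_of_mul_le_mul_right h4 hDpos
  have hCq0 : (0 : ℝ) ≤ q * C := mul_nonneg hq0 hC0
  have h6 : (n : ℝ) ^ 2 ≤ 4 * (q * C) * P := by
    have h7 : (n : ℝ) ^ 2 / 2 ≤ D.card := by rw [hDR]; nlinarith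
    have h8 : (q * C) * (1 + P) ≤ (q * C) * (2 * P) :=
      mul_le_mul_of_nonneg_left (by linarith) hCq0
    linarith
  have h9 : ((n : ℝ) ^ 2) ^ (2 * r + 1) ≤ (4 * (q * C)) ^ (2 * r + 1) *
      (KE r * ((n : ℝ) * m) ^ r) := by
    have h10 := pow_le_pow_left₀ (by positivity) h6 (2 * r + 1)
    rw [mul_pow _ P, hPr] at h10
    exact h10
  have hnpos : (0 : ℝ) < n := by linarith
  have h11 : (n : ℝ) ^ (3 * r + 2) * (n : ℝ) ^ r ≤ ((4 ^ (2 * r + 1) * KE r) *
      (m : ℝ) ^ r * ((q : ℝ) * C) ^ (2 * r + 1)) * (n : ℝ) ^ r := by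
    have e1 : (n : ℝ) ^ (3 * r + 2) * (n : ℝ) ^ r = ((n : ℝ) ^ 2) ^ (2 * r + 1) := by
      rw [← pow_add, ← pow_mul]; congr 1; ring
    have e2 : ((4 ^ (2 * r + 1) * KE r) * (m : ℝ) ^ r * ((q : ℝ) * C) ^ (2 * r + 1)) * (n : ℝ) ^ r
        = (4 * (q * C)) ^ (2 * r + 1) * (KE r * ((n : ℝ) * m) ^ r) := by
      rw [mul_pow 4, mul_pow (n : ℝ)]; ring
    rw [e1, e2]
    exact h9
  exact le_of_mul_le_mul_right h11 (by positivity)

end

end PoolH34Sub
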