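import Mathlib

namespace PoolH34Sub

open Finset

/-- Greedy choice of `t` pairwise good elements when the number of bad pairs is small. -/
theorem pick_good {β : Type*} [DecidableEq β] (A : Finset β) (bad : β → β → Prop)
    [DecidableRel bad] (symm : ∀ a b, bad a b → bad b a) (t : ℕ)
    (h : 4 * t * ((A ×ˢ A).filter (fun q => bad q.1 q.2)).card < A.card ^ 2) :
    ∃ f : Fin t → β, (∀ i, f i ∈ A) ∧ ∀ i j, i ≠ j → ¬ bad (f i) (f j) := by
  classical
  set N := A.card with hN
  set b := ((A ×ˢ A).filter (fun q => bad q.1 q.2)).card with hb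
  have key : ∀ s : ℕ, s ≤ t → ∃ f : Fin s → β, (∀ i, f i ∈ A) ∧
      (∀ i j, i ≠ j → ¬ bad (f i) (f j)) ∧
      2 * t * N ≤ 2 * t * (A.filter (fun a => ∀ i, ¬ bad (f i) a)).card + s * N := by
    intro s
    induction s with
    | zero =>
      intro _
      refine ⟨Fin.elim0, fun i => i.elim0, fun i => i.elim0, ?_⟩
      have : A.filter (fun a => ∀ i : Fin 0, ¬ bad (Fin.elim0 i) a) = A := by
        apply Finset.filter_true_of_mem
        intro a _ i
        exact i.elim0
      rw [this, ← hN]
      simp
    | succ s ih =>
      intro hs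
      obtain ⟨f, hfA, hfg, hcard⟩ := ih (by omega)
      set As := A.filter (fun a => ∀ i, ¬ bad (f i) a) with hAs
      have hN0 : 0 < N := by
        by_contra h0
        have : N = 0 := by omega
        rw [this] at h
        simp at h
      have h1 : N ≤ 2 * As.card := by
        have : t * N ≤ t * (2 * As.card) := by nlinarith
        exact Nat.le_of_mul_le_mul_left this (by omega)
      have hAs0 : 0 < As.card := by omega
      have hne : As.Nonempty := Finset.card_pos.mp hAs0
      have hsum : ∑ a ∈ As, (As.filter (fun x => bad a x)).card ≤ b := by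
        have : ∑ a ∈ As, (As.filter (fun x => bad a x)).card
            = ((As ×ˢ As).filter (fun q => bad q.1 q.2)).card := by
          rw [Finset.card_filter, Finset.sum_product]
          apply Finset.sum_congr rfl
          intro a _
          rw [Finset.card_filter]
        rw [this, hb]
        apply Finset.card_le_card
        intro q hq
        simp only [Finset.mem_filter, Finset.mem_product, hAs] at hq ⊢
        exact ⟨⟨hq.1.1.1, hq.1.2.1⟩, hq.2⟩
      obtain ⟨a, haAs, har⟩ : ∃ a ∈ As, (As.filter (fun x => bad a x)).card * As.card ≤ b := by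
        by_contra hcon
        push Not at hcon
        have : ∑ a ∈ As, b < ∑ a ∈ As, (As.filter (fun x => bad a x)).card * As.card :=
          Finset.sum_lt_sum_of_nonempty hne hcon
        rw [← Finset.sum_mul, Finset.sum_const, smul_eq_mul] at this
        nlinarith
      set r := (As.filter (fun x => bad a x)).card with hr
      have h2 : 2 * t * r < N := by
        have h3 : 4 * t * (r * As.card) < N ^ 2 := lt_of_le_of_lt (Nat.mul_le_mul_left _ har) h
        have h4 : N ^ 2 ≤ 2 * As.card * N := by nlinarith
        have h5 : (2 * As.card) * (2 * t * r) < (2 * As.card) * N := by nlinarith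
        exact lt_of_mul_lt_mul_left h5 (by omega)
      refine ⟨Fin.cons a f, ?_, ?_, ?_⟩
      · intro i
        refine Fin.cases ?_ ?_ i
        · simpa using (Finset.mem_filter.mp haAs).1
        · intro j; simpa using hfA j
      · intro i j
        refine Fin.cases ?_ ?_ i
        · refine Fin.cases ?_ ?_ j
          · intro h; exact absurd rfl h
          · intro j' _ hb'
            simp only [Fin.cons_zero, Fin.cons_succ] at hb'
            exact (Finset.mem_filter.mp haAs).2 j' (symm _ _ hb')
        · intro i'
          refine Fin.cases ?_ ?_ j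
          · intro _ hb'
            simp only [Fin.cons_zero, Fin.cons_succ] at hb'
            exact (Finset.mem_filter.mp haAs).2 i' hb'
          · intro j' hne' hb'
            simp only [Fin.cons_succ] at hb'
            exact hfg i' j' (fun h => hne' (by rw [h])) hb'
      · have hsub : As \ (As.filter (fun x => bad a x)) ⊆
            A.filter (fun x => ∀ i : Fin (s + 1), ¬ bad ((Fin.cons a f : Fin (s+1) → β) i) x) := by
          intro x hx
          have hx := Finset.mem_sdiff.mp hx
          have hxA := Finset.mem_filter.mp hx.1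
          rw [Finset.mem_filter]
          refine ⟨hxA.1, ?_⟩
          intro i
          refine Fin.cases ?_ ?_ i
          · intro hb'
            exact hx.2 (Finset.mem_filter.mpr ⟨hx.1, by simpa using hb'⟩)
          · intro j; simpa using hxA.2 j
        have hc := Finset.card_le_card hsub
        rw [Finset.card_sdiff_of_subset (Finset.filter_subset _ _)] at hc
        have hc' : As.card ≤ (A.filter (fun x => ∀ i : Fin (s + 1),
            ¬ bad ((Fin.cons a f : Fin (s+1) → β) i) x)).card + r := by omega
        nlinarith
  obtain ⟨f, h1, h2, _⟩ := key t le_rfl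
  exact ⟨f, h1, h2⟩

/-- Greedy choice of coordinate-disjoint pairs. -/
theorem pick_sub {I V : Type*} [DecidableEq I] [DecidableEq V] (N : I → Finset (V × V))
    (F0 : Finset V)
    (h1 : ∀ i, ∀ r ∈ N i, ∀ r' ∈ N i, r.1 = r'.1 → r = r')
    (h2 : ∀ i, ∀ r ∈ N i, ∀ r' ∈ N i, r.2 = r'.2 → r = r') [Nonempty V]
    (S : Finset I) (hcard : ∀ i ∈ S, 2 * (F0.card + 2 * S.card) < (N i).card) :
    ∃ g : I → V × V, (∀ i ∈ S, g i ∈ N i ∧ (g i).1 ∉ F0 ∧ (g i).2 ∉ F0) ∧
      ∀ i ∈ S, ∀ j ∈ S, i ≠ j →
        (g i).1 ≠ (g j).1 ∧ (g i).1 ≠ (g j).2 ∧ (g i).2 ≠ (g j).1 ∧ (g i).2 ≠ (g j).2 := by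
  classical
  induction S using Finset.induction_on with
  | empty =>
    refine ⟨fun _ => (Classical.arbitrary V, Classical.arbitrary V), ?_, ?_⟩ <;> simp
  | insert a S haS ih =>
    have hcS : (insert a S).card = S.card + 1 := Finset.card_insert_of_notMem haS
    obtain ⟨g, hg1, hg2⟩ := ih (by
      intro i hi
      have := hcard i (Finset.mem_insert_of_mem hi)
      rw [hcS] at this
      omega)
    set F := F0 ∪ S.image (fun i => (g i).1) ∪ S.image (fun i => (g i).2) with hF
    have hFc : F.card ≤ F0.card + 2 * S.card := by
      have a1 := Finset.card_union_le (F0 ∪ S.image (fun i => (g i).1)) (S.image (fun i => (g i).2))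
      have a2 := Finset.card_union_le F0 (S.image (fun i => (g i).1))
      have a3 : (S.image (fun i => (g i).1)).card ≤ S.card := Finset.card_image_le
      have a4 : (S.image (fun i => (g i).2)).card ≤ S.card := Finset.card_image_le
      rw [← hF] at a1
      omega
    have b1 : ((N a).filter (fun r => r.1 ∈ F)).card ≤ F.card := by
      apply Finset.card_le_card_of_injOn (fun r => r.1)
      · intro r hr
        have := Finset.mem_filter.mp (Finset.mem_coe.mp hr)
        exact this.2
      · intro r hr r' hr' h
        have hr := Finset.mem_filter.mp (Finset.mem_coe.mp hr)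
        have hr' := Finset.mem_filter.mp (Finset.mem_coe.mp hr')
        exact h1 a r hr.1 r' hr'.1 h
    have b2 : ((N a).filter (fun r => r.2 ∈ F)).card ≤ F.card := by
      apply Finset.card_le_card_of_injOn (fun r => r.2)
      · intro r hr
        have := Finset.mem_filter.mp (Finset.mem_coe.mp hr)
        exact this.2
      · intro r hr r' hr' h
        have hr := Finset.mem_filter.mp (Finset.mem_coe.mp hr)
        have hr' := Finset.mem_filter.mp (Finset.mem_coe.mp hr')
        exact h2 a r hr.1 r' hr'.1 h
    obtain ⟨r, hrN, hr1, hr2⟩ : ∃ r ∈ N a, r.1 ∉ F ∧ r.2 ∉ F := by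
      by_contra hcon
      push Not at hcon
      have hsub : N a ⊆ (N a).filter (fun r => r.1 ∈ F) ∪ (N a).filter (fun r => r.2 ∈ F) := by
        intro r hr
        rw [Finset.mem_union, Finset.mem_filter, Finset.mem_filter]
        by_cases h : r.1 ∈ F
        · exact Or.inl ⟨hr, h⟩
        · exact Or.inr ⟨hr, hcon r hr h⟩
      have := Finset.card_le_card hsub
      have h3 := Finset.card_union_le ((N a).filter (fun r => r.1 ∈ F))
        ((N a).filter (fun r => r.2 ∈ F))
      have h4 := hcard a (Finset.mem_insert_self a S)
      rw [hcS] at h4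
      omega
    have hnotF : ∀ v, v ∉ F → v ∉ F0 ∧ ∀ i ∈ S, v ≠ (g i).1 ∧ v ≠ (g i).2 := by
      intro v hv
      refine ⟨fun h => hv ?_, fun i hi => ⟨fun h => hv ?_, fun h => hv ?_⟩⟩
      · exact Finset.mem_union_left _ (Finset.mem_union_left _ h)
      · exact Finset.mem_union_left _ (Finset.mem_union_right _
          (Finset.mem_image.mpr ⟨i, hi, h.symm⟩))
      · exact Finset.mem_union_right _ (Finset.mem_image.mpr ⟨i, hi, h.symm⟩)
    have hr1' := hnotF _ hr1
    have hr2' := hnotF _ hr2
    have hupd : ∀ i ∈ S, Function.update g a r i = g i := by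
      intro i hi
      apply Function.update_of_ne
      rintro rfl
      exact haS hi
    refine ⟨Function.update g a r, ?_, ?_⟩
    · intro i hi
      rcases Finset.mem_insert.mp hi with rfl | hi
      · simp only [Function.update_self]
        exact ⟨hrN, hr1'.1, hr2'.1⟩
      · rw [hupd i hi]
        exact hg1 i hi
    · intro i hi j hj hij
      rcases Finset.mem_insert.mp hi with hia | hiS
      · rcases Finset.mem_insert.mp hj with hja | hjS
        · exact absurd (hia.trans hja.symm) hij
        · rw [hia, Function.update_self, hupd j hjS]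
          exact ⟨(hr1'.2 j hjS).1, (hr1'.2 j hjS).2, (hr2'.2 j hjS).1, (hr2'.2 j hjS).2⟩
      · rcases Finset.mem_insert.mp hj with hja | hjS
        · rw [hja, Function.update_self, hupd i hiS]
          exact ⟨(hr1'.2 i hiS).1.symm, (hr2'.2 i hiS).1.symm, (hr1'.2 i hiS).2.symm,
            (hr2'.2 i hiS).2.symm⟩
        · rw [hupd i hiS, hupd j hjS]
          exact hg2 i hiS j hjS hij

end PoolH34Sub
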