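import Mathlib

set_option linter.unusedSectionVars false

namespace PoolH34Sub

open Finset

section Hex

variable {A B : Type*} [DecidableEq A] [DecidableEq B]

/-- No 6-cycle between `L` and `R`. -/
def NoHex (L : Finset A) (R : Finset B) (E : A → B → Prop) : Prop :=
  ∀ u1 ∈ L, ∀ u2 ∈ L, ∀ u3 ∈ L, ∀ w1 ∈ R, ∀ w2 ∈ R, ∀ w3 ∈ R,
    u1 ≠ u2 → u2 ≠ u3 → u1 ≠ u3 → w1 ≠ w2 → w2 ≠ w3 → w1 ≠ w3 →
    E u1 w1 → E u2 w1 → E u2 w2 → E u3 w2 → E u3 w3 → E u1 w3 → False

theorem NoHex.flip {L : Finset A} {R : Finset B} {E : A → B → Prop} (h : NoHex L R E) :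
    NoHex R L (fun w u => E u w) := by
  intro w1 hw1 w2 hw2 w3 hw3 u1 hu1 u2 hu2 u3 hu3 h12 h23 h13 k12 k23 k13 e1 e2 e3 e4 e5 e6
  exact h u1 hu1 u2 hu2 u3 hu3 w2 hw2 w3 hw3 w1 hw1 k12 k23 k13 h23 h13.symm h12.symm
    e2 e3 e4 e5 e6 e1

variable (L : Finset A) (R : Finset B) (E : A → B → Prop) [DecidableRel E]

/-- neighbours in `R` -/
def NR (u : A) : Finset B := R.filter (fun w => E u w)
/-- neighbours in `L` -/
def NLe (w : B) : Finset A := L.filter (fun u => E u w)

/-- each neighbour `w1` of `u` has at most one partner `w` in the neighbourhood of `u` with at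
least three common neighbours -/
theorem heavy_le_one (hno : NoHex L R E) (u : A) (hu : u ∈ L) (w1 : B) (hw1 : w1 ∈ NR R E u) :
    ((NR R E u).filter (fun w => w ≠ w1 ∧ 3 ≤ (NLe L E w1 ∩ NLe L E w).card)).card ≤ 1 := by
  rw [Finset.card_le_one]
  intro w2 h2 w3 h3
  by_contra hne
  obtain ⟨h2R, h2n, h2c⟩ := Finset.mem_filter.mp h2
  obtain ⟨h3R, h3n, h3c⟩ := Finset.mem_filter.mp h3
  obtain ⟨a, ha⟩ : ((NLe L E w1 ∩ NLe L E w2) \ {u}).Nonempty := by
    rw [← Finset.card_pos]
    have := Finset.le_card_sdiff {u} (NLe L E w1 ∩ NLe L E w2)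
    rw [Finset.card_singleton] at this
    omega
  obtain ⟨b, hb⟩ : ((NLe L E w1 ∩ NLe L E w3) \ {u, a}).Nonempty := by
    rw [← Finset.card_pos]
    have := Finset.le_card_sdiff {u, a} (NLe L E w1 ∩ NLe L E w3)
    have h : ({u, a} : Finset A).card ≤ 2 := Finset.card_le_two
    omega
  rw [Finset.mem_sdiff, Finset.mem_inter, Finset.mem_singleton] at ha
  rw [Finset.mem_sdiff, Finset.mem_inter, Finset.mem_insert, Finset.mem_singleton, not_or] at hb
  obtain ⟨⟨ha1, ha2⟩, hau⟩ := ha
  obtain ⟨⟨hb1, hb3⟩, hbu, hba⟩ := hb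
  have ha1 := Finset.mem_filter.mp ha1
  have ha2 := Finset.mem_filter.mp ha2
  have hb1 := Finset.mem_filter.mp hb1
  have hb3 := Finset.mem_filter.mp hb3
  have hw1 := Finset.mem_filter.mp hw1
  have h2R := Finset.mem_filter.mp h2R
  have h3R := Finset.mem_filter.mp h3R
  exact hno u hu a ha1.1 b hb1.1 w2 h2R.1 w1 hw1.1 w3 h3R.1 (Ne.symm hau) (Ne.symm hba)
    (Ne.symm hbu) h2n h3n.symm hne h2R.2 ha2.2 ha1.2 hb1.2 hb3.2 h3R.2

/-- the good paths of length three from `u` to `w`: `u - q.1 - q.2 - w` -/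
def GP (u : A) (w : B) : Finset (B × A) :=
  (R ×ˢ L).filter (fun q => E u q.1 ∧ E q.2 q.1 ∧ E q.2 w ∧ u ≠ q.2 ∧ w ≠ q.1 ∧
    ¬ 3 ≤ (NLe L E q.1 ∩ NLe L E w).card ∧ ¬ 3 ≤ (NR R E q.2 ∩ NR R E u).card)

theorem GP_card_le (hno : NoHex L R E) (u : A) (hu : u ∈ L) (w : B) (hw : w ∈ R) :
    (GP L R E u w).card ≤ 2 := by
  by_contra hcon
  push Not at hcon
  obtain ⟨x, y, z, hx, hy, hz, hxy, hxz, hyz⟩ := Finset.two_lt_card_iff.mp hcon
  have key : ∀ x ∈ GP L R E u w, ∀ y ∈ GP L R E u w, x.1 = y.1 ∨ x.2 = y.2 := by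
    intro x hx y hy
    by_contra hh
    rw [not_or] at hh
    obtain ⟨hxm, hx1, hx2, hx3, hx4, hx5, _, _⟩ := Finset.mem_filter.mp hx
    obtain ⟨hym, hy1, hy2, hy3, hy4, hy5, _, _⟩ := Finset.mem_filter.mp hy
    rw [Finset.mem_product] at hxm hym
    exact hno u hu x.2 hxm.2 y.2 hym.2 x.1 hxm.1 w hw y.1 hym.1 hx4 hh.2 hy4 hx5.symm hy5 hh.1
      hx1 hx2 hx3 hy3 hy2 hy1
  have kxy := key x hx y hy
  have kxz := key x hx z hz
  have kyz := key y hy z hz
  obtain ⟨hxm, hx1, hx2, hx3, hx4, hx5, hx6, hx7⟩ := Finset.mem_filter.mp hx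
  obtain ⟨hym, hy1, hy2, hy3, hy4, hy5, hy6, hy7⟩ := Finset.mem_filter.mp hy
  obtain ⟨hzm, hz1, hz2, hz3, hz4, hz5, hz6, hz7⟩ := Finset.mem_filter.mp hz
  rw [Finset.mem_product] at hxm hym hzm
  have hcase : (x.1 = y.1 ∧ x.1 = z.1) ∨ (x.2 = y.2 ∧ x.2 = z.2) := by
    rcases kxy with h1 | h1
    · rcases kxz with h2 | h2
      · exact Or.inl ⟨h1, h2⟩
      · rcases kyz with h3 | h3
        · exact Or.inl ⟨h1, h1.trans h3⟩
        · exact absurd (Prod.ext h1 (h2.trans h3.symm)) hxy
    · rcases kxz with h2 | h2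
      · rcases kyz with h3 | h3
        · exact absurd (Prod.ext (h2.trans h3.symm) h1) hxy
        · exact Or.inr ⟨h1, h1.trans h3⟩
      · exact Or.inr ⟨h1, h2⟩
  rcases hcase with ⟨h1, h2⟩ | ⟨h1, h2⟩
  · -- same `w1`
    apply hx6
    rw [show (3 : ℕ) = 2 + 1 from rfl, Nat.succ_le_iff, Finset.two_lt_card_iff]
    refine ⟨x.2, y.2, z.2, ?_, ?_, ?_, ?_, ?_, ?_⟩
    · rw [Finset.mem_inter]
      exact ⟨Finset.mem_filter.mpr ⟨hxm.2, hx2⟩, Finset.mem_filter.mpr ⟨hxm.2, hx3⟩⟩
    · rw [Finset.mem_inter, h1]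
      exact ⟨Finset.mem_filter.mpr ⟨hym.2, hy2⟩, Finset.mem_filter.mpr ⟨hym.2, hy3⟩⟩
    · rw [Finset.mem_inter, h2]
      exact ⟨Finset.mem_filter.mpr ⟨hzm.2, hz2⟩, Finset.mem_filter.mpr ⟨hzm.2, hz3⟩⟩
    · intro h; exact hxy (Prod.ext h1 h)
    · intro h; exact hxz (Prod.ext h2 h)
    · intro h; exact hyz (Prod.ext (h1.symm.trans h2) h)
  · apply hx7
    rw [show (3 : ℕ) = 2 + 1 from rfl, Nat.succ_le_iff, Finset.two_lt_card_iff]
    refine ⟨x.1, y.1, z.1, ?_, ?_, ?_, ?_, ?_, ?_⟩
    · rw [Finset.mem_inter]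
      exact ⟨Finset.mem_filter.mpr ⟨hxm.1, hx2⟩, Finset.mem_filter.mpr ⟨hxm.1, hx1⟩⟩
    · rw [Finset.mem_inter, h1]
      exact ⟨Finset.mem_filter.mpr ⟨hym.1, hy2⟩, Finset.mem_filter.mpr ⟨hym.1, hy1⟩⟩
    · rw [Finset.mem_inter, h2]
      exact ⟨Finset.mem_filter.mpr ⟨hzm.1, hz2⟩, Finset.mem_filter.mpr ⟨hzm.1, hz1⟩⟩
    · intro h; exact hxy (Prod.ext h h1)
    · intro h; exact hxz (Prod.ext h h2)
    · intro h; exact hyz (Prod.ext h (h1.symm.trans h2))

/-- counting good paths through their middle edge -/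
theorem sum_middle (hno : NoHex L R E) :
    ∑ q ∈ (L ×ˢ R).filter (fun q => E q.1 q.2),
      ((NLe L E q.2).card - 2) * ((NR R E q.1).card - 2) ≤ 2 * (L.card * R.card) := by
  classical
  -- lower bound for the number of good paths with given middle edge
  have hmid : ∀ q ∈ (L ×ˢ R).filter (fun q => E q.1 q.2),
      ((NLe L E q.2).card - 2) * ((NR R E q.1).card - 2) ≤
      ((L ×ˢ R).filter (fun p => (q.2, q.1) ∈ GP L R E p.1 p.2)).card := by
    intro q hq
    rw [Finset.mem_filter, Finset.mem_product] at hq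
    obtain ⟨⟨hqL, hqR⟩, hqE⟩ := hq
    set X := (NLe L E q.2).filter
      (fun u => u ≠ q.1 ∧ ¬ 3 ≤ (NR R E q.1 ∩ NR R E u).card) with hX
    set Y := (NR R E q.1).filter
      (fun w => w ≠ q.2 ∧ ¬ 3 ≤ (NLe L E q.2 ∩ NLe L E w).card) with hY
    have hXc : (NLe L E q.2).card - 2 ≤ X.card := by
      have h1 := heavy_le_one R L (fun w u => E u w) hno.flip q.2 hqR q.1
        (Finset.mem_filter.mpr ⟨hqL, hqE⟩)
      have hsub : NLe L E q.2 ⊆ (X ∪ {q.1}) ∪ (NLe L E q.2).filter
          (fun u => u ≠ q.1 ∧ 3 ≤ (NR R E q.1 ∩ NR R E u).card) := by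
        intro u hu
        simp only [Finset.mem_union, Finset.mem_singleton, hX, Finset.mem_filter]
        tauto
      have h2 := Finset.card_le_card hsub
      have h3 := Finset.card_union_le (X ∪ {q.1}) ((NLe L E q.2).filter
          (fun u => u ≠ q.1 ∧ 3 ≤ (NR R E q.1 ∩ NR R E u).card))
      have h4 := Finset.card_union_le X {q.1}
      rw [Finset.card_singleton] at h4
      have h5 : ((NLe L E q.2).filter
          (fun u => u ≠ q.1 ∧ 3 ≤ (NR R E q.1 ∩ NR R E u).card)).card ≤ 1 := h1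
      omega
    have hYc : (NR R E q.1).card - 2 ≤ Y.card := by
      have h1 := heavy_le_one L R E hno q.1 hqL q.2 (Finset.mem_filter.mpr ⟨hqR, hqE⟩)
      have hsub : NR R E q.1 ⊆ (Y ∪ {q.2}) ∪ (NR R E q.1).filter
          (fun w => w ≠ q.2 ∧ 3 ≤ (NLe L E q.2 ∩ NLe L E w).card) := by
        intro w hw
        simp only [Finset.mem_union, Finset.mem_singleton, hY, Finset.mem_filter]
        tauto
      have h2 := Finset.card_le_card hsub
      have h3 := Finset.card_union_le (Y ∪ {q.2}) ((NR R E q.1).filter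
          (fun w => w ≠ q.2 ∧ 3 ≤ (NLe L E q.2 ∩ NLe L E w).card))
      have h4 := Finset.card_union_le Y {q.2}
      rw [Finset.card_singleton] at h4
      omega
    calc _ ≤ X.card * Y.card := Nat.mul_le_mul hXc hYc
      _ = (X ×ˢ Y).card := (Finset.card_product _ _).symm
      _ ≤ _ := by
        apply Finset.card_le_card
        intro p hp
        rw [Finset.mem_product] at hp
        obtain ⟨hp1, hp1n, hp1h⟩ := Finset.mem_filter.mp hp.1
        obtain ⟨hp2, hp2n, hp2h⟩ := Finset.mem_filter.mp hp.2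
        have hp1 := Finset.mem_filter.mp hp1
        have hp2 := Finset.mem_filter.mp hp2
        rw [Finset.mem_filter, Finset.mem_product]
        refine ⟨⟨hp1.1, hp2.1⟩, ?_⟩
        unfold GP
        rw [Finset.mem_filter, Finset.mem_product]
        exact ⟨⟨hqR, hqL⟩, hp1.2, hqE, hp2.2, hp1n, hp2n, hp2h, hp1h⟩
  refine le_trans (Finset.sum_le_sum hmid) ?_
  calc ∑ q ∈ (L ×ˢ R).filter (fun q => E q.1 q.2),
        ((L ×ˢ R).filter (fun p => (q.2, q.1) ∈ GP L R E p.1 p.2)).card
      = ∑ q ∈ (L ×ˢ R).filter (fun q => E q.1 q.2), ∑ p ∈ L ×ˢ R,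
          (if (q.2, q.1) ∈ GP L R E p.1 p.2 then 1 else 0) := by
        apply Finset.sum_congr rfl
        intro q _
        rw [Finset.card_filter]
    _ = ∑ p ∈ L ×ˢ R, ∑ q ∈ (L ×ˢ R).filter (fun q => E q.1 q.2),
          (if (q.2, q.1) ∈ GP L R E p.1 p.2 then 1 else 0) := Finset.sum_comm
    _ ≤ ∑ p ∈ L ×ˢ R, 2 := by
        apply Finset.sum_le_sum
        intro p hp
        rw [Finset.mem_product] at hp
        refine le_trans ?_ (GP_card_le L R E hno p.1 hp.1 p.2 hp.2)
        rw [← Finset.card_filter]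
        apply Finset.card_le_card_of_injOn (fun q => (q.2, q.1))
        · intro q hq
          exact Finset.mem_coe.mpr (Finset.mem_filter.mp (Finset.mem_coe.mp hq)).2
        · intro q _ q' _ h
          have h1 := congrArg Prod.fst h
          have h2 := congrArg Prod.snd h
          exact Prod.ext h2 h1
    _ = 2 * (L.card * R.card) := by
        rw [Finset.sum_const, smul_eq_mul, Finset.card_product, mul_comm]

theorem amgm3 (x y z : ℝ) (hx : 0 ≤ x) (hy : 0 ≤ y) (hz : 0 ≤ z) (h : x * y * z = 1) :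
    3 ≤ x + y + z := by
  have h1 := Real.geom_mean_le_arith_mean3_weighted (w₁ := 1/3) (w₂ := 1/3) (w₃ := 1/3)
    (p₁ := x) (p₂ := y) (p₃ := z) (by norm_num) (by norm_num) (by norm_num) hx hy hz
    (by norm_num)
  rw [← Real.mul_rpow hx hy, ← Real.mul_rpow (by positivity) hz, h, Real.one_rpow] at h1
  linarith

/-- The bound for bipartite graphs without a 6-cycle. -/
theorem hex_bound (hno : NoHex L R E) (l : ℕ) (hl : 1 ≤ l) (hL : L.card ≤ l) (hR : R.card ≤ l)
    (p : ℝ) (hp : 0 < p) (hp3 : p ^ 3 = 8 * l) :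
    (((L ×ˢ R).filter (fun q => E q.1 q.2)).card : ℝ) ≤ 4 * p * l := by
  classical
  set Es := (L ×ˢ R).filter (fun q => E q.1 q.2) with hEs
  set E' := Es.filter (fun q => 4 ≤ (NR R E q.1).card ∧ 4 ≤ (NLe L E q.2).card) with hE'
  have hlR : (1 : ℝ) ≤ l := by exact_mod_cast hl
  have hp2 : 2 ≤ p := by
    by_contra hc
    push Not at hc
    have : p ^ 3 < 2 ^ 3 := pow_lt_pow_left₀ hc hp.le (by norm_num)
    rw [hp3] at this
    linarith
  -- low degree edges
  have hlowL : (Es.filter (fun q => (NR R E q.1).card ≤ 3)).card ≤ 3 * l := by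
    have h1 : (Es.filter (fun q => (NR R E q.1).card ≤ 3)).card
        = ∑ u ∈ L, ((Es.filter (fun q => (NR R E q.1).card ≤ 3)).filter
          (fun q => q.1 = u)).card := by
      apply Finset.card_eq_sum_card_fiberwise
      intro q hq
      have := (Finset.mem_filter.mp (Finset.mem_coe.mp hq)).1
      exact Finset.mem_coe.mpr (Finset.mem_product.mp (Finset.mem_filter.mp this).1).1
    rw [h1]
    calc _ ≤ ∑ u ∈ L, 3 := by
          apply Finset.sum_le_sum
          intro u _
          by_cases hd : (NR R E u).card ≤ 3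
          · refine le_trans ?_ hd
            apply Finset.card_le_card_of_injOn (fun q => q.2)
            · intro q hq
              obtain ⟨hq1, hq2⟩ := Finset.mem_filter.mp (Finset.mem_coe.mp hq)
              have hq3 := Finset.mem_filter.mp (Finset.mem_filter.mp hq1).1
              rw [← hq2]
              exact Finset.mem_coe.mpr (Finset.mem_filter.mpr
                ⟨(Finset.mem_product.mp hq3.1).2, hq3.2⟩)
            · intro q hq q' hq' h
              have h2 := (Finset.mem_filter.mp (Finset.mem_coe.mp hq)).2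
              have h3 := (Finset.mem_filter.mp (Finset.mem_coe.mp hq')).2
              exact Prod.ext (h2.trans h3.symm) h
          · have : (Es.filter (fun q => (NR R E q.1).card ≤ 3)).filter (fun q => q.1 = u) = ∅ := by
              apply Finset.filter_eq_empty_iff.mpr
              intro q hq hqu
              rw [← hqu] at hd
              exact hd (Finset.mem_filter.mp hq).2
            rw [this]; simp
      _ = 3 * L.card := by rw [Finset.sum_const, smul_eq_mul, mul_comm]
      _ ≤ 3 * l := Nat.mul_le_mul_left _ hL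
  have hlowR : (Es.filter (fun q => (NLe L E q.2).card ≤ 3)).card ≤ 3 * l := by
    have h1 : (Es.filter (fun q => (NLe L E q.2).card ≤ 3)).card
        = ∑ u ∈ R, ((Es.filter (fun q => (NLe L E q.2).card ≤ 3)).filter
          (fun q => q.2 = u)).card := by
      apply Finset.card_eq_sum_card_fiberwise
      intro q hq
      have := (Finset.mem_filter.mp (Finset.mem_coe.mp hq)).1
      exact Finset.mem_coe.mpr (Finset.mem_product.mp (Finset.mem_filter.mp this).1).2
    rw [h1]
    calc _ ≤ ∑ u ∈ R, 3 := by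
          apply Finset.sum_le_sum
          intro u _
          by_cases hd : (NLe L E u).card ≤ 3
          · refine le_trans ?_ hd
            apply Finset.card_le_card_of_injOn (fun q => q.1)
            · intro q hq
              obtain ⟨hq1, hq2⟩ := Finset.mem_filter.mp (Finset.mem_coe.mp hq)
              have hq3 := Finset.mem_filter.mp (Finset.mem_filter.mp hq1).1
              rw [← hq2]
              exact Finset.mem_coe.mpr (Finset.mem_filter.mpr
                ⟨(Finset.mem_product.mp hq3.1).1, hq3.2⟩)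
            · intro q hq q' hq' h
              have h2 := (Finset.mem_filter.mp (Finset.mem_coe.mp hq)).2
              have h3 := (Finset.mem_filter.mp (Finset.mem_coe.mp hq')).2
              exact Prod.ext h (h2.trans h3.symm)
          · have : (Es.filter (fun q => (NLe L E q.2).card ≤ 3)).filter (fun q => q.2 = u) = ∅ := by
              apply Finset.filter_eq_empty_iff.mpr
              intro q hq hqu
              rw [← hqu] at hd
              exact hd (Finset.mem_filter.mp hq).2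
            rw [this]; simp
      _ = 3 * R.card := by rw [Finset.sum_const, smul_eq_mul, mul_comm]
      _ ≤ 3 * l := Nat.mul_le_mul_left _ hR
  have hsplit : Es.card ≤ E'.card + 6 * l := by
    have hsub : Es ⊆ (E' ∪ Es.filter (fun q => (NR R E q.1).card ≤ 3)) ∪
        Es.filter (fun q => (NLe L E q.2).card ≤ 3) := by
      intro q hq
      simp only [Finset.mem_union, hE', Finset.mem_filter]
      by_cases h1 : (NR R E q.1).card ≤ 3
      · exact Or.inl (Or.inr ⟨hq, h1⟩)
      · by_cases h2 : (NLe L E q.2).card ≤ 3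
        · exact Or.inr ⟨hq, h2⟩
        · exact Or.inl (Or.inl ⟨hq, by omega, by omega⟩)
    have a1 := Finset.card_le_card hsub
    have a2 := Finset.card_union_le (E' ∪ Es.filter (fun q => (NR R E q.1).card ≤ 3))
      (Es.filter (fun q => (NLe L E q.2).card ≤ 3))
    have a3 := Finset.card_union_le E' (Es.filter (fun q => (NR R E q.1).card ≤ 3))
    omega
  -- the product sum
  have hprod : ∑ q ∈ E', ((NR R E q.1).card : ℝ) * (NLe L E q.2).card ≤ 8 * (l : ℝ) ^ 2 := by
    have h1 := sum_middle L R E hno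
    rw [← hEs] at h1
    have h2 : ∑ q ∈ E', ((NLe L E q.2).card - 2) * ((NR R E q.1).card - 2) ≤
        2 * (L.card * R.card) := by
      refine le_trans ?_ h1
      apply Finset.sum_le_sum_of_subset
      exact Finset.filter_subset _ _
    have h3 : ∑ q ∈ E', ((NR R E q.1).card) * (NLe L E q.2).card ≤
        4 * ∑ q ∈ E', ((NLe L E q.2).card - 2) * ((NR R E q.1).card - 2) := by
      rw [Finset.mul_sum]
      apply Finset.sum_le_sum
      intro q hq
      obtain ⟨_, h4, h5⟩ := Finset.mem_filter.mp hq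
      obtain ⟨a, ha⟩ := Nat.exists_eq_add_of_le h4
      obtain ⟨b, hb⟩ := Nat.exists_eq_add_of_le h5
      rw [ha, hb]
      have e1 : 4 + b - 2 = b + 2 := by omega
      have e2 : 4 + a - 2 = a + 2 := by omega
      rw [e1, e2]
      nlinarith [Nat.zero_le (a * b)]
    have h4 : L.card * R.card ≤ l * l := Nat.mul_le_mul hL hR
    have h5 : ∑ q ∈ E', ((NR R E q.1).card) * (NLe L E q.2).card ≤ 8 * l ^ 2 := by nlinarith
    exact_mod_cast h5
  have hinvL : ∑ q ∈ E', (1 : ℝ) / (NR R E q.1).card ≤ l := by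
    calc ∑ q ∈ E', (1 : ℝ) / (NR R E q.1).card
        ≤ ∑ q ∈ Es, (1 : ℝ) / (NR R E q.1).card := by
          apply Finset.sum_le_sum_of_subset_of_nonneg (Finset.filter_subset _ _)
          intro _ _ _; positivity
      _ = ∑ u ∈ L, ∑ w ∈ NR R E u, (1 : ℝ) / (NR R E u).card := by
          rw [hEs, Finset.sum_filter, Finset.sum_product]
          apply Finset.sum_congr rfl
          intro u _
          unfold NR
          rw [Finset.sum_filter]
      _ ≤ ∑ u ∈ L, (1 : ℝ) := by
          apply Finset.sum_le_sum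
          intro u _
          rw [Finset.sum_const, nsmul_eq_mul]
          rcases Nat.eq_zero_or_pos (NR R E u).card with h | h
          · rw [h]; simp
          · have : (0 : ℝ) < (NR R E u).card := by exact_mod_cast h
            rw [mul_one_div_cancel this.ne']
      _ = L.card := by simp
      _ ≤ l := by exact_mod_cast hL
  have hinvR : ∑ q ∈ E', (1 : ℝ) / (NLe L E q.2).card ≤ l := by
    calc ∑ q ∈ E', (1 : ℝ) / (NLe L E q.2).card
        ≤ ∑ q ∈ Es, (1 : ℝ) / (NLe L E q.2).card := by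
          apply Finset.sum_le_sum_of_subset_of_nonneg (Finset.filter_subset _ _)
          intro _ _ _; positivity
      _ = ∑ w ∈ R, ∑ u ∈ NLe L E w, (1 : ℝ) / (NLe L E w).card := by
          rw [hEs, Finset.sum_filter, Finset.sum_product_right]
          apply Finset.sum_congr rfl
          intro w _
          unfold NLe
          rw [Finset.sum_filter]
      _ ≤ ∑ w ∈ R, (1 : ℝ) := by
          apply Finset.sum_le_sum
          intro w _
          rw [Finset.sum_const, nsmul_eq_mul]
          rcases Nat.eq_zero_or_pos (NLe L E w).card with h | h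
          · rw [h]; simp
          · have : (0 : ℝ) < (NLe L E w).card := by exact_mod_cast h
            rw [mul_one_div_cancel this.ne']
      _ = R.card := by simp
      _ ≤ l := by exact_mod_cast hR
  have hsum : 3 * (E'.card : ℝ) ≤ 8 * (l : ℝ) ^ 2 / p ^ 2 + p * l + p * l := by
    have h1 : ∀ q ∈ E', (3 : ℝ) ≤ (((NR R E q.1).card : ℝ) * (NLe L E q.2).card) / p ^ 2
        + p * (1 / (NR R E q.1).card) + p * (1 / (NLe L E q.2).card) := by
      intro q hq
      obtain ⟨_, h4, h5⟩ := Finset.mem_filter.mp hq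
      have h4' : (0 : ℝ) < (NR R E q.1).card := by
        have : 0 < (NR R E q.1).card := by omega
        exact_mod_cast this
      have h5' : (0 : ℝ) < (NLe L E q.2).card := by
        have : 0 < (NLe L E q.2).card := by omega
        exact_mod_cast this
      apply amgm3 _ _ _ (by positivity) (by positivity) (by positivity)
      field_simp
    calc 3 * (E'.card : ℝ) = ∑ q ∈ E', (3 : ℝ) := by
          rw [Finset.sum_const, nsmul_eq_mul, mul_comm]
      _ ≤ ∑ q ∈ E', ((((NR R E q.1).card : ℝ) * (NLe L E q.2).card) / p ^ 2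
        + p * (1 / (NR R E q.1).card) + p * (1 / (NLe L E q.2).card)) := Finset.sum_le_sum h1
      _ = (∑ q ∈ E', ((NR R E q.1).card : ℝ) * (NLe L E q.2).card) / p ^ 2
        + p * (∑ q ∈ E', (1 : ℝ) / (NR R E q.1).card)
        + p * (∑ q ∈ E', (1 : ℝ) / (NLe L E q.2).card) := by
          rw [Finset.sum_add_distrib, Finset.sum_add_distrib, Finset.sum_div, Finset.mul_sum,
            Finset.mul_sum]
      _ ≤ _ := by
          have a1 : (∑ q ∈ E', ((NR R E q.1).card : ℝ) * (NLe L E q.2).card) / p ^ 2 ≤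
              8 * (l : ℝ) ^ 2 / p ^ 2 := div_le_div_of_nonneg_right hprod (by positivity)
          have a2 := mul_le_mul_of_nonneg_left hinvL hp.le
          have a3 := mul_le_mul_of_nonneg_left hinvR hp.le
          linarith
  have hE'c : (E'.card : ℝ) ≤ p * l := by
    have h1 : 8 * (l : ℝ) ^ 2 / p ^ 2 = p * l := by
      have : 8 * (l : ℝ) ^ 2 = p ^ 3 * l := by rw [hp3]; ring
      rw [this]
      field_simp
    rw [h1] at hsum
    linarith
  have hfin : (Es.card : ℝ) ≤ E'.card + 6 * l := by exact_mod_cast hsplit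
  nlinarith

end Hex

end PoolH34Sub
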