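import Pool.Agent.H34.Sub.Main
import Pool.Agent.H34.Sub.Hex

set_option linter.unusedSectionVars false

namespace PoolH34Sub

open Finset

section FourParts

variable {V : Type*} [Fintype V] [DecidableEq V]

theorem four_count (a b x y : V) (hab : a ≠ b) (hax : a ≠ x) (hay : a ≠ y) (hbx : b ≠ x)
    (hby : b ≠ y) (hxy : x ≠ y) :
    256 * ((univ : Finset (V → Fin 4)).filter
      (fun f => f a = 0 ∧ f b = 1 ∧ f x = 2 ∧ f y = 3)).card = 4 ^ Fintype.card V := by
  classical
  set S : V → Finset (Fin 4) := fun v => if v = a then {0} else if v = b then {1} else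
    if v = x then {2} else if v = y then {3} else univ with hS
  set T : Finset V := {a, b, x, y} with hT
  have hTc : T.card = 4 := by
    rw [hT, Finset.card_insert_of_notMem, Finset.card_insert_of_notMem,
      Finset.card_insert_of_notMem, Finset.card_singleton]
    · simpa using hxy
    · simp [hbx, hby]
    · simp [hab, hax, hay]
  have h1 : (univ : Finset (V → Fin 4)).filter
      (fun f => f a = 0 ∧ f b = 1 ∧ f x = 2 ∧ f y = 3) = Fintype.piFinset S := by
    ext f
    rw [Finset.mem_filter, Fintype.mem_piFinset]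
    constructor
    · rintro ⟨_, h0, h1, h2, h3⟩ v
      simp only [hS]
      split_ifs with e1 e2 e3 e4
      · rw [e1, h0]; simp
      · rw [e2, h1]; simp
      · rw [e3, h2]; simp
      · rw [e4, h3]; simp
      · simp
    · intro h
      refine ⟨mem_univ _, ?_, ?_, ?_, ?_⟩
      · have := h a; simpa [hS] using this
      · have := h b; simpa [hS, hab.symm] using this
      · have := h x; simpa [hS, hax.symm, hbx.symm] using this
      · have := h y; simpa [hS, hay.symm, hby.symm, hxy.symm] using this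
  have h2 : ∀ v, (S v).card = if v ∈ T then 1 else 4 := by
    intro v
    simp only [hS, hT, Finset.mem_insert, Finset.mem_singleton]
    split_ifs <;> simp_all
  rw [h1, Fintype.card_piFinset, Finset.prod_congr rfl (fun v _ => h2 v)]
  have h3 : (4 : ℕ) ^ Fintype.card V = ∏ _v : V, 4 := by
    rw [Finset.prod_const, Finset.card_univ]
  have h4 : (256 : ℕ) = ∏ v : V, (if v ∈ T then 4 else 1) := by
    rw [Finset.prod_ite_mem, Finset.univ_inter, Finset.prod_const, hTc]
    norm_num
  rw [h3, h4, ← Finset.prod_mul_distrib]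
  apply Finset.prod_congr rfl
  intro v _
  split_ifs <;> norm_num

theorem four_parts (Q : Finset ((V × V) × (V × V)))
    (hQ : ∀ q ∈ Q, q.1.1 ≠ q.1.2 ∧ q.1.1 ≠ q.2.1 ∧ q.1.1 ≠ q.2.2 ∧ q.1.2 ≠ q.2.1 ∧
      q.1.2 ≠ q.2.2 ∧ q.2.1 ≠ q.2.2) :
    ∃ f : V → Fin 4, Q.card ≤ 256 * (Q.filter (fun q => f q.1.1 = 0 ∧ f q.1.2 = 1 ∧
      f q.2.1 = 2 ∧ f q.2.2 = 3)).card := by
  classical
  by_contra hcon
  push Not at hcon
  have h1 : ∑ f : V → Fin 4, 256 * (Q.filter (fun q => f q.1.1 = 0 ∧ f q.1.2 = 1 ∧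
      f q.2.1 = 2 ∧ f q.2.2 = 3)).card < ∑ _f : V → Fin 4, Q.card :=
    Finset.sum_lt_sum_of_nonempty Finset.univ_nonempty (fun f _ => hcon f)
  have h2 : ∑ f : V → Fin 4, 256 * (Q.filter (fun q => f q.1.1 = 0 ∧ f q.1.2 = 1 ∧
      f q.2.1 = 2 ∧ f q.2.2 = 3)).card = ∑ _q ∈ Q, 4 ^ Fintype.card V := by
    rw [← Finset.mul_sum]
    have : ∑ f : V → Fin 4, (Q.filter (fun q => f q.1.1 = 0 ∧ f q.1.2 = 1 ∧
      f q.2.1 = 2 ∧ f q.2.2 = 3)).card = ∑ q ∈ Q, ((univ : Finset (V → Fin 4)).filter
        (fun f => f q.1.1 = 0 ∧ f q.1.2 = 1 ∧ f q.2.1 = 2 ∧ f q.2.2 = 3)).card := by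
      simp only [Finset.card_filter]
      exact Finset.sum_comm
    rw [this, Finset.mul_sum]
    apply Finset.sum_congr rfl
    intro q hq
    obtain ⟨a1, a2, a3, a4, a5, a6⟩ := hQ q hq
    exact four_count _ _ _ _ a1 a2 a3 a4 a5 a6
  rw [h2, Finset.sum_const, Finset.sum_const, Finset.card_univ, Fintype.card_fun,
    Fintype.card_fin, smul_eq_mul, smul_eq_mul, mul_comm] at h1
  exact lt_irrefl _ h1

end FourParts

section Copies

variable {V α : Type*} [DecidableEq V] [DecidableEq α]

theorem PE_dist {c : Sym2 V → α} (hc : IsProperColouring c) {p p' r : V × V}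
    (h : PE c p r) (h' : PE c p' r) (hne : p ≠ p') : p.1 ≠ p'.1 ∧ p.2 ≠ p'.2 :=
  ⟨fun e => hne (PE_inj1 hc h h' e), fun e => hne (PE_inj2 hc h h' e)⟩

/-- A 6-cycle of the pair graph with coordinates in four different parts gives two copies of the
1-subdivision of the triangle. -/
theorem copies_of_hex {c : Sym2 V → α} (hc : IsProperColouring c) (κ : V → Fin 4)
    (u1 u2 u3 w1 w2 w3 : V × V)
    (hu1 : κ u1.1 = 0 ∧ κ u1.2 = 1) (hu2 : κ u2.1 = 0 ∧ κ u2.2 = 1)
    (hu3 : κ u3.1 = 0 ∧ κ u3.2 = 1)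
    (hw1 : κ w1.1 = 2 ∧ κ w1.2 = 3) (hw2 : κ w2.1 = 2 ∧ κ w2.2 = 3)
    (hw3 : κ w3.1 = 2 ∧ κ w3.2 = 3)
    (n12 : u1 ≠ u2) (n23 : u2 ≠ u3) (n13 : u1 ≠ u3) (m12 : w1 ≠ w2) (m23 : w2 ≠ w3)
    (m13 : w1 ≠ w3)
    (e1 : PE c u1 w1) (e2 : PE c u2 w1) (e3 : PE c u2 w2) (e4 : PE c u3 w2)
    (e5 : PE c u3 w3) (e6 : PE c u1 w3) :
    HasTwoIsomorphicCopies c (subdivK 3) := by
  classical
  let U : Fin 3 → V × V := ![u1, u2, u3]
  let W : {q : Fin 3 × Fin 3 // q.1 < q.2} → V × V := fun q =>
    if q.1.2 = 1 then w1 else if q.1.1 = 0 then w3 else w2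
  have hinc : ∀ q, PE c (U q.1.1) (W q) ∧ PE c (U q.1.2) (W q) := by
    rintro ⟨⟨i, j⟩, h⟩
    fin_cases i <;> fin_cases j <;> first
      | exact absurd h (by decide)
      | exact ⟨e1, e2⟩
      | exact ⟨e6, e5⟩
      | exact ⟨e3, e4⟩
  have du12 := PE_dist hc e1 e2 n12
  have du23 := PE_dist hc e3 e4 n23
  have du13 := PE_dist hc e6 e5 n13
  have dw12 := PE_dist hc (PE_symm e2) (PE_symm e3) m12
  have dw23 := PE_dist hc (PE_symm e4) (PE_symm e5) m23
  have dw13 := PE_dist hc (PE_symm e1) (PE_symm e6) m13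
  have hU1 : Function.Injective (fun i => (U i).1) := by
    intro i j h
    fin_cases i <;> fin_cases j <;> first
      | rfl
      | exact absurd h du12.1
      | exact absurd h du12.1.symm
      | exact absurd h du23.1
      | exact absurd h du23.1.symm
      | exact absurd h du13.1
      | exact absurd h du13.1.symm
  have hU2 : Function.Injective (fun i => (U i).2) := by
    intro i j h
    fin_cases i <;> fin_cases j <;> first
      | rfl
      | exact absurd h du12.2
      | exact absurd h du12.2.symm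
      | exact absurd h du23.2
      | exact absurd h du23.2.symm
      | exact absurd h du13.2
      | exact absurd h du13.2.symm
  have hW1 : Function.Injective (fun q => (W q).1) := by
    rintro ⟨⟨i, j⟩, h⟩ ⟨⟨i', j'⟩, h'⟩ hh
    fin_cases i <;> fin_cases j <;> first
      | exact absurd h (by decide)
      | (fin_cases i' <;> fin_cases j' <;> first
          | exact absurd h' (by decide)
          | rfl
          | exact absurd hh dw12.1
          | exact absurd hh dw12.1.symm
          | exact absurd hh dw23.1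
          | exact absurd hh dw23.1.symm
          | exact absurd hh dw13.1
          | exact absurd hh dw13.1.symm)
  have hW2 : Function.Injective (fun q => (W q).2) := by
    rintro ⟨⟨i, j⟩, h⟩ ⟨⟨i', j'⟩, h'⟩ hh
    fin_cases i <;> fin_cases j <;> first
      | exact absurd h (by decide)
      | (fin_cases i' <;> fin_cases j' <;> first
          | exact absurd h' (by decide)
          | rfl
          | exact absurd hh dw12.2
          | exact absurd hh dw12.2.symm
          | exact absurd hh dw23.2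
          | exact absurd hh dw23.2.symm
          | exact absurd hh dw13.2
          | exact absurd hh dw13.2.symm)
  have kU : ∀ i, κ (U i).1 = 0 ∧ κ (U i).2 = 1 := by
    intro i; fin_cases i
    · exact hu1
    · exact hu2
    · exact hu3
  have kW : ∀ q, κ (W q).1 = 2 ∧ κ (W q).2 = 3 := by
    rintro ⟨⟨i, j⟩, h⟩
    fin_cases i <;> fin_cases j <;> first
      | exact absurd h (by decide)
      | exact hw1
      | exact hw3
      | exact hw2
  refine ⟨Sum.elim (fun i => (U i).1) (fun q => (W q).1),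
    Sum.elim (fun i => (U i).2) (fun q => (W q).2), ?_, ?_, ?_, ?_⟩
  · rintro (i | q) (j | q') h
    · simp only [Sum.elim_inl] at h; rw [hU1 h]
    · simp only [Sum.elim_inl, Sum.elim_inr] at h
      have := congrArg κ h
      rw [(kU i).1, (kW q').1] at this
      exact absurd this (by decide)
    · simp only [Sum.elim_inl, Sum.elim_inr] at h
      have := congrArg κ h
      rw [(kU j).1, (kW q).1] at this
      exact absurd this (by decide)
    · simp only [Sum.elim_inr] at h; rw [hW1 h]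
  · rintro (i | q) (j | q') h
    · simp only [Sum.elim_inl] at h; rw [hU2 h]
    · simp only [Sum.elim_inl, Sum.elim_inr] at h
      have := congrArg κ h
      rw [(kU i).2, (kW q').2] at this
      exact absurd this (by decide)
    · simp only [Sum.elim_inl, Sum.elim_inr] at h
      have := congrArg κ h
      rw [(kU j).2, (kW q).2] at this
      exact absurd this (by decide)
    · simp only [Sum.elim_inr] at h; rw [hW2 h]
  · rintro (i | q) (j | q') h <;> simp only [Sum.elim_inl, Sum.elim_inr] at h <;>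
      have := congrArg κ h
    · rw [(kU i).1, (kU j).2] at this; exact absurd this (by decide)
    · rw [(kU i).1, (kW q').2] at this; exact absurd this (by decide)
    · rw [(kW q).1, (kU j).2] at this; exact absurd this (by decide)
    · rw [(kW q).1, (kW q').2] at this; exact absurd this (by decide)
  · rintro (i | q) (j | q') h
    · exact absurd h (by simp [subdivK, SubdivAdj])
    · simp only [Sum.elim_inl, Sum.elim_inr]
      have h' : i = q'.1.1 ∨ i = q'.1.2 := h
      rcases h' with h' | h'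
      · rw [h']; exact (hinc q').1.2.2
      · rw [h']; exact (hinc q').2.2.2
    · simp only [Sum.elim_inl, Sum.elim_inr]
      have h' : j = q.1.1 ∨ j = q.1.2 := h
      rcases h' with h' | h'
      · rw [h']; exact (PE_symm (hinc q).1).2.2
      · rw [h']; exact (PE_symm (hinc q).2).2.2
    · exact absurd h (by simp [subdivK, SubdivAdj])

end Copies

section Final

variable {V α : Type*} [Fintype V] [DecidableEq V] [DecidableEq α]

/-- Without two copies of the hexagon the pair graph has at most `1025 p l` edges between two sets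
of at most `l` pairs, where `p ^ 3 = 8 l`. -/
theorem edge_bound3 {c : Sym2 V → α} (hc : IsProperColouring c)
    (L R : Finset (V × V)) (hL : ∀ q ∈ L, q.1 ≠ q.2) (hR : ∀ r ∈ R, r.1 ≠ r.2)
    (hno : ¬ HasTwoIsomorphicCopies c (subdivK 3)) (l : ℕ) (hl : 1 ≤ l) (hLc : L.card ≤ l)
    (hRc : R.card ≤ l) (p : ℝ) (hp : 0 < p) (hp3 : p ^ 3 = 8 * l) :
    (eN c L R : ℝ) ≤ 1025 * p * l := by
  classical
  have hlR : (1 : ℝ) ≤ l := by exact_mod_cast hl
  have hp2 : 2 ≤ p := by
    by_contra hcc
    push Not at hcc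
    have : p ^ 3 < 2 ^ 3 := pow_lt_pow_left₀ hcc hp.le (by norm_num)
    rw [hp3] at this
    linarith
  set Q := (L ×ˢ R).filter (fun q => PE c q.1 q.2) with hQ
  set Q0 := Q.filter (fun q => q.1.1 ≠ q.2.2 ∧ q.1.2 ≠ q.2.1) with hQ0
  have hdeg : Q.card ≤ Q0.card + 2 * L.card := by
    have hsub : Q ⊆ (Q0 ∪ Q.filter (fun q => q.1.1 = q.2.2)) ∪
        Q.filter (fun q => q.1.2 = q.2.1) := by
      intro q hq
      simp only [Finset.mem_union, hQ0, Finset.mem_filter]
      by_cases h1 : q.1.1 = q.2.2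
      · exact Or.inl (Or.inr ⟨hq, h1⟩)
      · by_cases h2 : q.1.2 = q.2.1
        · exact Or.inr ⟨hq, h2⟩
        · exact Or.inl (Or.inl ⟨hq, h1, h2⟩)
    have b1 : (Q.filter (fun q => q.1.1 = q.2.2)).card ≤ L.card := by
      apply Finset.card_le_card_of_injOn (fun q => q.1)
      · intro q hq
        have := (Finset.mem_filter.mp (Finset.mem_coe.mp hq)).1
        exact Finset.mem_coe.mpr (Finset.mem_product.mp (Finset.mem_filter.mp this).1).1
      · intro q hq q' hq' h
        obtain ⟨h1, h2⟩ := Finset.mem_filter.mp (Finset.mem_coe.mp hq)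
        obtain ⟨h3, h4⟩ := Finset.mem_filter.mp (Finset.mem_coe.mp hq')
        have h5 := (Finset.mem_filter.mp h1).2
        have h6 := (Finset.mem_filter.mp h3).2
        have h : q.1 = q'.1 := h
        rw [← h] at h6 h4
        have := PE_inj2 hc (PE_symm h5) (PE_symm h6) (h2.symm.trans h4)
        exact Prod.ext h this
    have b2 : (Q.filter (fun q => q.1.2 = q.2.1)).card ≤ L.card := by
      apply Finset.card_le_card_of_injOn (fun q => q.1)
      · intro q hq
        have := (Finset.mem_filter.mp (Finset.mem_coe.mp hq)).1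
        exact Finset.mem_coe.mpr (Finset.mem_product.mp (Finset.mem_filter.mp this).1).1
      · intro q hq q' hq' h
        obtain ⟨h1, h2⟩ := Finset.mem_filter.mp (Finset.mem_coe.mp hq)
        obtain ⟨h3, h4⟩ := Finset.mem_filter.mp (Finset.mem_coe.mp hq')
        have h5 := (Finset.mem_filter.mp h1).2
        have h6 := (Finset.mem_filter.mp h3).2
        have h : q.1 = q'.1 := h
        rw [← h] at h6 h4
        have := PE_inj1 hc (PE_symm h5) (PE_symm h6) (h2.symm.trans h4)
        exact Prod.ext h this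
    have a1 := Finset.card_le_card hsub
    have a2 := Finset.card_union_le (Q0 ∪ Q.filter (fun q => q.1.1 = q.2.2))
      (Q.filter (fun q => q.1.2 = q.2.1))
    have a3 := Finset.card_union_le Q0 (Q.filter (fun q => q.1.1 = q.2.2))
    omega
  obtain ⟨κ, hκ⟩ := four_parts Q0 (by
    intro q hq
    obtain ⟨h1, h2, h3⟩ := Finset.mem_filter.mp hq
    obtain ⟨h4, h5⟩ := Finset.mem_filter.mp h1
    rw [Finset.mem_product] at h4
    exact ⟨hL _ h4.1, h5.1, h2, h3, h5.2.1, hR _ h4.2⟩)
  set L' := L.filter (fun u => κ u.1 = 0 ∧ κ u.2 = 1) with hL'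
  set R' := R.filter (fun w => κ w.1 = 2 ∧ κ w.2 = 3) with hR'
  have hsub2 : Q0.filter (fun q => κ q.1.1 = 0 ∧ κ q.1.2 = 1 ∧ κ q.2.1 = 2 ∧ κ q.2.2 = 3) ⊆
      (L' ×ˢ R').filter (fun q => PE c q.1 q.2) := by
    intro q hq
    obtain ⟨h1, k1, k2, k3, k4⟩ := Finset.mem_filter.mp hq
    obtain ⟨h2, _⟩ := Finset.mem_filter.mp h1
    obtain ⟨h4, h5⟩ := Finset.mem_filter.mp h2
    rw [Finset.mem_product] at h4
    rw [Finset.mem_filter, Finset.mem_product]
    exact ⟨⟨Finset.mem_filter.mpr ⟨h4.1, k1, k2⟩, Finset.mem_filter.mpr ⟨h4.2, k3, k4⟩⟩, h5⟩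
  have hnohex : NoHex L' R' (PE c) := by
    intro u1 hu1 u2 hu2 u3 hu3 w1 hw1 w2 hw2 w3 hw3 n12 n23 n13 m12 m23 m13 e1 e2 e3 e4 e5 e6
    exact hno (copies_of_hex hc κ u1 u2 u3 w1 w2 w3 (Finset.mem_filter.mp hu1).2
      (Finset.mem_filter.mp hu2).2 (Finset.mem_filter.mp hu3).2 (Finset.mem_filter.mp hw1).2
      (Finset.mem_filter.mp hw2).2 (Finset.mem_filter.mp hw3).2 n12 n23 n13 m12 m23 m13
      e1 e2 e3 e4 e5 e6)
  have hb := hex_bound L' R' (PE c) hnohex l hl
    (le_trans (Finset.card_filter_le _ _) hLc) (le_trans (Finset.card_filter_le _ _) hRc) p hp hp3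
  have h1 : (Q0.card : ℝ) ≤ 256 * (4 * p * l) := by
    have h2 := le_trans hκ (Nat.mul_le_mul_left 256 (Finset.card_le_card hsub2))
    have h3 : (Q0.card : ℝ) ≤ 256 * (((L' ×ˢ R').filter (fun q => PE c q.1 q.2)).card : ℝ) := by
      exact_mod_cast h2
    linarith
  have h2 : (Q.card : ℝ) ≤ Q0.card + 2 * l := by
    have : Q.card ≤ Q0.card + 2 * l := by omega
    exact_mod_cast this
  have h3 : (eN c L R : ℝ) = Q.card := rfl
  rw [h3]
  nlinarith

variable {G : Type*} [AddCommGroup G] [DecidableEq G]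

/-- The main theorem for the hexagon. -/
theorem main3 {c : Sym2 V → α} (hc : IsProperColouring c) (p : V → G) (m : ℕ)
    (hm : ∀ g, ((univ : Finset V).filter (fun x => p x = g)).card ≤ m)
    (hp : ∀ x x' y y', x ≠ x' → y ≠ y' → c s(x, x') = c s(y, y') → p x + p x' = p y + p y')
    (hno : ¬ HasTwoIsomorphicCopies c (subdivK 3)) (hV : 2 ≤ Fintype.card V) :
    Fintype.card V ^ 5 ≤ 4104 ^ 3 * m * (coloursUsed c).card ^ 3 := by
  classical
  set n := Fintype.card V with hn
  set C := (coloursUsed c).card with hC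
  set D := (univ : Finset V).offDiag with hD
  have hDc : D.card = n * n - n := by rw [hD, Finset.offDiag_card, Finset.card_univ]
  have hm1 : 1 ≤ m := by
    have : Nonempty V := by
      rw [← Fintype.card_pos_iff]; omega
    obtain ⟨v⟩ := this
    refine le_trans ?_ (hm (p v))
    rw [Nat.one_le_iff_ne_zero, ← Nat.pos_iff_ne_zero, Finset.card_pos]
    exact ⟨v, by simp⟩
  have hnm1' : 1 ≤ n * m := Nat.one_le_iff_ne_zero.mpr (by positivity)
  have hnm1 : (1 : ℝ) ≤ n * m := by exact_mod_cast hnm1'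
  -- cube roots
  have hroot : ∀ l : ℕ, 1 ≤ l → ∃ q : ℝ, 0 < q ∧ q ^ 3 = 8 * l := by
    intro l hl
    have hl' : (0 : ℝ) < 8 * l := by
      have : (1 : ℝ) ≤ l := by exact_mod_cast hl
      linarith
    refine ⟨(8 * (l : ℝ)) ^ ((1 : ℝ) / 3), Real.rpow_pos_of_pos hl' _, ?_⟩
    rw [← Real.rpow_natCast, ← Real.rpow_mul hl'.le]
    norm_num
  obtain ⟨P, hP0, hP3⟩ := hroot (n * m) hnm1'
  have hP2 : 2 ≤ P := by
    by_contra hcc
    push Not at hcc
    have : P ^ 3 < 2 ^ 3 := pow_lt_pow_left₀ hcc hP0.le (by norm_num)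
    rw [hP3] at this
    push_cast at this
    linarith
  have hedge : ∀ δ, (eN c (LD p δ) (RD p δ) : ℝ) ≤ 1025 * P * (LD p δ).card := by
    intro δ
    rcases Nat.eq_zero_or_pos (LD p δ).card with h0 | h0
    · have h1 : LD p δ = ∅ := Finset.card_eq_zero.mp h0
      have : eN c (LD p δ) (RD p δ) = 0 := by
        unfold eN
        rw [h1]
        simp
      rw [this, h0]; simp
    · obtain ⟨q, hq0, hq3⟩ := hroot (LD p δ).card h0
      have h := edge_bound3 hc (LD p δ) (RD p δ)
        (fun q hq => by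
          have := (Finset.mem_filter.mp hq).1
          rw [Finset.mem_offDiag] at this; exact this.2.2)
        (fun q hq => by
          have := (Finset.mem_filter.mp hq).1
          rw [Finset.mem_offDiag] at this; exact this.2.2) hno (LD p δ).card h0 le_rfl
        (le_of_eq (RD_card p δ)) q hq0 hq3
      have hqP : q ≤ P := by
        by_contra hcc
        push Not at hcc
        have h1 : P ^ 3 < q ^ 3 := pow_lt_pow_left₀ hcc hP0.le (by norm_num)
        rw [hP3, hq3] at h1
        have h2 : ((LD p δ).card : ℝ) ≤ ((n * m : ℕ) : ℝ) := by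
          exact_mod_cast LD_card_le p m hm δ
        linarith
      have hc0 : (0 : ℝ) ≤ (LD p δ).card := by positivity
      nlinarith
  have hT' : (eN c D D : ℝ) ≤ 1025 * P * D.card := by
    have h1 := eN_decomp (c := c) p hp
    rw [← hD] at h1
    have h2 : (eN c D D : ℝ) ≤ ∑ δ ∈ D.image (fun e => p e.2 - p e.1),
        (eN c (LD p δ) (RD p δ) : ℝ) := by exact_mod_cast h1
    refine le_trans h2 ?_
    calc ∑ δ ∈ D.image (fun e => p e.2 - p e.1), (eN c (LD p δ) (RD p δ) : ℝ)
        ≤ ∑ δ ∈ D.image (fun e => p e.2 - p e.1), 1025 * P * (LD p δ).card :=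
          Finset.sum_le_sum (fun δ _ => hedge δ)
      _ = 1025 * P * D.card := by
          rw [← Finset.mul_sum]
          congr 1
          have := sum_LD p
          rw [← hD] at this
          exact_mod_cast this
  have hmono := mono_count c
  have hmono2 := mono_le hc
  rw [← hD] at hmono hmono2
  set T := ((D ×ˢ D).filter (fun q => c s(q.1.1, q.1.2) = c s(q.2.1, q.2.2))).card with hT
  have hT2 : (T : ℝ) ≤ D.card + 1025 * P * D.card := by
    have : (T : ℝ) ≤ D.card + eN c D D := by exact_mod_cast hmono2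
    linarith
  have hmonoR : (D.card : ℝ) ^ 2 ≤ C * T := by exact_mod_cast hmono
  have hDR : (D.card : ℝ) = n * (n - 1) := by
    rw [hDc, Nat.cast_sub (by nlinarith)]
    push_cast
    ring
  have hn2 : (2 : ℝ) ≤ n := by exact_mod_cast hV
  have hDpos : (0 : ℝ) < D.card := by rw [hDR]; nlinarith
  have hC0 : (0 : ℝ) ≤ C := by positivity
  have h3 : (D.card : ℝ) ≤ C * (1 + 1025 * P) := by
    have : (D.card : ℝ) ^ 2 ≤ C * (D.card + 1025 * P * D.card) :=
      le_trans hmonoR (mul_le_mul_of_nonneg_left hT2 hC0)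
    have h4 : (D.card : ℝ) * D.card ≤ (C * (1 + 1025 * P)) * D.card := by nlinarith
    exact le_of_mul_le_mul_right h4 hDpos
  have h6 : (n : ℝ) ^ 2 ≤ 2052 * C * P := by
    have h7 : (n : ℝ) ^ 2 / 2 ≤ D.card := by rw [hDR]; nlinarith
    have h8 : C * (1 + 1025 * P) ≤ C * (1026 * P) :=
      mul_le_mul_of_nonneg_left (by linarith) hC0
    nlinarith
  have h9 : (n : ℝ) ^ 6 ≤ (2052 * C) ^ 3 * (8 * (n * m)) := by
    have h10 : ((n : ℝ) ^ 2) ^ 3 ≤ (2052 * C * P) ^ 3 :=
      pow_le_pow_left₀ (by positivity) h6 3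
    rw [mul_pow, hP3] at h10
    push_cast at h10
    calc (n : ℝ) ^ 6 = ((n : ℝ) ^ 2) ^ 3 := by ring
      _ ≤ _ := h10
  have h11 : (n : ℝ) ^ 5 ≤ 4104 ^ 3 * m * C ^ 3 := by
    have hnpos : (0 : ℝ) < n := by linarith
    have h12 : (2052 * (C : ℝ)) ^ 3 * (8 * ((n : ℝ) * m)) = (4104 ^ 3 * (m : ℝ) * (C : ℝ) ^ 3) * n := by
      ring
    have h13 : (n : ℝ) ^ 5 * n = (n : ℝ) ^ 6 := by ring
    have : (n : ℝ) ^ 5 * n ≤ (4104 ^ 3 * (m : ℝ) * (C : ℝ) ^ 3) * n := by
      rw [h13, ← h12]; exact h9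
    exact le_of_mul_le_mul_right this hnpos
  exact_mod_cast h11

end Final

end PoolH34Sub
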