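import Pool.Agent.H34.Sub.Greedy

set_option linter.unusedSectionVars false

namespace PoolH34Sub

open Finset

section Iter

variable {A B : Type*} [DecidableEq A] [DecidableEq B]

/-- There is no system of `t` branch vertices in `L` and pairwise non-conflicting connecting
vertices in `R`. -/
def NoSub (t : ℕ) (L : Finset A) (R : Finset B) (E : A → B → Prop) (conf : B → B → Prop) : Prop :=
  ∀ (f : Fin t → A) (g : {q : Fin t × Fin t // q.1 < q.2} → B), (∀ i, f i ∈ L) →
    Function.Injective f → (∀ q, g q ∈ R ∧ E (f q.1.1) (g q) ∧ E (f q.1.2) (g q)) →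
    (∀ q q', q ≠ q' → ¬ conf (g q) (g q')) → False

variable (R : Finset B) (E : A → B → Prop) [DecidableRel E]

/-- common neighbours -/
def CNe (u v : A) : Finset B := R.filter (fun w => E u w ∧ E v w)

/-- neighbours of `u` in `R` -/
def Nb (u : A) : Finset B := R.filter (fun w => E u w)

theorem CNe_comm (u v : A) : CNe R E u v = CNe R E v u := by
  unfold CNe
  apply Finset.filter_congr
  intro w _
  exact and_comm

theorem mem_CNe {u v : A} {w : B} : w ∈ CNe R E u v ↔ w ∈ R ∧ E u w ∧ E v w := by
  unfold CNe; rw [Finset.mem_filter]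

/-- `u` and `v` have at least one but fewer than `M` common neighbours. -/
def LSrel (M : ℕ) (u v : A) : Prop :=
  u ≠ v ∧ 0 < (CNe R E u v).card ∧ (CNe R E u v).card < M

instance (M : ℕ) : DecidableRel (LSrel R E M) := fun _ _ => by unfold LSrel; infer_instance

theorem LSrel_symm {M : ℕ} {u v : A} (h : LSrel R E M u v) : LSrel R E M v u := by
  unfold LSrel at *
  rw [CNe_comm R E v u]
  exact ⟨h.1.symm, h.2⟩

variable (conf : B → B → Prop) [DecidableRel conf]

/-- pairwise heavy vertices give the forbidden system -/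
theorem heavy_false {t : ℕ} {L : Finset A} (hno : NoSub t L R E conf)
    (csymm : ∀ a b, conf a b → conf b a)
    (h3 : ∀ u ∈ L, ∀ w', ((Nb R E u).filter (fun w => conf w w')).card ≤ 2)
    (f : Fin t → A) (hf : ∀ i, f i ∈ L) (hinj : Function.Injective f)
    (hh : ∀ i j, i ≠ j → 2 * t ^ 2 < (CNe R E (f i) (f j)).card) : False := by
  classical
  have key : ∀ S : Finset {q : Fin t × Fin t // q.1 < q.2}, S.card ≤ t ^ 2 →
      ∃ g : {q : Fin t × Fin t // q.1 < q.2} → B,
        (∀ q ∈ S, g q ∈ CNe R E (f q.1.1) (f q.1.2)) ∧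
        ∀ q ∈ S, ∀ q' ∈ S, q ≠ q' → ¬ conf (g q) (g q') := by
    intro S
    induction S using Finset.induction_on with
    | empty =>
      intro _
      by_cases hB : Nonempty B
      · exact ⟨fun _ => Classical.arbitrary B, by simp, by simp⟩
      · refine ⟨fun q => ?_, by simp, by simp⟩
        have h := hh _ _ (ne_of_lt q.2)
        have : 0 < (CNe R E (f q.1.1) (f q.1.2)).card := by omega
        exact (Finset.card_pos.mp this).choose
    | insert a S ha ih =>
      intro hc
      rw [Finset.card_insert_of_notMem ha] at hc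
      obtain ⟨g, hg1, hg2⟩ := ih (by omega)
      have hforb : (S.biUnion (fun q => (Nb R E (f a.1.1)).filter
          (fun w => conf w (g q)))).card ≤ S.card * 2 :=
        Finset.card_biUnion_le_card_mul _ _ _ (fun q _ => h3 _ (hf _) _)
      obtain ⟨w, hw⟩ : (CNe R E (f a.1.1) (f a.1.2) \ S.biUnion
          (fun q => (Nb R E (f a.1.1)).filter (fun w => conf w (g q)))).Nonempty := by
        rw [← Finset.card_pos]
        have h1 := Finset.le_card_sdiff (S.biUnion
          (fun q => (Nb R E (f a.1.1)).filter (fun w => conf w (g q))))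
          (CNe R E (f a.1.1) (f a.1.2))
        have h2 := hh _ _ (ne_of_lt a.2)
        omega
      rw [Finset.mem_sdiff] at hw
      have hwn : ∀ q ∈ S, ¬ conf w (g q) := by
        intro q hq hcf
        apply hw.2
        rw [Finset.mem_biUnion]
        have h1 := (mem_CNe R E).mp hw.1
        exact ⟨q, hq, Finset.mem_filter.mpr ⟨Finset.mem_filter.mpr ⟨h1.1, h1.2.1⟩, hcf⟩⟩
      have hupd : ∀ q ∈ S, Function.update g a w q = g q := by
        intro q hq
        apply Function.update_of_ne
        rintro rfl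
        exact ha hq
      refine ⟨Function.update g a w, ?_, ?_⟩
      · intro q hq
        rcases Finset.mem_insert.mp hq with hqa | hqS
        · rw [hqa, Function.update_self]; exact hw.1
        · rw [hupd q hqS]; exact hg1 q hqS
      · intro q hq q' hq' hne
        rcases Finset.mem_insert.mp hq with hqa | hqS
        · rcases Finset.mem_insert.mp hq' with hqa' | hqS'
          · exact absurd (hqa.trans hqa'.symm) hne
          · rw [hqa, Function.update_self, hupd q' hqS']
            exact hwn q' hqS'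
        · rcases Finset.mem_insert.mp hq' with hqa' | hqS'
          · rw [hqa', Function.update_self, hupd q hqS]
            exact fun h => hwn q hqS (csymm _ _ h)
          · rw [hupd q hqS, hupd q' hqS']
            exact hg2 q hqS q' hqS' hne
  have hIc : (univ : Finset {q : Fin t × Fin t // q.1 < q.2}).card ≤ t ^ 2 := by
    rw [Finset.card_univ]
    calc Fintype.card {q : Fin t × Fin t // q.1 < q.2} ≤ Fintype.card (Fin t × Fin t) :=
          Fintype.card_subtype_le _
      _ = t ^ 2 := by rw [Fintype.card_prod, Fintype.card_fin]; ring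
  obtain ⟨g, hg1, hg2⟩ := key univ hIc
  refine hno f g hf hinj ?_ (fun q q' h => hg2 q (mem_univ _) q' (mem_univ _) h)
  intro q
  exact (mem_CNe R E).mp (hg1 q (mem_univ _))

/-- Some vertex of a large set `S` has many light partners in `S`. -/
theorem light_step {t : ℕ} {L : Finset A} (ht : 1 ≤ t) (hno : NoSub t L R E conf)
    (csymm : ∀ a b, conf a b → conf b a)
    (h3 : ∀ u ∈ L, ∀ w', ((Nb R E u).filter (fun w => conf w w')).card ≤ 2)
    (d : ℕ) (hd : ∀ u ∈ L, d ≤ (Nb R E u).card) (S : Finset A) (hSL : S ⊆ L)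
    (hS0 : 0 < S.card) (hS : 8 * t * R.card ≤ S.card * d) :
    ∃ u ∈ S, S.card * d ^ 2 ≤ 8 * t * (2 * t ^ 2 + 1) * R.card *
      (S.filter (fun v => LSrel R E (2 * t ^ 2 + 1) u v)).card := by
  classical
  set M := 2 * t ^ 2 + 1 with hM
  let NS : B → Finset A := fun r => S.filter (fun u => E u r)
  let bad : A → A → Prop := fun u v => u = v ∨ (CNe R E u v).card < M
  have hbsymm : ∀ u v, bad u v → bad v u := by
    rintro u v (h | h)
    · exact Or.inl h.symm
    · right; rw [CNe_comm R E v u]; exact h
  have hr : ∀ r ∈ R, (NS r).card ^ 2 ≤ 4 * t *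
      ((NS r ×ˢ NS r).filter (fun q => bad q.1 q.2)).card := by
    intro r _
    by_contra hcon
    push Not at hcon
    obtain ⟨f, hf1, hf2⟩ := pick_good (NS r) bad hbsymm t hcon
    have hfL : ∀ i, f i ∈ L := fun i => hSL (Finset.mem_filter.mp (hf1 i)).1
    refine heavy_false R E conf hno csymm h3 f hfL ?_ ?_
    · intro i j hij
      by_contra hne
      exact hf2 i j hne (Or.inl hij)
    · intro i j hij
      have := hf2 i j hij
      simp only [bad, not_or] at this
      omega
  have hbad : ∀ r ∈ R, ((NS r ×ˢ NS r).filter (fun q => bad q.1 q.2)).card ≤ (NS r).card +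
      ((NS r ×ˢ NS r).filter (fun q => q.1 ≠ q.2 ∧ (CNe R E q.1 q.2).card < M)).card := by
    intro r _
    have hsub : (NS r ×ˢ NS r).filter (fun q => bad q.1 q.2) ⊆
        (NS r).image (fun u => (u, u)) ∪
        (NS r ×ˢ NS r).filter (fun q => q.1 ≠ q.2 ∧ (CNe R E q.1 q.2).card < M) := by
      intro q hq
      obtain ⟨hq1, hq2⟩ := Finset.mem_filter.mp hq
      rw [Finset.mem_union]
      by_cases he : q.1 = q.2
      · left
        rw [Finset.mem_image]
        exact ⟨q.1, (Finset.mem_product.mp hq1).1, Prod.ext rfl he⟩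
      · right
        rw [Finset.mem_filter]
        refine ⟨hq1, he, ?_⟩
        rcases hq2 with h | h
        · exact absurd h he
        · exact h
    calc _ ≤ _ := Finset.card_le_card hsub
      _ ≤ _ := Finset.card_union_le _ _
      _ ≤ _ := Nat.add_le_add_right Finset.card_image_le _
  have hlt : ∑ r ∈ R, ((NS r ×ˢ NS r).filter
      (fun q => q.1 ≠ q.2 ∧ (CNe R E q.1 q.2).card < M)).card
      ≤ M * ∑ u ∈ S, (S.filter (fun v => LSrel R E M u v)).card := by
    have e1 : ∀ r ∈ R, ((NS r ×ˢ NS r).filter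
        (fun q => q.1 ≠ q.2 ∧ (CNe R E q.1 q.2).card < M)).card
        = ∑ q ∈ (S ×ˢ S).filter (fun q => q.1 ≠ q.2 ∧ (CNe R E q.1 q.2).card < M),
          if (E q.1 r ∧ E q.2 r) then 1 else 0 := by
      intro r _
      rw [← Finset.card_filter]
      congr 1
      ext q
      simp only [NS, Finset.mem_filter, Finset.mem_product]
      tauto
    rw [Finset.sum_congr rfl e1, Finset.sum_comm]
    have e2 : ∑ u ∈ S, (S.filter (fun v => LSrel R E M u v)).card
        = ((S ×ˢ S).filter (fun q => LSrel R E M q.1 q.2)).card := by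
      rw [Finset.card_filter, Finset.sum_product]
      apply Finset.sum_congr rfl
      intro u _
      rw [Finset.card_filter]
    rw [e2]
    calc ∑ q ∈ (S ×ˢ S).filter (fun q => q.1 ≠ q.2 ∧ (CNe R E q.1 q.2).card < M),
          ∑ r ∈ R, (if (E q.1 r ∧ E q.2 r) then 1 else 0)
        = ∑ q ∈ (S ×ˢ S).filter (fun q => q.1 ≠ q.2 ∧ (CNe R E q.1 q.2).card < M),
          (CNe R E q.1 q.2).card := by
          apply Finset.sum_congr rfl
          intro q _
          rw [← Finset.card_filter]
          rfl
      _ ≤ ∑ q ∈ (S ×ˢ S).filter (fun q => q.1 ≠ q.2 ∧ (CNe R E q.1 q.2).card < M),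
          (if LSrel R E M q.1 q.2 then M else 0) := by
          apply Finset.sum_le_sum
          intro q hq
          obtain ⟨_, h1, h2⟩ := Finset.mem_filter.mp hq
          by_cases h0 : 0 < (CNe R E q.1 q.2).card
          · rw [if_pos ⟨h1, h0, h2⟩]; exact h2.le
          · have : (CNe R E q.1 q.2).card = 0 := by omega
            rw [this]; exact Nat.zero_le _
      _ ≤ ∑ q ∈ S ×ˢ S, (if LSrel R E M q.1 q.2 then M else 0) :=
          Finset.sum_le_sum_of_subset (Finset.filter_subset _ _)
      _ = M * ((S ×ˢ S).filter (fun q => LSrel R E M q.1 q.2)).card := by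
          rw [← Finset.sum_filter, Finset.sum_const, smul_eq_mul, mul_comm]
  -- the sums
  set a := ∑ r ∈ R, (NS r).card with ha
  have ha1 : a = ∑ u ∈ S, (Nb R E u).card := by
    rw [ha]
    simp only [NS, Nb, Finset.card_filter]
    exact Finset.sum_comm
  have ha2 : S.card * d ≤ a := by
    rw [ha1]
    calc S.card * d = ∑ _u ∈ S, d := by rw [Finset.sum_const, smul_eq_mul]
      _ ≤ _ := Finset.sum_le_sum (fun u hu => hd u (hSL hu))
  set X := ∑ u ∈ S, (S.filter (fun v => LSrel R E M u v)).card with hX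
  have hsq : a ^ 2 ≤ R.card * (4 * t * (a + M * X)) := by
    calc a ^ 2 ≤ R.card * ∑ r ∈ R, (NS r).card ^ 2 := sq_sum_le_card_mul_sum_sq
      _ ≤ R.card * ∑ r ∈ R, 4 * t * ((NS r).card + ((NS r ×ˢ NS r).filter
          (fun q => q.1 ≠ q.2 ∧ (CNe R E q.1 q.2).card < M)).card) := by
          apply Nat.mul_le_mul_left
          apply Finset.sum_le_sum
          intro r hrR
          exact le_trans (hr r hrR) (Nat.mul_le_mul_left _ (hbad r hrR))
      _ = R.card * (4 * t * (a + ∑ r ∈ R, ((NS r ×ˢ NS r).filter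
          (fun q => q.1 ≠ q.2 ∧ (CNe R E q.1 q.2).card < M)).card)) := by
          rw [← Finset.mul_sum, Finset.sum_add_distrib]
      _ ≤ _ := Nat.mul_le_mul_left _ (Nat.mul_le_mul_left _ (Nat.add_le_add_left hlt _))
  have hmain : (S.card * d) ^ 2 ≤ 8 * t * M * R.card * X := by
    have h1 : 2 * (R.card * (4 * t * a)) ≤ a ^ 2 := by
      have : 8 * t * R.card ≤ a := le_trans hS ha2
      nlinarith
    have h2 : (S.card * d) ^ 2 ≤ a ^ 2 := Nat.pow_le_pow_left ha2 2
    nlinarith
  obtain ⟨u, huS, hu⟩ : ∃ u ∈ S, X ≤ S.card * (S.filter (fun v => LSrel R E M u v)).card := by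
    by_contra hcon
    push Not at hcon
    have hne : S.Nonempty := Finset.card_pos.mp hS0
    have h1 : ∑ u ∈ S, S.card * (S.filter (fun v => LSrel R E M u v)).card < ∑ _u ∈ S, X :=
      Finset.sum_lt_sum_of_nonempty hne hcon
    rw [← Finset.mul_sum, Finset.sum_const, smul_eq_mul] at h1
    exact lt_irrefl _ h1
  refine ⟨u, huS, ?_⟩
  have h1 : S.card * (S.card * d ^ 2) ≤ S.card * (8 * t * M * R.card *
      (S.filter (fun v => LSrel R E M u v)).card) := by
    calc S.card * (S.card * d ^ 2) = (S.card * d) ^ 2 := by ring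
      _ ≤ 8 * t * M * R.card * X := hmain
      _ ≤ 8 * t * M * R.card * (S.card * (S.filter (fun v => LSrel R E M u v)).card) :=
          Nat.mul_le_mul_left _ hu
      _ = _ := by ring
  exact Nat.le_of_mul_le_mul_left h1 hS0

/-- The state of the iteration. -/
structure St (L : Finset A) (M k : ℕ) (f : Fin k → A) (S : Finset A) : Prop where
  mem : ∀ i, f i ∈ L
  sub : S ⊆ L
  pair : ∀ i j, i ≠ j → LSrel R E M (f i) (f j)
  cand : ∀ v ∈ S, ∀ i, LSrel R E M (f i) v
  sep : ∀ i j i' j', i < j → i' < j' → (i ≠ i' ∨ j ≠ j') → ∀ w ∈ CNe R E (f i) (f j),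
    ∀ w' ∈ CNe R E (f i') (f j'), ¬ conf w w'
  csep : ∀ v ∈ S, ∀ i, ∀ w ∈ CNe R E (f i) v, ∀ a b, a ≠ b → ∀ w' ∈ CNe R E (f a) (f b),
    ¬ conf w w'

/-- Adding a candidate as a new branch vertex. -/
theorem extend {L : Finset A} {M k : ℕ} {f : Fin k → A} {S : Finset A}
    (crefl : ∀ a, conf a a) (csymm : ∀ a b, conf a b → conf b a)
    (h4 : ∀ u ∈ L, ∀ w ∈ Nb R E u, ∀ w' ∈ Nb R E u, conf w w' → w = w')
    (hst : St R E conf L M k f S) (u : A) (hu : u ∈ S) :
    St R E conf L M (k + 1) (Fin.cons u f) ∅ := by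
  have huL := hst.sub hu
  refine ⟨?_, Finset.empty_subset _, ?_, by simp, ?_, by simp⟩
  · intro i
    refine Fin.cases ?_ ?_ i
    · simpa using huL
    · intro j; simpa using hst.mem j
  · intro i j
    refine Fin.cases ?_ ?_ i
    · refine Fin.cases ?_ ?_ j
      · intro h; exact absurd rfl h
      · intro j' _
        simp only [Fin.cons_zero, Fin.cons_succ]
        exact LSrel_symm R E (hst.cand u hu j')
    · intro i'
      refine Fin.cases ?_ ?_ j
      · intro _
        simp only [Fin.cons_zero, Fin.cons_succ]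
        exact hst.cand u hu i'
      · intro j' hne
        simp only [Fin.cons_succ]
        exact hst.pair i' j' (fun h => hne (by rw [h]))
  · -- separation
    have hnew : ∀ j : Fin k, ∀ w ∈ CNe R E u (f j), ∀ a b, a ≠ b → ∀ w' ∈ CNe R E (f a) (f b),
        ¬ conf w w' := by
      intro j w hw
      rw [CNe_comm] at hw
      exact hst.csep u hu j w hw
    intro i j i' j'
    refine Fin.cases ?_ ?_ i
    · refine Fin.cases ?_ ?_ j
      · intro h; exact absurd h (lt_irrefl _)
      · intro j1 _
        refine Fin.cases ?_ ?_ i'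
        · refine Fin.cases ?_ ?_ j'
          · intro h; exact absurd h (lt_irrefl _)
          · intro j2 _ hne w hw w' hw' hcf
            simp only [Fin.cons_zero, Fin.cons_succ] at hw hw'
            have hj : j1 ≠ j2 := by
              rcases hne with h | h
              · exact absurd rfl h
              · intro h'; exact h (by rw [h'])
            have h1 := (mem_CNe R E).mp hw
            have h2 := (mem_CNe R E).mp hw'
            have heq : w = w' := h4 u huL w (Finset.mem_filter.mpr ⟨h1.1, h1.2.1⟩) w'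
              (Finset.mem_filter.mpr ⟨h2.1, h2.2.1⟩) hcf
            have h3 : w ∈ CNe R E (f j1) (f j2) := by
              rw [mem_CNe]
              exact ⟨h1.1, h1.2.2, heq ▸ h2.2.2⟩
            exact hnew j1 w hw j1 j2 hj w h3 (crefl w)
        · intro a
          refine Fin.cases ?_ ?_ j'
          · intro h; exact absurd h (by simp)
          · intro b hab _ w hw w' hw'
            simp only [Fin.cons_zero, Fin.cons_succ] at hw hw'
            have hab' : a ≠ b := by
              rintro rfl; exact lt_irrefl _ hab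
            exact hnew j1 w hw a b hab' w' hw'
    · intro a
      refine Fin.cases ?_ ?_ j
      · intro h; exact absurd h (by simp)
      · intro b hab
        have hab' : a < b := by simpa using hab
        refine Fin.cases ?_ ?_ i'
        · refine Fin.cases ?_ ?_ j'
          · intro h; exact absurd h (lt_irrefl _)
          · intro j2 _ _ w hw w' hw' hcf
            simp only [Fin.cons_zero, Fin.cons_succ] at hw hw'
            exact hnew j2 w' hw' a b (ne_of_lt hab') w hw (csymm _ _ hcf)
        · intro a'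
          refine Fin.cases ?_ ?_ j'
          · intro h; exact absurd h (by simp)
          · intro b' hab2 hne w hw w' hw'
            simp only [Fin.cons_succ] at hw hw'
            have hab2' : a' < b' := by simpa using hab2
            refine hst.sep a b a' b' hab' hab2' ?_ w hw w' hw'
            rcases hne with h | h
            · exact Or.inl (fun e => h (by rw [e]))
            · exact Or.inr (fun e => h (by rw [e]))

/-- One step of the iteration. -/
theorem step {t : ℕ} {L : Finset A} (ht : 1 ≤ t) (hno : NoSub t L R E conf)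
    (crefl : ∀ a, conf a a) (csymm : ∀ a b, conf a b → conf b a)
    (h3 : ∀ u ∈ L, ∀ w', ((Nb R E u).filter (fun w => conf w w')).card ≤ 2)
    (h4 : ∀ u ∈ L, ∀ w ∈ Nb R E u, ∀ w' ∈ Nb R E u, conf w w' → w = w')
    (d Dm : ℕ) (hd : ∀ u ∈ L, d ≤ (Nb R E u).card)
    (hDm : ∀ w ∈ R, (L.filter (fun u => E u w)).card ≤ Dm)
    {k : ℕ} {f : Fin k → A} {S : Finset A} (hk : k + 1 ≤ t)
    (hst : St R E conf L (2 * t ^ 2 + 1) k f S)
    (hS0 : 0 < S.card) (hS : 8 * t * R.card ≤ S.card * d) :
    ∃ (f' : Fin (k + 1) → A) (S' : Finset A), St R E conf L (2 * t ^ 2 + 1) (k + 1) f' S' ∧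
      S.card * d ^ 2 ≤ 8 * t * (2 * t ^ 2 + 1) * R.card *
        (S'.card + 2 * t ^ 3 * (2 * t ^ 2 + 1) * Dm) := by
  classical
  set M := 2 * t ^ 2 + 1 with hM
  obtain ⟨u, huS, hu⟩ := light_step R E conf ht hno csymm h3 d hd S hst.sub hS0 hS
  rw [← hM] at hu
  have hext := extend R E conf crefl csymm h4 hst u huS
  set f' : Fin (k + 1) → A := Fin.cons u f with hf'
  -- the forbidden connectors
  set Z : Finset B := (univ : Finset (Fin (k+1) × Fin (k+1) × Fin (k+1))).biUnion (fun x =>
    if x.2.1 = x.2.2 then ∅ else (CNe R E (f' x.2.1) (f' x.2.2)).biUnion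
      (fun w' => (Nb R E (f' x.1)).filter (fun w => conf w w'))) with hZ
  have hZc : Z.card ≤ 2 * t ^ 3 * M := by
    have h1 : Z.card ≤ (univ : Finset (Fin (k+1) × Fin (k+1) × Fin (k+1))).card * (M * 2) := by
      apply Finset.card_biUnion_le_card_mul
      intro x _
      split_ifs with hx
      · simp
      · calc _ ≤ (CNe R E (f' x.2.1) (f' x.2.2)).card * 2 :=
              Finset.card_biUnion_le_card_mul _ _ _ (fun w' _ => h3 _ (hext.mem _) _)
          _ ≤ M * 2 := Nat.mul_le_mul_right _ (hext.pair _ _ hx).2.2.le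
    have h2 : (univ : Finset (Fin (k+1) × Fin (k+1) × Fin (k+1))).card = (k + 1) ^ 3 := by
      rw [Finset.card_univ, Fintype.card_prod, Fintype.card_prod, Fintype.card_fin]
      ring
    have h5 : (k + 1) ^ 3 ≤ t ^ 3 := Nat.pow_le_pow_left hk 3
    calc Z.card ≤ (k + 1) ^ 3 * (M * 2) := by rw [← h2]; exact h1
      _ ≤ t ^ 3 * (M * 2) := Nat.mul_le_mul_right _ h5
      _ = _ := by ring
  set S1 := S.filter (fun v => LSrel R E M u v) with hS1
  set S' := S1.filter (fun v => ∀ z ∈ Z, ¬ E v z) with hS'
  have hcard : S1.card ≤ S'.card + 2 * t ^ 3 * M * Dm := by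
    have hsub : S1 ⊆ S' ∪ Z.biUnion (fun z => L.filter (fun v => E v z)) := by
      intro v hv
      rw [Finset.mem_union]
      by_cases h : ∀ z ∈ Z, ¬ E v z
      · left; rw [hS', Finset.mem_filter]; exact ⟨hv, h⟩
      · right
        push Not at h
        obtain ⟨z, hz, hvz⟩ := h
        rw [Finset.mem_biUnion]
        exact ⟨z, hz, Finset.mem_filter.mpr ⟨hst.sub (Finset.mem_filter.mp hv).1, hvz⟩⟩
    have hZR : ∀ z ∈ Z, z ∈ R := by
      intro z hz
      rw [hZ, Finset.mem_biUnion] at hz
      obtain ⟨x, _, hx⟩ := hz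
      split_ifs at hx with h
      · simp at hx
      · rw [Finset.mem_biUnion] at hx
        obtain ⟨w', _, hw'⟩ := hx
        exact (Finset.mem_filter.mp (Finset.mem_filter.mp hw').1).1
    calc S1.card ≤ _ := Finset.card_le_card hsub
      _ ≤ _ := Finset.card_union_le _ _
      _ ≤ S'.card + Z.card * Dm := by
          apply Nat.add_le_add_left
          exact Finset.card_biUnion_le_card_mul _ _ _ (fun z hz => hDm z (hZR z hz))
      _ ≤ _ := Nat.add_le_add_left (Nat.mul_le_mul_right _ hZc) _
  refine ⟨f', S', ⟨hext.mem, ?_, hext.pair, ?_, hext.sep, ?_⟩, ?_⟩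
  · intro v hv
    exact hst.sub (Finset.mem_filter.mp (Finset.mem_filter.mp hv).1).1
  · intro v hv i
    have hv1 := Finset.mem_filter.mp (Finset.mem_filter.mp hv).1
    rw [hf']
    refine Fin.cases ?_ ?_ i
    · simpa using hv1.2
    · intro j; simpa using hst.cand v hv1.1 j
  · intro v hv i w hw a b hab w' hw' hcf
    have hvZ := (Finset.mem_filter.mp hv).2
    have h1 := (mem_CNe R E).mp hw
    apply hvZ w _ h1.2.2
    rw [hZ, Finset.mem_biUnion]
    refine ⟨(i, a, b), mem_univ _, ?_⟩
    rw [if_neg hab, Finset.mem_biUnion]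
    exact ⟨w', hw', Finset.mem_filter.mpr ⟨Finset.mem_filter.mpr ⟨h1.1, h1.2.1⟩, hcf⟩⟩
  · calc S.card * d ^ 2 ≤ 8 * t * M * R.card * S1.card := hu
      _ ≤ _ := Nat.mul_le_mul_left _ hcard

end Iter

end PoolH34Sub
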