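import Mathlib

namespace PoolH34Sub

/-- The three numerical conditions of the iteration. -/
theorem real_part (t M : ℝ) (q : ℕ) (ht : 0 < t) (hM : 0 < M)
    (g h p s k l Rc Lc φ : ℝ) (hg : 0 < g) (hh : 0 < h) (hp : 0 < p) (hs : 0 < s)
    (hl : 0 < l) (hRc : 0 < Rc) (hLc : 0 < Lc)
    (i1 : g ≤ 3 * p) (i2 : g ^ 3 ≤ 16 * p * h ^ 2) (i3 : h ≤ 3 * s) (i4 : h ^ 3 ≤ 16 * s * k)
    (i5 : p ^ 2 * Rc ≤ l * h ^ 2) (i6 : l * k ≤ 4 * s ^ 2 * Lc) (i7 : s ^ 2 ≤ Rc)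
    (hφ : φ = (s ^ 2) ^ 2 / (8 * t * M * Rc))
    (hC6 : 729 * (512 * t) ^ 2 * l ≤ g ^ 6)
    (hCa : 1536 * t ≤ g ^ 2 * (g ^ 4 / (16 * t * M * (3888 * l))) ^ (q + 1))
    (hCb : 131072 * t ^ 4 * M ^ 2 ≤ g ^ 2 * (g ^ 4 / (16 * t * M * (3888 * l))) ^ (q + 1)) :
    8 * t * Rc ≤ Lc * s ^ 2 ∧ 8 * t * Rc ≤ Lc * (φ / 2) ^ (q + 1) * s ^ 2 ∧
      4 * t ^ 3 * M * (4 * p ^ 2) ≤ Lc * (φ / 2) ^ (q + 1) * φ := by
  have hk : 0 < k := by
    have : 0 < 16 * s * k := lt_of_lt_of_le (by positivity) i4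
    have h16 : 0 < 16 * s := by positivity
    exact (pos_iff_pos_of_mul_pos this).mp h16
  -- P and X
  set P := g ^ 4 / (16 * t * M * (3888 * l)) with hP
  have hP0 : 0 < P := by rw [hP]; positivity
  set Y := s ^ 4 * p ^ 2 / (16 * t * M * (l * h ^ 2)) with hY
  have hY0 : 0 < Y := by rw [hY]; positivity
  have hh2p2 : g ^ 4 ≤ 48 * (h ^ 2 * p ^ 2) := by
    calc g ^ 4 = g * g ^ 3 := by ring
      _ ≤ (3 * p) * (16 * p * h ^ 2) := mul_le_mul i1 i2 (by positivity) (by positivity)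
      _ = 48 * (h ^ 2 * p ^ 2) := by ring
  have hs4 : h ^ 4 ≤ 81 * s ^ 4 := by
    calc h ^ 4 ≤ (3 * s) ^ 4 := pow_le_pow_left₀ hh.le i3 4
      _ = 81 * s ^ 4 := by ring
  have hs3 : h ^ 3 ≤ 27 * s ^ 3 := by
    calc h ^ 3 ≤ (3 * s) ^ 3 := pow_le_pow_left₀ hh.le i3 3
      _ = 27 * s ^ 3 := by ring
  have hs5 : h ^ 5 ≤ 243 * s ^ 5 := by
    calc h ^ 5 ≤ (3 * s) ^ 5 := pow_le_pow_left₀ hh.le i3 5
      _ = 243 * s ^ 5 := by ring
  have hPY : P ≤ Y := by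
    rw [hP, hY, div_le_div_iff₀ (by positivity) (by positivity)]
    have h1 : g ^ 4 * h ^ 2 ≤ 3888 * (s ^ 4 * p ^ 2) := by
      calc g ^ 4 * h ^ 2 ≤ 48 * (h ^ 2 * p ^ 2) * h ^ 2 :=
            mul_le_mul_of_nonneg_right hh2p2 (by positivity)
        _ = 48 * p ^ 2 * h ^ 4 := by ring
        _ ≤ 48 * p ^ 2 * (81 * s ^ 4) := mul_le_mul_of_nonneg_left hs4 (by positivity)
        _ = 3888 * (s ^ 4 * p ^ 2) := by ring
    calc g ^ 4 * (16 * t * M * (l * h ^ 2)) = (16 * t * M * l) * (g ^ 4 * h ^ 2) := by ring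
      _ ≤ (16 * t * M * l) * (3888 * (s ^ 4 * p ^ 2)) :=
          mul_le_mul_of_nonneg_left h1 (by positivity)
      _ = s ^ 4 * p ^ 2 * (16 * t * M * (3888 * l)) := by ring
  have hYφ : Y ≤ φ / 2 := by
    rw [hY, hφ, div_div, div_le_div_iff₀ (by positivity) (by positivity)]
    calc s ^ 4 * p ^ 2 * (8 * t * M * Rc * 2) = (16 * t * M * s ^ 4) * (p ^ 2 * Rc) := by ring
      _ ≤ (16 * t * M * s ^ 4) * (l * h ^ 2) := mul_le_mul_of_nonneg_left i5 (by positivity)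
      _ = (s ^ 2) ^ 2 * (16 * t * M * (l * h ^ 2)) := by ring
  have hφ0 : 0 < φ := by linarith
  -- the basic transfer: from `c * 32 t h^2 ≤ k p^2 * Z`
  have transfer : ∀ Z : ℝ, 0 < Z → 512 * t * s ≤ h * p ^ 2 * Z → 8 * t * Rc ≤ Lc * Z * s ^ 2 := by
    intro Z hZ hz
    have h1 : 512 * t * s * h ^ 2 ≤ 16 * s * (k * p ^ 2 * Z) := by
      calc 512 * t * s * h ^ 2 ≤ (h * p ^ 2 * Z) * h ^ 2 :=
            mul_le_mul_of_nonneg_right hz (by positivity)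
        _ = p ^ 2 * Z * h ^ 3 := by ring
        _ ≤ p ^ 2 * Z * (16 * s * k) := mul_le_mul_of_nonneg_left i4 (by positivity)
        _ = 16 * s * (k * p ^ 2 * Z) := by ring
    have h2 : 32 * t * h ^ 2 ≤ k * p ^ 2 * Z := by
      have h16 : 0 < 16 * s := by positivity
      have : (16 * s) * (32 * t * h ^ 2) ≤ (16 * s) * (k * p ^ 2 * Z) := by linarith
      exact le_of_mul_le_mul_left this h16
    have h3 : 8 * t * Rc * p ^ 2 ≤ Lc * Z * s ^ 2 * p ^ 2 := by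
      calc 8 * t * Rc * p ^ 2 = 8 * t * (p ^ 2 * Rc) := by ring
        _ ≤ 8 * t * (l * h ^ 2) := mul_le_mul_of_nonneg_left i5 (by positivity)
        _ = l * (32 * t * h ^ 2) / 4 := by ring
        _ ≤ l * (k * p ^ 2 * Z) / 4 := by
            have := mul_le_mul_of_nonneg_left h2 hl.le
            linarith
        _ = (l * k) * (p ^ 2 * Z) / 4 := by ring
        _ ≤ (4 * s ^ 2 * Lc) * (p ^ 2 * Z) / 4 := by
            have : (l * k) * (p ^ 2 * Z) ≤ (4 * s ^ 2 * Lc) * (p ^ 2 * Z) :=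
              mul_le_mul_of_nonneg_right i6 (by positivity)
            linarith
        _ = Lc * Z * s ^ 2 * p ^ 2 := by ring
    exact le_of_mul_le_mul_right h3 (by positivity)
  refine ⟨?_, ?_, ?_⟩
  · -- (a0)
    have h1 : 512 * t * s ≤ h * p ^ 2 * 1 := by
      have e1 : (512 * t * s) ^ 2 * p ^ 2 ≤ (h * p ^ 2) ^ 2 * p ^ 2 := by
        have a1 : s ^ 2 * p ^ 2 ≤ l * h ^ 2 := by
          calc s ^ 2 * p ^ 2 ≤ Rc * p ^ 2 := mul_le_mul_of_nonneg_right i7 (by positivity)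
            _ = p ^ 2 * Rc := by ring
            _ ≤ l * h ^ 2 := i5
        have a2 : g ^ 6 ≤ 729 * p ^ 6 := by
          calc g ^ 6 ≤ (3 * p) ^ 6 := pow_le_pow_left₀ hg.le i1 6
            _ = 729 * p ^ 6 := by ring
        have a3 : (512 * t) ^ 2 * l ≤ p ^ 6 := by linarith
        calc (512 * t * s) ^ 2 * p ^ 2 = (512 * t) ^ 2 * (s ^ 2 * p ^ 2) := by ring
          _ ≤ (512 * t) ^ 2 * (l * h ^ 2) := mul_le_mul_of_nonneg_left a1 (by positivity)
          _ = ((512 * t) ^ 2 * l) * h ^ 2 := by ring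
          _ ≤ p ^ 6 * h ^ 2 := mul_le_mul_of_nonneg_right a3 (by positivity)
          _ = (h * p ^ 2) ^ 2 * p ^ 2 := by ring
      have e2 : (512 * t * s) ^ 2 ≤ (h * p ^ 2) ^ 2 := le_of_mul_le_mul_right e1 (by positivity)
      rw [mul_one]
      exact le_of_sq_le_sq e2 (by positivity)
    have := transfer 1 one_pos h1
    linarith
  · -- (a)
    apply transfer _ (by positivity)
    have h1 : P ^ q * Y ≤ (φ / 2) ^ (q + 1) := by
      rw [pow_succ]
      apply mul_le_mul _ hYφ hY0.le (by positivity)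
      exact pow_le_pow_left₀ hP0.le (hPY.trans hYφ) q
    have h2 : h * p ^ 2 * (P ^ q * Y) ≤ h * p ^ 2 * (φ / 2) ^ (q + 1) :=
      mul_le_mul_of_nonneg_left h1 (by positivity)
    refine le_trans ?_ h2
    -- h p^2 Y ≥ s * g^2 P / 3
    have h3 : s * (g ^ 2 * P / 3) ≤ h * p ^ 2 * Y := by
      have e1 : s * (g ^ 2 * P / 3) = (s * g ^ 6) / (16 * t * M * (11664 * l)) := by
        rw [hP]; field_simp; ring
      have e2 : h * p ^ 2 * Y = (s ^ 4 * p ^ 4) / (16 * t * M * (l * h)) := by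
        rw [hY]; field_simp
      rw [e1, e2, div_le_div_iff₀ (by positivity) (by positivity)]
      have e3 : g ^ 6 * h ≤ 11664 * (s ^ 3 * p ^ 4) := by
        calc g ^ 6 * h = g ^ 4 * g ^ 2 * h := by ring
          _ ≤ (48 * (h ^ 2 * p ^ 2)) * (3 * p) ^ 2 * h := by
              apply mul_le_mul_of_nonneg_right _ hh.le
              apply mul_le_mul hh2p2 (pow_le_pow_left₀ hg.le i1 2) (by positivity) (by positivity)
          _ = 432 * p ^ 4 * h ^ 3 := by ring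
          _ ≤ 432 * p ^ 4 * (27 * s ^ 3) := mul_le_mul_of_nonneg_left hs3 (by positivity)
          _ = 11664 * (s ^ 3 * p ^ 4) := by ring
      calc s * g ^ 6 * (16 * t * M * (l * h)) = (16 * t * M * l * s) * (g ^ 6 * h) := by ring
        _ ≤ (16 * t * M * l * s) * (11664 * (s ^ 3 * p ^ 4)) :=
            mul_le_mul_of_nonneg_left e3 (by positivity)
        _ = s ^ 4 * p ^ 4 * (16 * t * M * (11664 * l)) := by ring
    calc 512 * t * s = s * (1536 * t) / 3 := by ring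
      _ ≤ s * (g ^ 2 * P ^ (q + 1)) / 3 := by
          have := mul_le_mul_of_nonneg_left hCa hs.le
          linarith
      _ = P ^ q * (s * (g ^ 2 * P / 3)) := by ring
      _ ≤ P ^ q * (h * p ^ 2 * Y) := mul_le_mul_of_nonneg_left h3 (by positivity)
      _ = h * p ^ 2 * (P ^ q * Y) := by ring
  · -- (b)
    have h1 : P ^ q * Y ≤ (φ / 2) ^ (q + 1) := by
      rw [pow_succ]
      apply mul_le_mul _ hYφ hY0.le (by positivity)
      exact pow_le_pow_left₀ hP0.le (hPY.trans hYφ) q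
    have h2 : 2 * Y ≤ φ := by linarith
    have h3 : Lc * (P ^ q * Y) * (2 * Y) ≤ Lc * (φ / 2) ^ (q + 1) * φ := by
      apply mul_le_mul _ h2 (by positivity) (by positivity)
      exact mul_le_mul_of_nonneg_left h1 hLc.le
    refine le_trans ?_ h3
    -- multiply by 64 s^3
    have h4 : h ^ 3 * l ≤ 64 * s ^ 3 * Lc := by
      calc h ^ 3 * l ≤ (16 * s * k) * l := mul_le_mul_of_nonneg_right i4 hl.le
        _ = 16 * s * (l * k) := by ring
        _ ≤ 16 * s * (4 * s ^ 2 * Lc) := mul_le_mul_of_nonneg_left i6 (by positivity)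
        _ = 64 * s ^ 3 * Lc := by ring
    -- l h^3 Y^2 ≥ p^2 s^3 * (g^2 P / 16) / (16 t M)
    have h5 : p ^ 2 * s ^ 3 * (g ^ 2 * P / (256 * t * M)) ≤ l * h ^ 3 * Y ^ 2 := by
      have e1 : p ^ 2 * s ^ 3 * (g ^ 2 * P / (256 * t * M))
          = (p ^ 2 * s ^ 3 * g ^ 6) / ((16 * t * M) ^ 2 * (62208 * l)) := by
        rw [hP]; field_simp; ring
      have e2 : l * h ^ 3 * Y ^ 2 = (s ^ 8 * p ^ 4) / ((16 * t * M) ^ 2 * (l * h)) := by
        rw [hY]; field_simp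
      rw [e1, e2, div_le_div_iff₀ (by positivity) (by positivity)]
      have e3 : g ^ 6 * h ≤ 62208 * (s ^ 5 * p ^ 2) := by
        calc g ^ 6 * h = (g ^ 3) ^ 2 * h := by ring
          _ ≤ (16 * p * h ^ 2) ^ 2 * h := by
              apply mul_le_mul_of_nonneg_right _ hh.le
              exact pow_le_pow_left₀ (by positivity) i2 2
          _ = 256 * p ^ 2 * h ^ 5 := by ring
          _ ≤ 256 * p ^ 2 * (243 * s ^ 5) := mul_le_mul_of_nonneg_left hs5 (by positivity)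
          _ = 62208 * (s ^ 5 * p ^ 2) := by ring
      calc p ^ 2 * s ^ 3 * g ^ 6 * ((16 * t * M) ^ 2 * (l * h))
          = ((16 * t * M) ^ 2 * l * p ^ 2 * s ^ 3) * (g ^ 6 * h) := by ring
        _ ≤ ((16 * t * M) ^ 2 * l * p ^ 2 * s ^ 3) * (62208 * (s ^ 5 * p ^ 2)) :=
            mul_le_mul_of_nonneg_left e3 (by positivity)
        _ = s ^ 8 * p ^ 4 * ((16 * t * M) ^ 2 * (62208 * l)) := by ring
    have h6 : 512 * t ^ 3 * M * (p ^ 2 * s ^ 3) ≤ P ^ q * (l * h ^ 3 * Y ^ 2) := by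
      have a1 : 512 * t ^ 3 * M ≤ g ^ 2 * P ^ (q + 1) / (256 * t * M) := by
        rw [le_div_iff₀ (by positivity)]
        calc 512 * t ^ 3 * M * (256 * t * M) = 131072 * t ^ 4 * M ^ 2 := by ring
          _ ≤ _ := hCb
      calc 512 * t ^ 3 * M * (p ^ 2 * s ^ 3)
          ≤ (g ^ 2 * P ^ (q + 1) / (256 * t * M)) * (p ^ 2 * s ^ 3) :=
            mul_le_mul_of_nonneg_right a1 (by positivity)
        _ = P ^ q * (p ^ 2 * s ^ 3 * (g ^ 2 * P / (256 * t * M))) := by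
            rw [pow_succ]; ring
        _ ≤ P ^ q * (l * h ^ 3 * Y ^ 2) := mul_le_mul_of_nonneg_left h5 (by positivity)
    have h7 : (32 * s ^ 3) * (4 * t ^ 3 * M * (4 * p ^ 2)) ≤
        (32 * s ^ 3) * (Lc * (P ^ q * Y) * (2 * Y)) := by
      calc (32 * s ^ 3) * (4 * t ^ 3 * M * (4 * p ^ 2))
          = 512 * t ^ 3 * M * (p ^ 2 * s ^ 3) := by ring
        _ ≤ P ^ q * (l * h ^ 3 * Y ^ 2) := h6
        _ = (h ^ 3 * l) * (P ^ q * Y ^ 2) := by ring
        _ ≤ (64 * s ^ 3 * Lc) * (P ^ q * Y ^ 2) :=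
            mul_le_mul_of_nonneg_right h4 (by positivity)
        _ = (32 * s ^ 3) * (Lc * (P ^ q * Y) * (2 * Y)) := by ring
    exact le_of_mul_le_mul_left h7 (by positivity)

end PoolH34Sub
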