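import Pool.Agent.H34.Sub.Classes
import Pool.Agent.H34.Sub.RealPart

set_option linter.unusedSectionVars false

namespace PoolH34Sub

open Finset

theorem NoSub.mono {A B : Type*} {t : ℕ} {L L' : Finset A} {R R' : Finset B} {E : A → B → Prop}
    {conf : B → B → Prop} (h : NoSub t L R E conf) (hL : L' ⊆ L) (hR : R' ⊆ R) :
    NoSub t L' R' E conf := by
  intro f g hf hinj hg hc
  exact h f g (fun i => hL (hf i)) hinj (fun q => ⟨hR (hg q).1, (hg q).2⟩) hc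

/-- The constant. -/
noncomputable def CJ (r : ℕ) : ℝ :=
  131072 * ((r : ℝ) + 2) ^ 4 * (2 * ((r : ℝ) + 2) ^ 2 + 1) ^ 2 * 1536 ^ r

noncomputable def KJ (r : ℕ) : ℝ :=
  CJ r * (16 * ((r : ℝ) + 2) * (2 * ((r : ℝ) + 2) ^ 2 + 1) * 3888) ^ r


theorem swap_sum {A B : Type*} [DecidableEq A] [DecidableEq B] (L : Finset A) (R : Finset B)
    (E : A → B → Prop) [DecidableRel E] :
    ∑ w ∈ R, (L.filter (fun u => E u w)).card = ∑ u ∈ L, (Nb R E u).card := by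
  unfold Nb
  have h1 : ∀ w ∈ R, (L.filter (fun u => E u w)).card = ∑ u ∈ L, if E u w then 1 else 0 :=
    fun w _ => Finset.card_filter _ _
  have h2 : ∀ u ∈ L, (R.filter (fun w => E u w)).card = ∑ w ∈ R, if E u w then 1 else 0 :=
    fun w _ => Finset.card_filter _ _
  rw [Finset.sum_congr rfl h1, Finset.sum_congr rfl h2]
  exact Finset.sum_comm

theorem edge_sum {A B : Type*} [DecidableEq A] [DecidableEq B] (L : Finset A) (R : Finset B)
    (E : A → B → Prop) [DecidableRel E] :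
    ((L ×ˢ R).filter (fun x => E x.1 x.2)).card = ∑ w ∈ R, (L.filter (fun u => E u w)).card := by
  rw [Finset.card_filter, Finset.sum_product_right]
  apply Finset.sum_congr rfl
  intro w _
  rw [Finset.card_filter]

/-- The numerical consequences of the assumption that there are many edges. -/
theorem num_part (r : ℕ) (hr : 1 ≤ r) (g l t M : ℝ) (hl : 1 ≤ l) (hg0 : 0 < g)
    (htR : t = (r : ℝ) + 2) (hMR : M = 2 * ((r : ℝ) + 2) ^ 2 + 1)
    (hcon : KJ r * l ^ r < (g ^ 2) ^ (2 * r + 1)) :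
    729 * (512 * t) ^ 2 * l ≤ g ^ 6 ∧
    1536 * t ≤ g ^ 2 * (g ^ 4 / (16 * t * M * (3888 * l))) ^ r ∧
    131072 * t ^ 4 * M ^ 2 ≤ g ^ 2 * (g ^ 4 / (16 * t * M * (3888 * l))) ^ r := by
  have hlp : 0 < l := by linarith
  have hr0 : (0 : ℝ) ≤ (r : ℝ) := Nat.cast_nonneg r
  have h5 : (1 : ℝ) ≤ t := by rw [htR]; linarith
  have h6 : (1 : ℝ) ≤ M := by rw [hMR]; nlinarith [sq_nonneg ((r : ℝ) + 2)]
  have htp : 0 < t := by linarith
  have hMp : 0 < M := by linarith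
  have h2t : 2 * t ≤ M := by
    rw [hMR, htR]
    nlinarith [sq_nonneg ((r : ℝ) + 2 - 1)]
  have hCJe : CJ r = 131072 * t ^ 4 * M ^ 2 * 1536 ^ r := by
    unfold CJ; rw [htR, hMR]
  have hKJe : KJ r = CJ r * (16 * t * M * 3888) ^ r := by
    unfold KJ; rw [htR, hMR]
  have a3 : (1 : ℝ) ≤ 1536 ^ r := one_le_pow₀ (by norm_num)
  have b1 : (1 : ℝ) ≤ t ^ 4 := one_le_pow₀ h5
  have b2 : (1 : ℝ) ≤ M ^ 2 := one_le_pow₀ h6
  have b3 : (1 : ℝ) ≤ t ^ 4 * M ^ 2 := by nlinarith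
  have hCJ1 : 131072 * t ^ 4 * M ^ 2 ≤ CJ r := by
    rw [hCJe]
    have : (0 : ℝ) ≤ 131072 * t ^ 4 * M ^ 2 := by positivity
    nlinarith
  have hCJ2 : 1536 ^ r ≤ CJ r := by
    rw [hCJe]
    have : (0 : ℝ) < 1536 ^ r := by positivity
    nlinarith
  have hCJ3 : 1 < CJ r := by nlinarith
  have hbig : CJ r ≤ g ^ 2 * (g ^ 4 / (16 * t * M * (3888 * l))) ^ r := by
    have h2 : (g ^ 2) ^ (2 * r + 1) = g ^ 2 * (g ^ 4) ^ r := by
      rw [pow_succ, ← pow_mul, ← pow_mul]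
      have : 2 * (2 * r) = 4 * r := by ring
      rw [this]; ring
    rw [div_pow, mul_div_assoc', le_div_iff₀ (by positivity), ← h2]
    refine le_trans (le_of_eq ?_) hcon.le
    rw [hKJe, mul_assoc (CJ r), ← mul_pow]
    congr 2
    ring
  have hbig2 : CJ r * (16 * t * M * (3888 * l)) ^ r ≤ g ^ 2 * (g ^ 4) ^ r := by
    rw [div_pow, mul_div_assoc', le_div_iff₀ (by positivity)] at hbig
    exact hbig
  have hg1 : 1 ≤ g := by
    by_contra hc
    push Not at hc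
    have h1 : g ^ 2 < 1 := by nlinarith
    have h3 : (g ^ 4) ^ r ≤ 1 := by
      apply pow_le_one₀ (by positivity)
      have : g ^ 4 = (g ^ 2) ^ 2 := by ring
      rw [this]; nlinarith [sq_nonneg g]
    have h4 : g ^ 2 * (g ^ 4) ^ r ≤ 1 * 1 :=
      mul_le_mul h1.le h3 (by positivity) (by norm_num)
    have h7 : 1 ≤ (16 * t * M * (3888 * l)) ^ r := by
      apply one_le_pow₀
      have h7 : (1 : ℝ) ≤ t * M := by nlinarith
      have h8 : (1 : ℝ) ≤ t * M * l := by nlinarith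
      nlinarith
    nlinarith
  refine ⟨?_, ?_, le_trans hCJ1 hbig⟩
  · have h1 : (729 * (512 * t) ^ 2 * l) ^ r ≤ (g ^ 6) ^ r := by
      have e1 : (729 * (512 * t) ^ 2 * l) ≤ 1536 * (16 * t * M * (3888 * l)) := by
        have : t * (2 * t) ≤ t * M := mul_le_mul_of_nonneg_left h2t htp.le
        have h3 : t * (2 * t) * l ≤ t * M * l := mul_le_mul_of_nonneg_right this hlp.le
        have h9 : 0 ≤ t * M * l := by positivity
        nlinarith
      calc (729 * (512 * t) ^ 2 * l) ^ r ≤ (1536 * (16 * t * M * (3888 * l))) ^ r :=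
            pow_le_pow_left₀ (by positivity) e1 r
        _ = 1536 ^ r * (16 * t * M * (3888 * l)) ^ r := by rw [mul_pow]
        _ ≤ CJ r * (16 * t * M * (3888 * l)) ^ r :=
            mul_le_mul_of_nonneg_right hCJ2 (by positivity)
        _ ≤ g ^ 2 * (g ^ 4) ^ r := hbig2
        _ ≤ (g ^ 6) ^ r := by
            have h9 : (g ^ 6) ^ r = (g ^ 2) ^ r * (g ^ 4) ^ r := by
              rw [← mul_pow]; congr 1; ring
            rw [h9]
            apply mul_le_mul_of_nonneg_right _ (by positivity)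
            have : (g ^ 2) ^ 1 ≤ (g ^ 2) ^ r :=
              pow_le_pow_right₀ (one_le_pow₀ hg1) hr
            simpa using this
    exact le_of_pow_le_pow_left₀ (by omega) (by positivity) h1
  · refine le_trans ?_ (le_trans hCJ1 hbig)
    have a1 : t ≤ t ^ 4 := by
      have : t ^ 1 ≤ t ^ 4 := pow_le_pow_right₀ h5 (by norm_num)
      simpa using this
    have a4 : t ^ 4 * 1 ≤ t ^ 4 * M ^ 2 := mul_le_mul_of_nonneg_left b2 (by positivity)
    nlinarith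

/-- The class decomposition: a subgraph `L', R'` with controlled degrees. -/
theorem two_classes {A B : Type*} [DecidableEq A] [DecidableEq B] (L : Finset A)
    (R : Finset B) (E : A → B → Prop) [DecidableRel E] (l : ℕ) (hl : 1 ≤ l) (hL : L.card ≤ l)
    (hR : R.card ≤ l) (g : ℝ) (hg0 : 0 < g)
    (hgl : g ^ 2 * l = (((L ×ˢ R).filter (fun x => E x.1 x.2)).card : ℝ)) :
    ∃ (i j : ℕ) (L' : Finset A) (R' : Finset B) (h k : ℝ), L' ⊆ L ∧ R' ⊆ R ∧ 0 < h ∧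
      0 < L'.card ∧ 0 < R'.card ∧ g ≤ 3 * 2 ^ i ∧ h ≤ 3 * 2 ^ j ∧
      g ^ 3 ≤ 16 * 2 ^ i * h ^ 2 ∧ h ^ 3 ≤ 16 * 2 ^ j * k ∧
      (4 : ℝ) ^ i * R'.card ≤ l * h ^ 2 ∧ l * k ≤ 4 ^ (j + 1) * L'.card ∧
      (4 : ℝ) ^ j ≤ R'.card ∧ (∀ u ∈ L', 4 ^ j ≤ (Nb R' E u).card) ∧
      (∀ w ∈ R', (L.filter (fun u => E u w)).card ≤ 4 ^ (i + 1)) := by
  classical
  have hlR : (1 : ℝ) ≤ l := by exact_mod_cast hl
  have hlp : (0 : ℝ) < l := by linarith
  rw [edge_sum] at hgl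
  obtain ⟨i, hi1, hi2⟩ := class_sel R (fun w => (L.filter (fun u => E u w)).card) l hR g hg0
    hgl hl
  rw [← hgl] at hi2
  generalize hR' : R.filter (fun w => (L.filter (fun u => E u w)).card ≠ 0 ∧
    Nat.log 4 ((L.filter (fun u => E u w)).card) = i) = R' at hi2
  have hmemR : ∀ w ∈ R', w ∈ R ∧ 4 ^ i ≤ (L.filter (fun u => E u w)).card ∧
      (L.filter (fun u => E u w)).card ≤ 4 ^ (i + 1) := by
    intro w hw
    rw [← hR'] at hw
    obtain ⟨h0, h1, h2⟩ := Finset.mem_filter.mp hw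
    refine ⟨h0, ?_, ?_⟩
    · rw [← h2]; exact Nat.pow_log_le_self 4 h1
    · rw [← h2]; exact (Nat.lt_pow_succ_log_self (by norm_num) _).le
  generalize he' : ∑ w ∈ R', (L.filter (fun u => E u w)).card = e' at hi2
  have hp0 : (0 : ℝ) < 2 ^ i := by positivity
  have he'pos : (0 : ℝ) < e' := by
    by_contra hc
    have h0 : (e' : ℝ) = 0 := le_antisymm (not_lt.mp hc) (by positivity)
    rw [h0, mul_zero] at hi2
    have : (0 : ℝ) < g ^ 2 * l * g := by positivity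
    linarith
  have he'posN : 0 < e' := by exact_mod_cast he'pos
  have hRc1 : 4 ^ i * R'.card ≤ e' := by
    rw [← he', mul_comm, ← smul_eq_mul, ← Finset.sum_const]
    exact Finset.sum_le_sum (fun w hw => (hmemR w hw).2.1)
  have hR'0 : 0 < R'.card := by
    by_contra hc
    have h0 : R' = ∅ := Finset.card_eq_zero.mp (by omega)
    rw [← he', h0] at he'posN
    simp at he'posN
  have hdpos' : (0 : ℝ) < (e' : ℝ) / l := by positivity
  obtain ⟨h, hh0, hh2⟩ : ∃ h : ℝ, 0 < h ∧ h ^ 2 = (e' : ℝ) / l :=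
    ⟨Real.sqrt _, Real.sqrt_pos.mpr hdpos', Real.sq_sqrt hdpos'.le⟩
  have heh : (e' : ℝ) = h ^ 2 * l := by rw [hh2]; field_simp
  have hhl : h ^ 2 * l = ((∑ u ∈ L, (Nb R' E u).card : ℕ) : ℝ) := by
    rw [← heh, ← swap_sum, he']
  obtain ⟨j, hj1, hj2⟩ := class_sel L (fun u => (Nb R' E u).card) l hL h hh0 hhl hl
  rw [← hhl] at hj2
  generalize hL' : L.filter (fun u => (Nb R' E u).card ≠ 0 ∧
    Nat.log 4 ((Nb R' E u).card) = j) = L' at hj2
  have hmemL : ∀ u ∈ L', u ∈ L ∧ 4 ^ j ≤ (Nb R' E u).card ∧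
      (Nb R' E u).card ≤ 4 ^ (j + 1) := by
    intro w hw
    rw [← hL'] at hw
    obtain ⟨h0, h1, h2⟩ := Finset.mem_filter.mp hw
    refine ⟨h0, ?_, ?_⟩
    · rw [← h2]; exact Nat.pow_log_le_self 4 h1
    · rw [← h2]; exact (Nat.lt_pow_succ_log_self (by norm_num) _).le
  generalize he2 : ∑ u ∈ L', (Nb R' E u).card = e2 at hj2
  have he2pos : (0 : ℝ) < e2 := by
    by_contra hc
    have h0 : (e2 : ℝ) = 0 := le_antisymm (not_lt.mp hc) (by positivity)
    rw [h0, mul_zero] at hj2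
    have : (0 : ℝ) < h ^ 2 * l * h := by positivity
    linarith
  have he2posN : 0 < e2 := by exact_mod_cast he2pos
  have hLc1 : e2 ≤ 4 ^ (j + 1) * L'.card := by
    rw [← he2, mul_comm, ← smul_eq_mul, ← Finset.sum_const]
    exact Finset.sum_le_sum (fun w hw => (hmemL w hw).2.2)
  have hL'0 : 0 < L'.card := by
    by_contra hc
    have h0 : L' = ∅ := Finset.card_eq_zero.mp (by omega)
    rw [← he2, h0] at he2posN
    simp at he2posN
  have hjR : 4 ^ j ≤ R'.card := by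
    obtain ⟨u, hu⟩ := Finset.card_pos.mp hL'0
    exact le_trans (hmemL u hu).2.1 (Finset.card_filter_le _ _)
  refine ⟨i, j, L', R', h, (e2 : ℝ) / l, ?_, ?_, hh0, hL'0, hR'0, hi1, hj1, ?_, ?_, ?_, ?_, ?_,
    fun u hu => (hmemL u hu).2.1, fun w hw => (hmemR w hw).2.2⟩
  · intro u hu; exact (hmemL u hu).1
  · intro w hw; exact (hmemR w hw).1
  · have h1 : g ^ 2 * l * g ≤ 16 * 2 ^ i * (h ^ 2 * l) := by rw [← heh]; exact hi2
    have h2 : (l : ℝ) * g ^ 3 ≤ l * (16 * 2 ^ i * h ^ 2) := by linarith [h1]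
    exact le_of_mul_le_mul_left h2 hlp
  · rw [mul_div_assoc', le_div_iff₀ hlp]
    calc h ^ 3 * l = h ^ 2 * l * h := by ring
      _ ≤ _ := hj2
  · have : (4 : ℝ) ^ i * R'.card ≤ e' := by exact_mod_cast hRc1
    rw [heh] at this; linarith
  · have : (e2 : ℝ) ≤ 4 ^ (j + 1) * L'.card := by exact_mod_cast hLc1
    rw [mul_div_assoc', mul_comm (l : ℝ), mul_div_assoc, div_self hlp.ne', mul_one]
    exact this
  · exact_mod_cast hjR

theorem pairJ {A B : Type*} [DecidableEq A] [DecidableEq B] (q : ℕ) (L : Finset A)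
    (R : Finset B) (E : A → B → Prop) [DecidableRel E] (conf : B → B → Prop)
    [DecidableRel conf] (hno : NoSub (q + 1 + 2) L R E conf)
    (crefl : ∀ a, conf a a) (csymm : ∀ a b, conf a b → conf b a)
    (h3 : ∀ u ∈ L, ∀ w', ((Nb R E u).filter (fun w => conf w w')).card ≤ 2)
    (h4 : ∀ u ∈ L, ∀ w ∈ Nb R E u, ∀ w' ∈ Nb R E u, conf w w' → w = w')
    (l : ℕ) (hl : 1 ≤ l) (hL : L.card ≤ l) (hR : R.card ≤ l) :
    ((((L ×ˢ R).filter (fun x => E x.1 x.2)).card : ℝ) / l) ^ (2 * (q + 1) + 1)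
      ≤ KJ (q + 1) * (l : ℝ) ^ (q + 1) := by
  classical
  by_contra hcon
  push Not at hcon
  have hlR : (1 : ℝ) ≤ l := by exact_mod_cast hl
  have hlp : (0 : ℝ) < l := by linarith
  have hKJ0 : 0 < KJ (q + 1) := by unfold KJ CJ; positivity
  have hdpos : (0 : ℝ) < (((L ×ˢ R).filter (fun x => E x.1 x.2)).card : ℝ) / l := by
    by_contra hc
    have h0 : (((L ×ˢ R).filter (fun x => E x.1 x.2)).card : ℝ) / l = 0 :=
      le_antisymm (not_lt.mp hc) (by positivity)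
    rw [h0, zero_pow (by omega)] at hcon
    have : (0 : ℝ) < KJ (q + 1) * (l : ℝ) ^ (q + 1) := by positivity
    linarith
  obtain ⟨g, hg0, hg2⟩ : ∃ g : ℝ, 0 < g ∧
      g ^ 2 = (((L ×ˢ R).filter (fun x => E x.1 x.2)).card : ℝ) / l :=
    ⟨Real.sqrt _, Real.sqrt_pos.mpr hdpos, Real.sq_sqrt hdpos.le⟩
  rw [← hg2] at hcon
  have hgl : g ^ 2 * l = (((L ×ˢ R).filter (fun x => E x.1 x.2)).card : ℝ) := by
    rw [hg2]; field_simp
  obtain ⟨i, j, L', R', h, k, hL'L, hR'R, hh0, hL'0, hR'0, i1, i3, i2, i4, i5, i6, i7, hLlow,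
    hRup⟩ := two_classes L R E l hl hL hR g hg0 hgl
  obtain ⟨t, ht⟩ : ∃ t : ℕ, t = (q + 1) + 2 := ⟨_, rfl⟩
  obtain ⟨M, hM⟩ : ∃ M : ℕ, M = 2 * t ^ 2 + 1 := ⟨_, rfl⟩
  have htR : (t : ℝ) = ((q + 1 : ℕ) : ℝ) + 2 := by rw [ht]; push_cast; ring
  have hMR : (M : ℝ) = 2 * (((q + 1 : ℕ) : ℝ) + 2) ^ 2 + 1 := by rw [hM, ← htR]; push_cast; ring
  have htp : (0 : ℝ) < t := by rw [htR]; positivity
  have hMp : (0 : ℝ) < M := by rw [hMR]; positivity
  obtain ⟨hC6, hCa, hCb⟩ := num_part (q + 1) (by omega) g l t M hlR hg0 htR hMR hcon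
  have hp2 : ((2 : ℝ) ^ i) ^ 2 = 4 ^ i := by rw [← pow_mul, mul_comm, pow_mul]; norm_num
  have hs2 : ((2 : ℝ) ^ j) ^ 2 = 4 ^ j := by rw [← pow_mul, mul_comm, pow_mul]; norm_num
  obtain ⟨c0, ca, cb⟩ := real_part t M q htp hMp g h (2 ^ i) (2 ^ j) k l R'.card L'.card
    (((4 ^ j : ℕ) : ℝ) ^ 2 / (8 * t * M * R'.card)) hg0 hh0 (by positivity) (by positivity) hlp
    (by exact_mod_cast hR'0) (by exact_mod_cast hL'0) i1 i2 i3 i4 (by rw [hp2]; exact i5)
    (by rw [hs2]; rw [pow_succ] at i6; linarith) (by rw [hs2]; exact i7)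
    (by rw [hs2]; push_cast; rfl) hC6 hCa hCb
  have hcast : ((4 ^ j : ℕ) : ℝ) = (2 ^ j) ^ 2 := by rw [hs2]; push_cast; rfl
  have hcast2 : ((4 ^ (i + 1) : ℕ) : ℝ) = 4 * (2 ^ i) ^ 2 := by
    rw [hp2]; push_cast; rw [pow_succ]; ring
  refine iterate (r := q + 1) (L := L') R' E conf (hno.mono hL'L hR'R) crefl csymm ?_ ?_ (4 ^ j)
    (4 ^ (i + 1)) (by positivity) hLlow ?_ hR'0 t M ht hM _ rfl ?_ ?_ ?_
  · intro u hu w'
    refine le_trans (Finset.card_le_card ?_) (h3 u (hL'L hu) w')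
    intro w hw
    obtain ⟨h1, h2⟩ := Finset.mem_filter.mp hw
    obtain ⟨h5, h6⟩ := Finset.mem_filter.mp h1
    exact Finset.mem_filter.mpr ⟨Finset.mem_filter.mpr ⟨hR'R h5, h6⟩, h2⟩
  · intro u hu w hw w' hw' hcf
    obtain ⟨h5, h6⟩ := Finset.mem_filter.mp hw
    obtain ⟨h7, h8⟩ := Finset.mem_filter.mp hw'
    exact h4 u (hL'L hu) w (Finset.mem_filter.mpr ⟨hR'R h5, h6⟩) w'
      (Finset.mem_filter.mpr ⟨hR'R h7, h8⟩) hcf
  · intro w hw
    refine le_trans (Finset.card_le_card ?_) (hRup w hw)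
    intro u hu
    obtain ⟨h1, h2⟩ := Finset.mem_filter.mp hu
    exact Finset.mem_filter.mpr ⟨hL'L h1, h2⟩
  · rw [hcast]; exact c0
  · rw [hcast] at ca ⊢; exact ca
  · rw [hcast2]; exact cb

end PoolH34Sub
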