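import Pool.Agent.H34.Sub.Count

set_option linter.unusedSectionVars false

namespace PoolH34Sub

open Finset

variable {V α : Type*} [Fintype V] [DecidableEq V] [DecidableEq α]

/-- number of monochromatic pairs of ordered edges -/
theorem mono_count (c : Sym2 V → α) :
    (univ : Finset V).offDiag.card ^ 2 ≤ (coloursUsed c).card *
      (((univ : Finset V).offDiag ×ˢ (univ : Finset V).offDiag).filter
        (fun q => c s(q.1.1, q.1.2) = c s(q.2.1, q.2.2))).card := by
  classical
  set D := (univ : Finset V).offDiag with hD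
  have h1 : D.card = ∑ k ∈ coloursUsed c, (D.filter (fun e => c s(e.1, e.2) = k)).card := by
    unfold coloursUsed
    rw [← hD]
    exact Finset.card_eq_sum_card_image (fun e : V × V => c s(e.1, e.2)) D
  rw [h1]
  refine le_trans (sq_sum_le_card_mul_sum_sq) (Nat.mul_le_mul_left _ ?_)
  have h2 : ∀ k ∈ coloursUsed c, (D.filter (fun e => c s(e.1, e.2) = k)).card ^ 2
      = (D.filter (fun e => c s(e.1, e.2) = k) ×ˢ D.filter (fun e => c s(e.1, e.2) = k)).card := by
    intro k _
    rw [Finset.card_product, sq]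
  rw [Finset.sum_congr rfl h2, ← Finset.card_biUnion]
  · apply Finset.card_le_card
    intro q hq
    rw [Finset.mem_biUnion] at hq
    obtain ⟨k, _, hq⟩ := hq
    rw [Finset.mem_product, Finset.mem_filter, Finset.mem_filter] at hq
    rw [Finset.mem_filter, Finset.mem_product]
    exact ⟨⟨hq.1.1, hq.2.1⟩, hq.1.2.trans hq.2.2.symm⟩
  · intro k _ k' _ hkk
    rw [Function.onFun, Finset.disjoint_left]
    intro q hq hq'
    rw [Finset.mem_product, Finset.mem_filter, Finset.mem_filter] at hq hq'
    exact hkk (hq.1.2.symm.trans hq'.1.2)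

/-- monochromatic pairs are equal edges or edges of the pair graph -/
theorem mono_le {c : Sym2 V → α} (hc : IsProperColouring c) :
    (((univ : Finset V).offDiag ×ˢ (univ : Finset V).offDiag).filter
        (fun q => c s(q.1.1, q.1.2) = c s(q.2.1, q.2.2))).card
      ≤ (univ : Finset V).offDiag.card
        + eN c (univ : Finset V).offDiag (univ : Finset V).offDiag := by
  classical
  set D := (univ : Finset V).offDiag with hD
  have hmem : ∀ e : V × V, e ∈ D ↔ e.1 ≠ e.2 := by
    intro e; rw [hD, Finset.mem_offDiag]; simp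
  have hsub : (D ×ˢ D).filter (fun q => c s(q.1.1, q.1.2) = c s(q.2.1, q.2.2)) ⊆
      D.image (fun e => (e, e)) ∪
      ((D ×ˢ D).filter (fun q => PE c q.1 q.2)).image
        (fun q => ((q.1.1, q.2.1), (q.1.2, q.2.2))) := by
    intro q hq
    rw [Finset.mem_filter, Finset.mem_product, hmem, hmem] at hq
    obtain ⟨⟨h1, h2⟩, h3⟩ := hq
    rw [Finset.mem_union]
    by_cases ha : q.1.1 = q.2.1
    · left
      rw [Finset.mem_image]
      refine ⟨q.1, (hmem _).mpr h1, ?_⟩
      have : q.1.2 = q.2.2 := by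
        apply hc q.1.1 _ _ h1 (by rw [ha]; exact h2)
        rw [h3, ha]
      exact Prod.ext rfl (Prod.ext ha this)
    · by_cases hb : q.1.2 = q.2.2
      · left
        rw [Finset.mem_image]
        refine ⟨q.1, (hmem _).mpr h1, ?_⟩
        have : q.1.1 = q.2.1 := by
          apply hc q.1.2 _ _ h1.symm (by rw [hb]; exact h2.symm)
          rw [Sym2.eq_swap, h3, hb, Sym2.eq_swap]
        exact Prod.ext rfl (Prod.ext this hb)
      · right
        rw [Finset.mem_image]
        refine ⟨((q.1.1, q.2.1), (q.1.2, q.2.2)), ?_, ?_⟩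
        · rw [Finset.mem_filter, Finset.mem_product, hmem, hmem]
          exact ⟨⟨ha, hb⟩, h1, h2, h3⟩
        · rfl
  calc _ ≤ _ := Finset.card_le_card hsub
    _ ≤ _ := Finset.card_union_le _ _
    _ ≤ _ := Nat.add_le_add Finset.card_image_le Finset.card_image_le

section Group

variable {G : Type*} [AddCommGroup G] [DecidableEq G]

/-- the class of ordered pairs of difference `δ` -/
def LD (p : V → G) (δ : G) : Finset (V × V) :=
  (univ : Finset V).offDiag.filter (fun e => p e.2 - p e.1 = δ)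

def RD (p : V → G) (δ : G) : Finset (V × V) :=
  (univ : Finset V).offDiag.filter (fun e => p e.1 - p e.2 = δ)

theorem RD_card (p : V → G) (δ : G) : (RD p δ).card = (LD p δ).card := by
  classical
  apply Finset.card_bij (fun e _ => (e.2, e.1))
  · intro e he
    unfold RD at he
    unfold LD
    rw [Finset.mem_filter, Finset.mem_offDiag] at he ⊢
    exact ⟨⟨mem_univ _, mem_univ _, he.1.2.2.symm⟩, he.2⟩
  · intro e _ e' _ h
    have h1 := congrArg Prod.fst h
    have h2 := congrArg Prod.snd h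
    exact Prod.ext h2 h1
  · intro e he
    unfold LD at he
    unfold RD
    rw [Finset.mem_filter, Finset.mem_offDiag] at he
    refine ⟨(e.2, e.1), ?_, rfl⟩
    rw [Finset.mem_filter, Finset.mem_offDiag]
    exact ⟨⟨mem_univ _, mem_univ _, he.1.2.2.symm⟩, he.2⟩

theorem LD_card_le (p : V → G) (m : ℕ)
    (hm : ∀ g, ((univ : Finset V).filter (fun x => p x = g)).card ≤ m) (δ : G) :
    (LD p δ).card ≤ Fintype.card V * m := by
  classical
  have h : (LD p δ).card = ∑ x : V, ((LD p δ).filter (fun e => e.1 = x)).card :=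
    Finset.card_eq_sum_card_fiberwise (fun e _ => mem_univ _)
  rw [h]
  calc ∑ x : V, ((LD p δ).filter (fun e => e.1 = x)).card ≤ ∑ _x : V, m := by
        apply Finset.sum_le_sum
        intro x _
        refine le_trans ?_ (hm (p x + δ))
        apply Finset.card_le_card_of_injOn (fun e => e.2)
        · intro e he
          have he := Finset.mem_filter.mp (Finset.mem_coe.mp he)
          have h2 := (Finset.mem_filter.mp he.1).2
          simp only [Finset.coe_filter, Finset.mem_univ, true_and, Set.mem_setOf_eq]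
          rw [← he.2, ← h2]; abel
        · intro e he e' he' h
          have he := Finset.mem_filter.mp (Finset.mem_coe.mp he)
          have he' := Finset.mem_filter.mp (Finset.mem_coe.mp he')
          exact Prod.ext (he.2.trans he'.2.symm) h
    _ = Fintype.card V * m := by rw [Finset.sum_const, smul_eq_mul, Finset.card_univ]

/-- decomposition of the pair graph -/
theorem eN_decomp {c : Sym2 V → α} (p : V → G)
    (hp : ∀ x x' y y', x ≠ x' → y ≠ y' → c s(x, x') = c s(y, y') → p x + p x' = p y + p y') :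
    eN c (univ : Finset V).offDiag (univ : Finset V).offDiag
      ≤ ∑ δ ∈ (univ : Finset V).offDiag.image (fun e => p e.2 - p e.1),
        eN c (LD p δ) (RD p δ) := by
  classical
  set D := (univ : Finset V).offDiag with hD
  unfold eN
  rw [Finset.card_eq_sum_card_fiberwise (f := fun q => p q.1.2 - p q.1.1)
    (t := D.image (fun e => p e.2 - p e.1))]
  · apply Finset.sum_le_sum
    intro δ _
    apply Finset.card_le_card
    intro q hq
    rw [Finset.mem_filter, Finset.mem_filter, Finset.mem_product] at hq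
    obtain ⟨⟨⟨h1, h2⟩, h3⟩, h4⟩ := hq
    rw [Finset.mem_filter, Finset.mem_product]
    refine ⟨⟨?_, ?_⟩, h3⟩
    · unfold LD; rw [Finset.mem_filter]; exact ⟨h1, h4⟩
    · unfold RD; rw [Finset.mem_filter]
      refine ⟨h2, ?_⟩
      have h5 := hp _ _ _ _ h3.1 h3.2.1 h3.2.2
      rw [← h4]
      have : p q.2.1 = p q.1.2 + p q.2.2 - p q.1.1 := by rw [← h5]; abel
      rw [this]; abel
  · intro q hq
    have hq := Finset.mem_filter.mp (Finset.mem_coe.mp hq)
    have h1 := (Finset.mem_product.mp hq.1).1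
    exact Finset.mem_coe.mpr (Finset.mem_image_of_mem _ h1)

theorem sum_LD (p : V → G) :
    ∑ δ ∈ (univ : Finset V).offDiag.image (fun e => p e.2 - p e.1), (LD p δ).card
      = (univ : Finset V).offDiag.card := by
  classical
  unfold LD
  exact (Finset.card_eq_sum_card_image (fun e : V × V => p e.2 - p e.1)
    (univ : Finset V).offDiag).symm

/-- The main theorem in integer form. -/
theorem main {t : ℕ} (ht : 1 ≤ t) {c : Sym2 V → α} (hc : IsProperColouring c) (p : V → G) (m : ℕ)
    (hm : ∀ g, ((univ : Finset V).filter (fun x => p x = g)).card ≤ m)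
    (hp : ∀ x x' y y', x ≠ x' → y ≠ y' → c s(x, x') = c s(y, y') → p x + p x' = p y + p y')
    (hno : ¬ HasTwoIsomorphicCopies c (subdivK t)) (hV : 2 ≤ Fintype.card V) :
    Fintype.card V ^ 3 ≤ (132 * t * (2 * t + 1) ^ 2) ^ 2 * m * (coloursUsed c).card ^ 2 := by
  classical
  set n := Fintype.card V with hn
  set C := (coloursUsed c).card with hC
  set D := (univ : Finset V).offDiag with hD
  have hDc : D.card = n * n - n := by rw [hD, Finset.offDiag_card, Finset.card_univ]
  have hm1 : 1 ≤ m := by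
    have : Nonempty V := by
      rw [← Fintype.card_pos_iff]; omega
    obtain ⟨v⟩ := this
    refine le_trans ?_ (hm (p v))
    rw [Nat.one_le_iff_ne_zero, ← Nat.pos_iff_ne_zero, Finset.card_pos]
    exact ⟨v, by simp⟩
  set M := 4 * t ^ 2 + 4 * t + 1 with hM
  set κ : ℝ := 32 * t * M * Real.sqrt (n * m) with hκ
  have hnm1 : (1 : ℝ) ≤ n * m := by
    have : 1 ≤ n * m := Nat.one_le_iff_ne_zero.mpr (by positivity)
    exact_mod_cast this
  have hs1 : 1 ≤ Real.sqrt (n * m) := by
    rw [← Real.sqrt_one]; exact Real.sqrt_le_sqrt hnm1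
  have hssq : Real.sqrt (n * m) ^ 2 = n * m := Real.sq_sqrt (by positivity)
  have htR : (1 : ℝ) ≤ t := by exact_mod_cast ht
  have hMR : (1 : ℝ) ≤ M := by
    have : 1 ≤ M := by omega
    exact_mod_cast this
  have hedge : ∀ δ, (eN c (LD p δ) (RD p δ) : ℝ) ≤ κ * (LD p δ).card := by
    intro δ
    have h := edge_bound hc (LD p δ) (RD p δ)
      (fun q hq => by
        have := (Finset.mem_filter.mp hq).1
        rw [Finset.mem_offDiag] at this; exact this.2.2)
      (fun q hq => by
        have := (Finset.mem_filter.mp hq).1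
        rw [Finset.mem_offDiag] at this; exact this.2.2) hno
    rw [RD_card, ← hM] at h
    have hl := LD_card_le p m hm δ
    set l := (LD p δ).card with hl'
    set e := eN c (LD p δ) (RD p δ) with he
    have hR : (e : ℝ) ^ 2 ≤ l * (4 * t * (4 * e + M * l ^ 2)) := by exact_mod_cast h
    have hlR : (l : ℝ) ≤ n * m := by exact_mod_cast hl
    by_contra hcon
    push Not at hcon
    have hl0 : (0 : ℝ) ≤ l := by positivity
    have he0 : (0 : ℝ) < e := lt_of_le_of_lt (by positivity) hcon
    have hκ32 : 32 * (t : ℝ) ≤ κ := by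
      rw [hκ]
      have h1 : (1 : ℝ) ≤ M * Real.sqrt (n * m) := by nlinarith
      nlinarith
    -- 16 t l e ≤ e^2 / 2
    have g1 : 16 * t * l * e ≤ (e : ℝ) ^ 2 / 2 := by
      have : 32 * t * (l : ℝ) ≤ e := by
        calc 32 * t * (l : ℝ) ≤ κ * l := mul_le_mul_of_nonneg_right hκ32 hl0
          _ ≤ e := hcon.le
      nlinarith
    -- 4 t M l^3 < e^2/2
    have g2 : 4 * t * M * (l : ℝ) ^ 3 < (e : ℝ) ^ 2 / 2 := by
      have hb : (κ * l) ^ 2 < (e : ℝ) ^ 2 := by
        apply pow_lt_pow_left₀ hcon (by positivity) (by norm_num)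
      have hk2 : κ ^ 2 = (32 * t * M) ^ 2 * (n * m) := by
        rw [hκ, mul_pow, hssq]
      have hc1 : 8 * t * M * (l : ℝ) ^ 3 ≤ (κ * l) ^ 2 := by
        rw [mul_pow, hk2]
        have h1 : 8 * (t : ℝ) * M ≤ (32 * t * M) ^ 2 := by
          have : (1 : ℝ) ≤ t * M := by nlinarith
          nlinarith
        have h2 : (l : ℝ) * (l : ℝ) ^ 2 ≤ ((n : ℝ) * m) * (l : ℝ) ^ 2 :=
          mul_le_mul_of_nonneg_right hlR (by positivity)
        have h3 : (8 * (t : ℝ) * M) * ((l : ℝ) * (l : ℝ) ^ 2)
            ≤ (32 * (t : ℝ) * M) ^ 2 * (((n : ℝ) * m) * (l : ℝ) ^ 2) :=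
          mul_le_mul h1 h2 (by positivity) (by positivity)
        calc 8 * (t : ℝ) * M * (l : ℝ) ^ 3 = (8 * (t : ℝ) * M) * ((l : ℝ) * (l : ℝ) ^ 2) := by ring
          _ ≤ _ := h3
          _ = (32 * (t : ℝ) * M) ^ 2 * ((n : ℝ) * m) * (l : ℝ) ^ 2 := by ring
      linarith
    nlinarith
  have hT' : (eN c D D : ℝ) ≤ κ * D.card := by
    have h1 := eN_decomp (c := c) p hp
    rw [← hD] at h1
    have h2 : (eN c D D : ℝ) ≤ ∑ δ ∈ D.image (fun e => p e.2 - p e.1),
        (eN c (LD p δ) (RD p δ) : ℝ) := by exact_mod_cast h1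
    refine le_trans h2 ?_
    calc ∑ δ ∈ D.image (fun e => p e.2 - p e.1), (eN c (LD p δ) (RD p δ) : ℝ)
        ≤ ∑ δ ∈ D.image (fun e => p e.2 - p e.1), κ * (LD p δ).card :=
          Finset.sum_le_sum (fun δ _ => hedge δ)
      _ = κ * D.card := by
          rw [← Finset.mul_sum]
          congr 1
          have := sum_LD p
          rw [← hD] at this
          exact_mod_cast this
  have hmono := mono_count c
  have hmono2 := mono_le hc
  rw [← hD] at hmono hmono2
  set T := ((D ×ˢ D).filter (fun q => c s(q.1.1, q.1.2) = c s(q.2.1, q.2.2))).card with hT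
  have hT2 : (T : ℝ) ≤ D.card + κ * D.card := by
    have : (T : ℝ) ≤ D.card + eN c D D := by exact_mod_cast hmono2
    linarith
  have hmonoR : (D.card : ℝ) ^ 2 ≤ C * T := by exact_mod_cast hmono
  have hDR : (D.card : ℝ) = n * (n - 1) := by
    rw [hDc, Nat.cast_sub (by nlinarith)]
    push_cast
    ring
  have hn2 : (2 : ℝ) ≤ n := by exact_mod_cast hV
  have hDpos : (0 : ℝ) < D.card := by rw [hDR]; nlinarith
  have hC0 : (0 : ℝ) ≤ C := by positivity
  have h3 : (D.card : ℝ) ≤ C * (1 + κ) := by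
    have : (D.card : ℝ) ^ 2 ≤ C * (D.card + κ * D.card) :=
      le_trans hmonoR (mul_le_mul_of_nonneg_left hT2 hC0)
    have h4 : (D.card : ℝ) * D.card ≤ (C * (1 + κ)) * D.card := by nlinarith
    exact le_of_mul_le_mul_right h4 hDpos
  have h5 : 1 + κ ≤ 33 * t * M * Real.sqrt (n * m) := by
    have h1 : (1 : ℝ) ≤ t * M := by nlinarith
    have h2 : (1 : ℝ) ≤ t * M * Real.sqrt (n * m) := by nlinarith
    rw [hκ]; nlinarith
  have h6 : (n : ℝ) ^ 2 ≤ 66 * t * M * C * Real.sqrt (n * m) := by
    have h7 : (n : ℝ) ^ 2 / 2 ≤ D.card := by rw [hDR]; nlinarith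
    have h8 : C * (1 + κ) ≤ C * (33 * t * M * Real.sqrt (n * m)) :=
      mul_le_mul_of_nonneg_left h5 hC0
    nlinarith
  have h9 : (n : ℝ) ^ 4 ≤ (66 * t * M * C) ^ 2 * (n * m) := by
    have h10 : ((n : ℝ) ^ 2) ^ 2 ≤ (66 * t * M * C * Real.sqrt (n * m)) ^ 2 :=
      pow_le_pow_left₀ (by positivity) h6 2
    rw [mul_pow, hssq] at h10
    calc (n : ℝ) ^ 4 = ((n : ℝ) ^ 2) ^ 2 := by ring
      _ ≤ _ := h10
  have h11 : (n : ℝ) ^ 3 ≤ (66 * t * M * C) ^ 2 * m := by
    have hnpos : (0 : ℝ) < n := by linarith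
    have : (n : ℝ) ^ 3 * n ≤ ((66 * t * M * C) ^ 2 * m) * n := by nlinarith
    exact le_of_mul_le_mul_right this hnpos
  have h12 : (n : ℝ) ^ 3 ≤ (132 * t * (2 * t + 1) ^ 2) ^ 2 * m * C ^ 2 := by
    refine le_trans h11 ?_
    have hMe : (M : ℝ) = (2 * t + 1) ^ 2 := by rw [hM]; push_cast; ring
    rw [hMe]
    have : (0 : ℝ) ≤ (t * (2 * t + 1) ^ 2 * C) ^ 2 * m := by positivity
    nlinarith
  exact_mod_cast h12

end Group

end PoolH34Sub
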